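import Pool.Agent.Dil.Targets

/-!
# NORM
-/

namespace Pool.Agent.Dil

open MeasureTheory Set Filter
open Pool.Agent.Restr (u E QQ)
open scoped ENNReal NNReal Topology

namespace NORM_

/-- Joint measurability of the extension of the dilates. -/
theorem measurable_joint {f : ℝ × ℝ → ℂ} (hf : Measurable f) :
    Measurable (fun p : ℝ × (ℝ × ℝ × ℝ) => E (dil p.1 f) p.2) := by
  have h1 : Measurable (fun p : (ℝ × (ℝ × ℝ × ℝ)) × (ℝ × ℝ) =>
      u (p.1.2.1 * p.2.1 + (p.1.2.2.1 * p.2.2 + p.1.2.2.2 * (p.2.1 ^ 2 + p.2.2 ^ 2))) *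
        dil p.1.1 f p.2) := by
    apply Measurable.mul
    · have hc : Continuous (fun p : (ℝ × (ℝ × ℝ × ℝ)) × (ℝ × ℝ) =>
          u (p.1.2.1 * p.2.1 + (p.1.2.2.1 * p.2.2 + p.1.2.2.2 * (p.2.1 ^ 2 + p.2.2 ^ 2)))) := by
        have hu : Continuous u := by
          unfold u
          fun_prop
        exact hu.comp (by fun_prop)
      exact hc.measurable
    · unfold dil
      have hc : Continuous (fun p : (ℝ × (ℝ × ℝ × ℝ)) × (ℝ × ℝ) => (p.2.1, p.1.1 * p.2.2)) := by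
        fun_prop
      exact hf.comp hc.measurable
  exact (h1.stronglyMeasurable.integral_prod_right).measurable

/-- Triple integrals, last variable outside. -/
theorem lintegral_last {h : ℝ × ℝ × ℝ → ℝ≥0∞} (hh : Measurable h) :
    ∫⁻ ξ, h ξ = ∫⁻ t : ℝ, ∫⁻ w : ℝ × ℝ, h (w.1, w.2, t) := by
  have hp := volume_preserving_prodAssoc (α₁ := ℝ) (β₁ := ℝ) (γ₁ := ℝ)
  rw [← hp.lintegral_comp hh]
  have hm : Measurable (fun z : (ℝ × ℝ) × ℝ => h (MeasurableEquiv.prodAssoc z)) :=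
    hh.comp (MeasurableEquiv.measurable _)
  rw [Measure.volume_eq_prod (α := ℝ × ℝ) (β := ℝ), lintegral_prod_symm _ hm.aemeasurable]
  rfl

end NORM_

open NORM_ in
/-- NORM. -/
theorem p_NORM : T_NORM := by
  intro q hq f hf
  have hj := measurable_joint hf
  have hE : ∀ θ : ℝ, Measurable (E (dil θ f)) := fun θ =>
    hj.comp (by fun_prop : Measurable fun ξ : ℝ × ℝ × ℝ => (θ, ξ))
  have h1 : ∀ θ : ℝ, eLpNorm (E (dil θ f)) (ENNReal.ofReal q) volume ^ q =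
      ∫⁻ t, sl q (dil θ f) t := by
    intro θ
    rw [← Pool.Agent.Restr.lin_q hq, lintegral_last ((hE θ).enorm.pow_const q)]
    rfl
  have h2 : Measurable (fun z : ℝ × ℝ => sl q (dil z.1 f) z.2) := by
    unfold sl
    apply Measurable.lintegral_prod_right'
      (f := fun p : (ℝ × ℝ) × (ℝ × ℝ) => ‖E (dil p.1.1 f) (p.2.1, p.2.2, p.1.2)‖ₑ ^ q)
    exact (hj.comp (by fun_prop : Measurable fun p : (ℝ × ℝ) × (ℝ × ℝ) =>
      (p.1.1, (p.2.1, p.2.2, p.1.2)))).enorm.pow_const q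
  refine ⟨h1, h2, ?_⟩
  have h3 : Measurable (fun θ : ℝ => ∫⁻ t, sl q (dil θ f) t) :=
    Measurable.lintegral_prod_right' (f := fun z : ℝ × ℝ => sl q (dil z.1 f) z.2) h2
  have h4 : (fun θ : ℝ => eLpNorm (E (dil θ f)) (ENNReal.ofReal q) volume) =
      fun θ : ℝ => (∫⁻ t, sl q (dil θ f) t) ^ (1 / q) := by
    funext θ
    rw [← h1 θ, ← ENNReal.rpow_mul, mul_one_div_cancel hq.ne', ENNReal.rpow_one]
  rw [h4]
  exact h3.pow_const _

end Pool.Agent.Dil
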