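import Mathlib
import Pool.Agent.Restr.Global
import Pool.Agent.H27.Fib.Final

/-!
# Anisotropic dilates and the extension operator: definitions and targets
-/

namespace Pool.Agent.Dil

open MeasureTheory Set Filter
open Pool.Agent.Restr (u E QQ)
open Pool.Agent.H27.Fib (ind)
open scoped ENNReal NNReal Topology

/-- The anisotropic dilate `(x₁, x₂) ↦ f (x₁, θ x₂)`. -/
noncomputable def dil (θ : ℝ) (f : ℝ × ℝ → ℂ) (x : ℝ × ℝ) : ℂ := f (x.1, θ * x.2)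

/-- The extension operator of the product of two parabolas; the variables are
`((ξ₁, a), (ξ₂, b))`. -/
noncomputable def E2 (f : ℝ × ℝ → ℂ) (w : (ℝ × ℝ) × (ℝ × ℝ)) : ℂ :=
  ∫ x : ℝ × ℝ, u ((w.1.1 * x.1 + w.1.2 * x.1 ^ 2) + (w.2.1 * x.2 + w.2.2 * x.2 ^ 2)) * f x

/-- Multiplication by `x₂²`. -/
noncomputable def sqm (f : ℝ × ℝ → ℂ) (x : ℝ × ℝ) : ℂ := ((x.2 ^ 2 : ℝ) : ℂ) * f x

/-- The dyadic block of times. -/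
def Jk (k : ℕ) : Set ℝ := {t : ℝ | (2 : ℝ) ^ k ≤ |t| ∧ |t| < 2 * (2 : ℝ) ^ k}

/-- The `q`-th power of the norm of the extension on a time slice. -/
noncomputable def sl (q : ℝ) (g : ℝ × ℝ → ℂ) (t : ℝ) : ℝ≥0∞ :=
  ∫⁻ w : ℝ × ℝ, ‖E g (w.1, w.2, t)‖ₑ ^ q

/-- The `q`-th power of the norm over the dilation parameter `θ` (with measure `μ`) and the
times in `I`. -/
noncomputable def blk (q : ℝ) (μ : Measure ℝ) (I : Set ℝ) (f : ℝ × ℝ → ℂ) : ℝ≥0∞ :=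
  ∫⁻ θ, (∫⁻ t in I, sl q (dil θ f) t) ∂μ

/-- The bound for a block, up to constants and the size of the function. -/
noncomputable def BB (q a η : ℝ) (k : ℕ) (μ : Measure ℝ) (M : ℝ≥0∞) : ℝ≥0∞ :=
  (ENNReal.ofReal ((2 : ℝ) ^ k) * μ univ) ^ ((4 - q) / 2) *
    (M * ENNReal.ofReal (((2 : ℝ) ^ k) ^ η)) ^ a * (μ univ) ^ ((q - 2) / 2 - a)

/-- Fourth power estimate for `E2` on a square of times. -/
def T_L4 : Prop := ∀ η : ℝ, 0 < η → ∃ C : ℝ≥0, ∀ f : ℝ × ℝ → ℂ, Measurable f →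
  (∀ x, x ∉ QQ → f x = 0) → ∀ R : ℝ, 1 ≤ R →
  ∫⁻ w : (ℝ × ℝ) × (ℝ × ℝ) in {w | |w.1.2| ≤ R ∧ |w.2.2| ≤ R}, ‖E2 f w‖ₑ ^ 4 ≤
    C * ENNReal.ofReal (R ^ η) * ∫⁻ x, ‖f x‖ₑ ^ 4

/-- Sobolev inequality in the last variable. -/
def T_SOB : Prop := ∀ f : ℝ × ℝ → ℂ, Measurable f → Integrable f → (∀ x, x ∉ QQ → f x = 0) →
  ∀ x a y b : ℝ, ‖E2 f ((x, a), (y, b))‖ₑ ^ 4 ≤
    8 * ∫⁻ s in Icc b (b + 1),
      (‖E2 f ((x, a), (y, s))‖ₑ ^ 4 + ‖E2 (sqm f) ((x, a), (y, s))‖ₑ ^ 4)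

/-- The fourth power estimate for the dilates on a block. -/
def T_L4A : Prop := ∀ η : ℝ, 0 < η → ∃ C : ℝ≥0, ∀ f : ℝ × ℝ → ℂ, Measurable f → Integrable f →
  (∀ x, x ∉ QQ → f x = 0) → ∀ (k : ℕ) (μ : Measure ℝ) [IsFiniteMeasure μ],
  μ (Icc 1 2)ᶜ = 0 → ∀ M : ℝ≥0∞, (∀ x : ℝ, μ (Icc x (x + 4 / (2 : ℝ) ^ k)) ≤ M) →
  blk 4 μ (Jk k) f ≤ M * (C * ENNReal.ofReal (((2 : ℝ) ^ k) ^ η)) * ∫⁻ x, ‖f x‖ₑ ^ 4

/-- The block estimate for indicator functions. -/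
def T_RES : Prop := ∀ q a η : ℝ, 3 < q → q < 4 → 0 < a → a ≤ (q - 2) / 2 → 0 < η →
  ∃ C : ℝ≥0, ∀ A : Set (ℝ × ℝ), MeasurableSet A → A ⊆ QQ → ∀ (k : ℕ) (μ : Measure ℝ)
  [IsFiniteMeasure μ], μ (Icc 1 2)ᶜ = 0 → ∀ M : ℝ≥0∞,
  (∀ x : ℝ, μ (Icc x (x + 4 / (2 : ℝ) ^ k)) ≤ M) →
  blk q μ (Jk k) (ind A) ≤ C * BB q a η k μ M * volume A ^ (q / 2 - a)

/-- From indicator functions to functions (layer cake, Minkowski, Chebyshev). -/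
def T_LAY : Prop := ∀ q p r : ℝ, 1 < q → 1 < p → 0 < r → q < p * r → ∃ C : ℝ≥0,
  ∀ (μ : Measure ℝ) [IsFiniteMeasure μ], μ (Icc 1 2)ᶜ = 0 → ∀ I : Set ℝ, MeasurableSet I →
  ∀ D : ℝ≥0∞,
  (∀ A : Set (ℝ × ℝ), MeasurableSet A → A ⊆ QQ → blk q μ I (ind A) ≤ D * volume A ^ r) →
  ∀ f : ℝ × ℝ → ℂ, Measurable f → (∀ x, x ∉ QQ → f x = 0) →
  eLpNorm f (ENNReal.ofReal p) volume ≠ ⊤ →
  blk q μ I f ≤ C * D * eLpNorm f (ENNReal.ofReal p) volume ^ q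

/-- The block estimate for functions. -/
def T_FUN : Prop := ∀ q p a η : ℝ, 3 < q → q < 4 → q / (q - 2) < p → 0 < a →
  a ≤ (q - 2) / 2 → a < q / 2 - q / p → 0 < η →
  ∃ C : ℝ≥0, ∀ f : ℝ × ℝ → ℂ, Measurable f → (∀ x, x ∉ QQ → f x = 0) →
  eLpNorm f (ENNReal.ofReal p) volume ≠ ⊤ →
  ∀ (k : ℕ) (μ : Measure ℝ) [IsFiniteMeasure μ], μ (Icc 1 2)ᶜ = 0 → ∀ M : ℝ≥0∞,
  (∀ x : ℝ, μ (Icc x (x + 4 / (2 : ℝ) ^ k)) ≤ M) →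
  blk q μ (Jk k) f ≤ C * BB q a η k μ M * eLpNorm f (ENNReal.ofReal p) volume ^ q

/-- Small times. -/
def T_ZERO : Prop := ∀ q p : ℝ, 2 < q → q < 4 → 2 ≤ p → ∃ C : ℝ≥0, ∀ f : ℝ × ℝ → ℂ,
  Measurable f → (∀ x, x ∉ QQ → f x = 0) → ∀ θ : ℝ, θ ∈ Icc (1 : ℝ) 2 →
  ∫⁻ t in {t : ℝ | |t| < 1}, sl q (dil θ f) t ≤ C * eLpNorm f (ENNReal.ofReal p) volume ^ q

/-- The norm of the extension and the slices; measurability in the parameter. -/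
def T_NORM : Prop := ∀ q : ℝ, 0 < q → ∀ f : ℝ × ℝ → ℂ, Measurable f →
  (∀ θ : ℝ, eLpNorm (E (dil θ f)) (ENNReal.ofReal q) volume ^ q = ∫⁻ t, sl q (dil θ f) t) ∧
  Measurable (fun z : ℝ × ℝ => sl q (dil z.1 f) z.2) ∧
  Measurable (fun θ : ℝ => eLpNorm (E (dil θ f)) (ENNReal.ofReal q) volume)

/-- The estimate for measures of Frostman type. -/
def T_FRO : Prop := ∀ q p a α : ℝ, 3 < q → q < 4 → q / (q - 2) < p → 0 < a →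
  a ≤ (q - 2) / 2 → a < q / 2 - q / p → 0 < α → α ≤ 1 → (4 - q) / 2 < α * a →
  ∃ C : ℝ≥0, ∀ (μ : Measure ℝ) [IsFiniteMeasure μ], μ (Icc 1 2)ᶜ = 0 → ∀ A : ℝ≥0∞,
  (∀ x r : ℝ, 0 < r → r ≤ 4 → μ (Icc x (x + r)) ≤ A * ENNReal.ofReal (r ^ α)) →
  ∀ f : ℝ × ℝ → ℂ, Measurable f → (∀ x, x ∉ QQ → f x = 0) →
  eLpNorm f (ENNReal.ofReal p) volume ≠ ⊤ →
  ∫⁻ θ, eLpNorm (E (dil θ f)) (ENNReal.ofReal q) volume ^ q ∂μ ≤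
    C * (A ^ a * (μ univ) ^ (1 - a)) * eLpNorm f (ENNReal.ofReal p) volume ^ q

/-- The distribution of the norm over the parameter. -/
def T_TAIL : Prop := ∀ q p r : ℝ, 3 < q → q < 4 → q / (q - 2) < p → 0 < r →
  r < 2 * q / (4 - q) → ∃ C : ℝ≥0, ∀ f : ℝ × ℝ → ℂ, Measurable f → (∀ x, x ∉ QQ → f x = 0) →
  ∀ K : ℝ, 0 < K →
  volume {θ : ℝ | θ ∈ Icc (1 : ℝ) 2 ∧ ENNReal.ofReal K * eLpNorm f (ENNReal.ofReal p) volume <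
    eLpNorm (E (dil θ f)) (ENNReal.ofReal q) volume} ≤ C * ENNReal.ofReal (K ^ (-r))

/-- Abstract covering lemma for the Hausdorff dimension of an upper limit of sets. -/
def T_ABS : Prop := ∀ (B : ℕ → Set ℝ) (c C : ℝ), 0 ≤ c → (∀ k, B k ⊆ Icc 1 2) →
  (∀ (k : ℕ) (F : Finset ℝ), (F : Set ℝ) ⊆ B k →
    (∀ x ∈ F, ∀ y ∈ F, x ≠ y → 4 / (2 : ℝ) ^ k < |x - y|) →
    (F.card : ℝ) ≤ C * ((2 : ℝ) ^ k) ^ c) →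
  dimH {x : ℝ | ∃ᶠ k in atTop, x ∈ B k} ≤ ENNReal.ofReal c

/-- The dimension of the exceptional set, `θ` between 1 and 2. -/
def T_DIM1 : Prop := ∀ q p : ℝ, 3 < q → q < 4 → q / (q - 2) < p → p ≤ q →
  ∀ f : ℝ × ℝ → ℂ, Measurable f → (∀ x, x ∉ QQ → f x = 0) →
  eLpNorm f (ENNReal.ofReal p) volume ≠ ⊤ →
  dimH {θ : ℝ | θ ∈ Icc (1 : ℝ) 2 ∧ eLpNorm (E (dil θ f)) (ENNReal.ofReal q) volume = ⊤} ≤
    ENNReal.ofReal ((4 - q) / (q - 2 * q / p))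

/-- Isotropic scaling. -/
def T_ISO : Prop := ∀ q c : ℝ, 0 < q → 0 < c → ∀ f : ℝ × ℝ → ℂ, Measurable f →
  (eLpNorm (E fun x => f (c * x.1, c * x.2)) (ENNReal.ofReal q) volume = ⊤ ↔
    eLpNorm (E f) (ENNReal.ofReal q) volume = ⊤)

/-- Bounded support. -/
def BSupp (f : ℝ × ℝ → ℂ) : Prop := ∃ ρ : ℝ, ∀ x : ℝ × ℝ, ρ < x.1 ^ 2 + x.2 ^ 2 → f x = 0

/-- The dimension of the exceptional set, all `θ > 0`, bounded support. -/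
def T_DIM : Prop := ∀ q p : ℝ, 3 < q → q < 4 → q / (q - 2) < p → p ≤ q →
  ∀ f : ℝ × ℝ → ℂ, Measurable f → BSupp f → eLpNorm f (ENNReal.ofReal p) volume ≠ ⊤ →
  dimH {θ : ℝ | 0 < θ ∧ eLpNorm (E (dil θ f)) (ENNReal.ofReal q) volume = ⊤} ≤
    ENNReal.ofReal ((4 - q) / (q - 2 * q / p))

/-- Almost every linear map. -/
def T_MAT : Prop := ∀ q p : ℝ, 3 < q → q < 4 → q / (q - 2) < p → 
  ∀ f : ℝ × ℝ → ℂ, Measurable f → BSupp f → eLpNorm f (ENNReal.ofReal p) volume ≠ ⊤ →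
  ∀ᵐ A : (ℝ × ℝ) × (ℝ × ℝ), eLpNorm (E fun x : ℝ × ℝ =>
    f (A.1.1 * x.1 + A.1.2 * x.2, A.2.1 * x.1 + A.2.2 * x.2)) (ENNReal.ofReal q) volume ≠ ⊤

end Pool.Agent.Dil
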