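import Mathlib
import Pool.Agent.Dil.Targets

/-!
# The fourth power estimate for the dilates on a block
-/

namespace Pool.Agent.Dil

open MeasureTheory Set Filter
open Pool.Agent.Restr (u E QQ measurable_u measurable_E)
open Pool.Agent.H27.Fib (ind)
open scoped ENNReal NNReal Topology

namespace L4A_

theorem measurable_E2 {f : ℝ × ℝ → ℂ} (hf : Measurable f) : Measurable (E2 f) := by
  have : StronglyMeasurable (fun w : (ℝ × ℝ) × (ℝ × ℝ) => ∫ x : ℝ × ℝ,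
      u ((w.1.1 * x.1 + w.1.2 * x.1 ^ 2) + (w.2.1 * x.2 + w.2.2 * x.2 ^ 2)) * f x) := by
    apply StronglyMeasurable.integral_prod_right
      (f := fun (w : (ℝ × ℝ) × (ℝ × ℝ)) (x : ℝ × ℝ) =>
        u ((w.1.1 * x.1 + w.1.2 * x.1 ^ 2) + (w.2.1 * x.2 + w.2.2 * x.2 ^ 2)) * f x)
    apply Measurable.stronglyMeasurable
    exact (measurable_u.comp (by fun_prop)).mul (hf.comp measurable_snd)
  exact this.measurable

theorem measurable_sqm {f : ℝ × ℝ → ℂ} (hf : Measurable f) : Measurable (sqm f) := by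
  unfold sqm
  exact (Complex.measurable_ofReal.comp (by fun_prop)).mul hf

theorem sqm_zero {f : ℝ × ℝ → ℂ} (hs : ∀ x, x ∉ QQ → f x = 0) : ∀ x, x ∉ QQ → sqm f x = 0 := by
  intro x hx
  unfold sqm
  rw [hs x hx, mul_zero]

theorem sqm_le {f : ℝ × ℝ → ℂ} (hs : ∀ x, x ∉ QQ → f x = 0) (x : ℝ × ℝ) :
    ‖sqm f x‖ₑ ≤ ‖f x‖ₑ := by
  by_cases hx : x ∈ QQ
  · unfold sqm
    rw [enorm_mul]
    have h1 : x.2 ∈ Icc (-(1 / 2) : ℝ) (1 / 2) := hx.2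
    have h2 : ‖((x.2 ^ 2 : ℝ) : ℂ)‖ₑ ≤ 1 := by
      rw [← ofReal_norm, Complex.norm_real, Real.norm_of_nonneg (sq_nonneg _),
        ← ENNReal.ofReal_one]
      apply ENNReal.ofReal_le_ofReal
      nlinarith [h1.1, h1.2]
    calc _ ≤ 1 * ‖f x‖ₑ := by gcongr
      _ = _ := one_mul _
  · rw [sqm_zero hs x hx]
    simp

/-- Push-forward of the Lebesgue measure of the plane under scaling of the second variable. -/
theorem map_scale {c : ℝ} (hc : c ≠ 0) :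
    Measure.map (fun x : ℝ × ℝ => (x.1, c * x.2)) (volume : Measure (ℝ × ℝ)) =
      ENNReal.ofReal |c⁻¹| • (volume : Measure (ℝ × ℝ)) := by
  have h := Measure.map_prod_map (volume : Measure ℝ) (volume : Measure ℝ)
    (f := fun x : ℝ => x) (g := fun x : ℝ => c * x) measurable_id (by fun_prop)
  have e : (fun x : ℝ × ℝ => (x.1, c * x.2)) = Prod.map (fun x : ℝ => x) (fun x : ℝ => c * x) := rfl
  rw [e, Measure.volume_eq_prod, ← h]
  have h2 : Measure.map (fun x : ℝ => x) (volume : Measure ℝ) = volume := Measure.map_id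
  rw [h2, Real.map_volume_mul_left hc, Measure.prod_smul_right]

theorem integral_scale {c : ℝ} (hc : 0 < c) {g : ℝ × ℝ → ℂ} (hg : Measurable g) :
    ∫ x : ℝ × ℝ, g (x.1, c * x.2) = ((c⁻¹ : ℝ) : ℂ) * ∫ x : ℝ × ℝ, g x := by
  have h1 : ∫ x : ℝ × ℝ, g (x.1, c * x.2) =
      ∫ y, g y ∂(Measure.map (fun x : ℝ × ℝ => (x.1, c * x.2)) (volume : Measure (ℝ × ℝ))) := by
    rw [integral_map (by fun_prop) hg.aestronglyMeasurable]
  rw [h1, map_scale hc.ne', integral_smul_measure, ENNReal.toReal_ofReal (abs_nonneg _),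
    abs_of_pos (by positivity)]
  rfl

theorem lintegral_scale {c : ℝ} (hc : 0 < c) {g : ℝ × ℝ → ℝ≥0∞} (hg : Measurable g) :
    ∫⁻ x : ℝ × ℝ, g (x.1, c * x.2) = ENNReal.ofReal c⁻¹ * ∫⁻ x : ℝ × ℝ, g x := by
  have h1 : ∫⁻ x : ℝ × ℝ, g (x.1, c * x.2) =
      ∫⁻ y, g y ∂(Measure.map (fun x : ℝ × ℝ => (x.1, c * x.2)) (volume : Measure (ℝ × ℝ))) := by
    rw [lintegral_map hg (by fun_prop)]
  rw [h1, map_scale hc.ne', lintegral_smul_measure, abs_of_pos (by positivity), smul_eq_mul]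

theorem E_dil {f : ℝ × ℝ → ℂ} (hf : Measurable f) {θ : ℝ} (hθ : 0 < θ) (a b t : ℝ) :
    E (dil θ f) (a, b, t) = ((θ⁻¹ : ℝ) : ℂ) * E2 f ((a, t), (b / θ, t / θ ^ 2)) := by
  unfold E E2
  have hm : Measurable (fun x : ℝ × ℝ =>
      u ((a * x.1 + t * x.1 ^ 2) + (b / θ * x.2 + t / θ ^ 2 * x.2 ^ 2)) * f x) :=
    (measurable_u.comp (by fun_prop)).mul hf
  rw [← integral_scale hθ hm]
  refine integral_congr_ae (Eventually.of_forall fun x => ?_)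
  simp only [dil]
  congr 2
  field_simp
  ring

theorem slice_le {f : ℝ × ℝ → ℂ} (hf : Measurable f) {θ : ℝ} (hθ : 1 ≤ θ) (t : ℝ) :
    sl 4 (dil θ f) t ≤ ∫⁻ w : ℝ × ℝ, ‖E2 f ((w.1, t), (w.2, t / θ ^ 2))‖ₑ ^ 4 := by
  have hθ0 : 0 < θ := by linarith
  unfold sl
  have e : ∀ w : ℝ × ℝ, ‖E (dil θ f) (w.1, w.2, t)‖ₑ ^ (4 : ℝ) =
      ENNReal.ofReal (θ⁻¹) ^ 4 * ‖E2 f ((w.1, t), (θ⁻¹ * w.2, t / θ ^ 2))‖ₑ ^ 4 := by
    intro w
    rw [E_dil hf hθ0, enorm_mul, show (4 : ℝ) = ((4 : ℕ) : ℝ) by norm_num, ENNReal.rpow_natCast,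
      mul_pow]
    congr 2
    · rw [← ofReal_norm, Complex.norm_real, Real.norm_of_nonneg (by positivity)]
    · rw [div_eq_inv_mul]
  simp only [e]
  have hm : Measurable (fun w : ℝ × ℝ => ‖E2 f ((w.1, t), (w.2, t / θ ^ 2))‖ₑ ^ 4) :=
    ((measurable_E2 hf).comp (by fun_prop)).enorm.pow_const 4
  have hm' : Measurable (fun w : ℝ × ℝ => ‖E2 f ((w.1, t), (θ⁻¹ * w.2, t / θ ^ 2))‖ₑ ^ 4) :=
    ((measurable_E2 hf).comp (by fun_prop)).enorm.pow_const 4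
  rw [lintegral_const_mul _ hm', lintegral_scale (c := θ⁻¹) (by positivity) hm, inv_inv,
    ← mul_assoc]
  have h1 : ENNReal.ofReal θ⁻¹ ^ 4 * ENNReal.ofReal θ ≤ 1 := by
    rw [← ENNReal.ofReal_pow (by positivity), ← ENNReal.ofReal_mul (by positivity),
      ← ENNReal.ofReal_one]
    apply ENNReal.ofReal_le_ofReal
    have h2 : θ⁻¹ ≤ 1 := inv_le_one_of_one_le₀ hθ
    have h3 : 0 < θ⁻¹ := by positivity
    calc θ⁻¹ ^ 4 * θ = θ⁻¹ ^ 3 := by field_simp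
      _ ≤ 1 := pow_le_one₀ h3.le h2
  calc _ ≤ 1 * ∫⁻ w : ℝ × ℝ, ‖E2 f ((w.1, t), (w.2, t / θ ^ 2))‖ₑ ^ 4 := by gcongr
    _ = _ := one_mul _

/-- The sum of the two fourth powers on a slice. -/
noncomputable def H (f : ℝ × ℝ → ℂ) (t s : ℝ) : ℝ≥0∞ :=
  ∫⁻ w : ℝ × ℝ, (‖E2 f ((w.1, t), (w.2, s))‖ₑ ^ 4 + ‖E2 (sqm f) ((w.1, t), (w.2, s))‖ₑ ^ 4)

theorem measurable_Hint {f : ℝ × ℝ → ℂ} (hf : Measurable f) :
    Measurable (fun z : (ℝ × ℝ) × (ℝ × ℝ) =>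
      ‖E2 f ((z.2.1, z.1.1), (z.2.2, z.1.2))‖ₑ ^ 4 +
        ‖E2 (sqm f) ((z.2.1, z.1.1), (z.2.2, z.1.2))‖ₑ ^ 4) :=
  (((measurable_E2 hf).comp (by fun_prop)).enorm.pow_const 4).add
    (((measurable_E2 (measurable_sqm hf)).comp (by fun_prop)).enorm.pow_const 4)

theorem measurable_H {f : ℝ × ℝ → ℂ} (hf : Measurable f) :
    Measurable (fun z : ℝ × ℝ => H f z.1 z.2) := by
  unfold H
  exact Measurable.lintegral_prod_right' (measurable_Hint hf)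

theorem measurable_H' {f : ℝ × ℝ → ℂ} (hf : Measurable f) {α : Type*} [MeasurableSpace α]
    {a b : α → ℝ} (ha : Measurable a) (hb : Measurable b) :
    Measurable (fun x => H f (a x) (b x)) := by
  have h := (measurable_H hf).comp (ha.prodMk hb)
  simpa only [Function.comp_def] using h

theorem measurable_E2' {f : ℝ × ℝ → ℂ} (hf : Measurable f) {α : Type*} [MeasurableSpace α]
    {a b c d : α → ℝ} (ha : Measurable a) (hb : Measurable b) (hc : Measurable c)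
    (hd : Measurable d) :
    Measurable (fun x => ‖E2 f ((a x, b x), (c x, d x))‖ₑ ^ 4) := by
  have h := ((measurable_E2 hf).comp ((ha.prodMk hb).prodMk (hc.prodMk hd))).enorm.pow_const 4
  simpa only [Function.comp_def] using h

theorem H_eq (f : ℝ × ℝ → ℂ) (t s : ℝ) : H f t s =
    ∫⁻ w : ℝ × ℝ, (‖E2 f ((w.1, t), (w.2, s))‖ₑ ^ 4 +
      ‖E2 (sqm f) ((w.1, t), (w.2, s))‖ₑ ^ 4) := rfl

theorem sob_slice (h2 : T_SOB) {f : ℝ × ℝ → ℂ} (hf : Measurable f) (hi : Integrable f)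
    (hs : ∀ x, x ∉ QQ → f x = 0) (t b : ℝ) :
    ∫⁻ w : ℝ × ℝ, ‖E2 f ((w.1, t), (w.2, b))‖ₑ ^ 4 ≤ 8 * ∫⁻ s in Icc b (b + 1), H f t s := by
  have hm : Measurable (fun z : (ℝ × ℝ) × ℝ =>
      (‖E2 f ((z.1.1, t), (z.1.2, z.2))‖ₑ ^ 4 + ‖E2 (sqm f) ((z.1.1, t), (z.1.2, z.2))‖ₑ ^ 4)) :=
    (((measurable_E2 hf).comp (by fun_prop)).enorm.pow_const 4).add
      (((measurable_E2 (measurable_sqm hf)).comp (by fun_prop)).enorm.pow_const 4)
  calc ∫⁻ w : ℝ × ℝ, ‖E2 f ((w.1, t), (w.2, b))‖ₑ ^ 4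
      ≤ ∫⁻ w : ℝ × ℝ, 8 * ∫⁻ s in Icc b (b + 1), (‖E2 f ((w.1, t), (w.2, s))‖ₑ ^ 4 +
        ‖E2 (sqm f) ((w.1, t), (w.2, s))‖ₑ ^ 4) :=
        lintegral_mono fun w => h2 f hf hi hs w.1 t w.2 b
    _ = 8 * ∫⁻ w : ℝ × ℝ, ∫⁻ s in Icc b (b + 1), (‖E2 f ((w.1, t), (w.2, s))‖ₑ ^ 4 +
        ‖E2 (sqm f) ((w.1, t), (w.2, s))‖ₑ ^ 4) := by
        rw [lintegral_const_mul]
        exact Measurable.lintegral_prod_right' hm
    _ = 8 * ∫⁻ s in Icc b (b + 1), H f t s := by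
        congr 1
        unfold H
        rw [lintegral_lintegral_swap]
        exact hm.aemeasurable

attribute [local irreducible] H E2

/-- The parameters for which a given `s` is reached. -/
theorem param_set {k : ℕ} {t : ℝ} (ht : t ∈ Jk k) (s : ℝ) {μ : Measure ℝ} {M : ℝ≥0∞}
    (hM : ∀ x : ℝ, μ (Icc x (x + 4 / (2 : ℝ) ^ k)) ≤ M) :
    μ {θ : ℝ | θ ∈ Icc (1 : ℝ) 2 ∧ s ∈ Icc (t / θ ^ 2) (t / θ ^ 2 + 1)} ≤ M := by
  set S := {θ : ℝ | θ ∈ Icc (1 : ℝ) 2 ∧ s ∈ Icc (t / θ ^ 2) (t / θ ^ 2 + 1)} with hS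
  rcases S.eq_empty_or_nonempty with h | h
  · rw [h, measure_empty]
    exact bot_le
  have hbdd : BddBelow S := ⟨1, fun θ hθ => hθ.1.1⟩
  refine le_trans (measure_mono ?_) (hM (sInf S))
  have hk : (0 : ℝ) < 2 ^ k := by positivity
  have key : ∀ θ ∈ S, ∀ θ' ∈ S, θ' ≤ θ → θ ≤ θ' + 4 / 2 ^ k := by
    intro θ hθ θ' hθ' hle
    obtain ⟨⟨h1, h2⟩, h3, h4⟩ := hθ
    obtain ⟨⟨h1', h2'⟩, h3', h4'⟩ := hθ'
    have hθ0 : 0 < θ := by linarith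
    have hθ0' : 0 < θ' := by linarith
    have h5 : |t / θ' ^ 2 - t / θ ^ 2| ≤ 1 := by
      rw [abs_le]
      constructor <;> linarith
    have h6 : t / θ' ^ 2 - t / θ ^ 2 = t * ((θ - θ') * ((θ + θ') / (θ ^ 2 * θ' ^ 2))) := by
      field_simp
      ring
    have h7 : (1 : ℝ) / 4 ≤ (θ + θ') / (θ ^ 2 * θ' ^ 2) := by
      rw [div_le_div_iff₀ (by norm_num) (by positivity)]
      have h8 : θ ^ 2 * θ' ^ 2 = (θ * θ') ^ 2 := by ring
      have h9 : θ * θ' ≤ 2 * θ' := by nlinarith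
      have h10 : θ * θ' ≤ 2 * θ := by nlinarith
      have h11 : 0 < θ * θ' := by positivity
      have h12 : θ * θ' ≤ 4 := by nlinarith
      rw [h8]
      nlinarith
    rw [h6, abs_mul, abs_mul, abs_of_nonneg (by linarith : 0 ≤ θ - θ'),
      abs_of_pos (by positivity : 0 < (θ + θ') / (θ ^ 2 * θ' ^ 2))] at h5
    have h8 : (2 : ℝ) ^ k ≤ |t| := ht.1
    have h9 : (2 : ℝ) ^ k * ((θ - θ') * (1 / 4)) ≤ 1 := by
      refine le_trans ?_ h5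
      have : 0 ≤ θ - θ' := by linarith
      gcongr
    have h10 : θ - θ' ≤ 4 / 2 ^ k := by
      rw [le_div_iff₀ hk]
      linarith
    linarith
  intro θ hθ
  refine ⟨csInf_le hbdd hθ, ?_⟩
  have h1 : θ - 4 / 2 ^ k ≤ sInf S := by
    refine le_csInf h fun θ' hθ' => ?_
    rcases le_total θ' θ with h2 | h2
    · linarith [key θ hθ θ' hθ' h2]
    · have : 0 < 4 / (2 : ℝ) ^ k := by positivity
      linarith
  linarith

/-- The parameters `((t, θ), s)` that interact. -/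
def PS : Set ((ℝ × ℝ) × ℝ) := {z | z.1.2 ∈ Icc (1 : ℝ) 2 ∧
  z.2 ∈ Icc (z.1.1 / z.1.2 ^ 2) (z.1.1 / z.1.2 ^ 2 + 1)}

theorem measurableSet_PS : MeasurableSet PS := by
  have e1 : MeasurableSet {z : (ℝ × ℝ) × ℝ | z.1.2 ∈ Icc (1 : ℝ) 2} :=
    measurableSet_Icc.preimage (by fun_prop)
  have e2 : MeasurableSet {z : (ℝ × ℝ) × ℝ | z.1.1 / z.1.2 ^ 2 ≤ z.2} :=
    measurableSet_le (by fun_prop) (by fun_prop)
  have e3 : MeasurableSet {z : (ℝ × ℝ) × ℝ | z.2 ≤ z.1.1 / z.1.2 ^ 2 + 1} :=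
    measurableSet_le (by fun_prop) (by fun_prop)
  exact e1.inter (e2.inter e3)

/-- `H` on the interacting parameters. -/
noncomputable def P (f : ℝ × ℝ → ℂ) : (ℝ × ℝ) × ℝ → ℝ≥0∞ :=
  PS.indicator (fun z => H f z.1.1 z.2)

theorem measurable_P {f : ℝ × ℝ → ℂ} (hf : Measurable f) : Measurable (P f) := by
  refine Measurable.indicator ?_ measurableSet_PS
  exact measurable_H' hf (measurable_fst.comp measurable_fst) measurable_snd

theorem P_left {f : ℝ × ℝ → ℂ} {t θ : ℝ} (hθ : θ ∈ Icc (1 : ℝ) 2) :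
    ∫⁻ s in Icc (t / θ ^ 2) (t / θ ^ 2 + 1), H f t s = ∫⁻ s, P f ((t, θ), s) := by
  rw [← lintegral_indicator measurableSet_Icc]
  refine lintegral_congr fun s => ?_
  unfold P
  by_cases hsm : s ∈ Icc (t / θ ^ 2) (t / θ ^ 2 + 1)
  · rw [indicator_of_mem hsm, indicator_of_mem (show ((t, θ), s) ∈ PS from ⟨hθ, hsm⟩)]
  · rw [indicator_of_notMem hsm, indicator_of_notMem (fun h : ((t, θ), s) ∈ PS => hsm h.2)]

/-- The parameters `θ` interacting with `(t, s)`. -/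
def TS (t s : ℝ) : Set ℝ := {θ : ℝ | θ ∈ Icc (1 : ℝ) 2 ∧ s ∈ Icc (t / θ ^ 2) (t / θ ^ 2 + 1)}

theorem measurableSet_TS (t s : ℝ) : MeasurableSet (TS t s) :=
  measurableSet_PS.preimage (by fun_prop : Measurable fun θ : ℝ => ((t, θ), s))

theorem P_right {f : ℝ × ℝ → ℂ} (t s : ℝ) (μ : Measure ℝ) :
    ∫⁻ θ, P f ((t, θ), s) ∂μ = H f t s * μ (TS t s) := by
  have e1 : ∀ θ, P f ((t, θ), s) = (TS t s).indicator (fun _ => H f t s) θ := by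
    intro θ
    unfold P
    by_cases hθ : θ ∈ TS t s
    · rw [indicator_of_mem hθ, indicator_of_mem (show ((t, θ), s) ∈ PS from hθ)]
    · rw [indicator_of_notMem hθ, indicator_of_notMem (show ((t, θ), s) ∉ PS from hθ)]
  simp only [e1]
  rw [lintegral_indicator (measurableSet_TS t s), setLIntegral_const]

theorem TS_empty {k : ℕ} {t s : ℝ} (ht : t ∈ Jk k) (hs : ¬ |s| ≤ 3 * 2 ^ k) : TS t s = ∅ := by
  ext θ
  simp only [mem_empty_iff_false, iff_false]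
  rintro ⟨⟨h3, h4⟩, h5, h6⟩
  apply hs
  have hk1 : (1 : ℝ) ≤ 2 ^ k := one_le_pow₀ (by norm_num)
  have h7 : |t / θ ^ 2| ≤ |t| := by
    rw [abs_div, abs_of_pos (by positivity : 0 < θ ^ 2)]
    exact div_le_self (abs_nonneg _) (by nlinarith)
  have h8 : |t| < 2 * 2 ^ k := ht.2
  rw [abs_le] at h7 ⊢
  constructor <;> linarith [h7.1, h7.2]

theorem step2 {f : ℝ × ℝ → ℂ} (hf : Measurable f) {k : ℕ} {μ : Measure ℝ} [SFinite μ] {M : ℝ≥0∞}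
    (hM : ∀ x : ℝ, μ (Icc x (x + 4 / (2 : ℝ) ^ k)) ≤ M) {t : ℝ} (ht : t ∈ Jk k) :
    ∫⁻ θ, (∫⁻ s, P f ((t, θ), s)) ∂μ ≤ M * ∫⁻ s in {s : ℝ | |s| ≤ 3 * 2 ^ k}, H f t s := by
  have hPt : Measurable (fun z : ℝ × ℝ => P f ((t, z.1), z.2)) :=
    (measurable_P hf).comp (by fun_prop)
  rw [lintegral_lintegral_swap hPt.aemeasurable]
  have hHt : Measurable fun s => H f t s := measurable_H' hf measurable_const measurable_id
  have hRs : MeasurableSet {s : ℝ | |s| ≤ 3 * 2 ^ k} :=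
    measurableSet_le continuous_abs.measurable measurable_const
  rw [← lintegral_const_mul _ hHt, ← lintegral_indicator hRs]
  refine lintegral_mono fun s => ?_
  simp only
  rw [P_right]
  by_cases hsR : |s| ≤ 3 * 2 ^ k
  · rw [indicator_of_mem (show s ∈ {s : ℝ | |s| ≤ 3 * 2 ^ k} from hsR), mul_comm]
    gcongr
    exact param_set ht s hM
  · rw [TS_empty ht hsR, measure_empty, mul_zero]
    exact bot_le

theorem measurableSet_J (k : ℕ) : MeasurableSet (Jk k) := by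
  have e1 : MeasurableSet {t : ℝ | (2 : ℝ) ^ k ≤ |t|} :=
    measurableSet_le measurable_const continuous_abs.measurable
  have e2 : MeasurableSet {t : ℝ | |t| < 2 * (2 : ℝ) ^ k} :=
    measurableSet_lt continuous_abs.measurable measurable_const
  exact e1.inter e2

theorem step1 (h2 : T_SOB) {f : ℝ × ℝ → ℂ} (hf : Measurable f) (hi : Integrable f)
    (hs : ∀ x, x ∉ QQ → f x = 0) {k : ℕ} {μ : Measure ℝ} [SFinite μ] (hμ : μ (Icc 1 2)ᶜ = 0) :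
    blk 4 μ (Jk k) f ≤ 8 * ∫⁻ t in Jk k, (∫⁻ θ, (∫⁻ s, P f ((t, θ), s)) ∂μ) := by
  have hae : ∀ᵐ θ ∂μ, θ ∈ Icc (1 : ℝ) 2 := by
    rw [ae_iff]
    exact hμ
  have hPm2 : Measurable (fun z : ℝ × ℝ => ∫⁻ s, P f ((z.2, z.1), s)) :=
    Measurable.lintegral_prod_right' (f := fun z : (ℝ × ℝ) × ℝ => P f ((z.1.2, z.1.1), z.2))
      ((measurable_P hf).comp (by fun_prop))
  have hPm3 : Measurable (fun θ : ℝ => ∫⁻ t in Jk k, ∫⁻ s, P f ((t, θ), s)) :=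
    Measurable.lintegral_prod_right' (f := fun z : ℝ × ℝ => ∫⁻ s, P f ((z.2, z.1), s)) hPm2
  calc blk 4 μ (Jk k) f ≤ ∫⁻ θ, 8 * (∫⁻ t in Jk k, ∫⁻ s, P f ((t, θ), s)) ∂μ := by
        unfold blk
        refine lintegral_mono_ae ?_
        filter_upwards [hae] with θ hθ
        have hm : Measurable (fun t : ℝ => ∫⁻ s, P f ((t, θ), s)) :=
          hPm2.comp (by fun_prop : Measurable fun t : ℝ => (θ, t))
        rw [← lintegral_const_mul _ hm]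
        refine lintegral_mono fun t => ?_
        refine (slice_le hf hθ.1 t).trans ((sob_slice h2 hf hi hs t _).trans (le_of_eq ?_))
        rw [P_left hθ]
    _ = 8 * ∫⁻ θ, (∫⁻ t in Jk k, ∫⁻ s, P f ((t, θ), s)) ∂μ := lintegral_const_mul _ hPm3
    _ = _ := by
        rw [lintegral_lintegral_swap hPm2.aemeasurable]

theorem reorder {g : ℝ × ℝ → ℂ} (hg : Measurable g) (R : ℝ) :
    ∫⁻ t in {t : ℝ | |t| ≤ R}, ∫⁻ s in {s : ℝ | |s| ≤ R}, ∫⁻ w : ℝ × ℝ,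
      ‖E2 g ((w.1, t), (w.2, s))‖ₑ ^ 4 =
    ∫⁻ w : (ℝ × ℝ) × (ℝ × ℝ) in {w | |w.1.2| ≤ R ∧ |w.2.2| ≤ R}, ‖E2 g w‖ₑ ^ 4 := by
  have hR : MeasurableSet {s : ℝ | |s| ≤ R} :=
    measurableSet_le continuous_abs.measurable measurable_const
  have hm4 : Measurable (fun w => ‖E2 g w‖ₑ ^ 4) := (measurable_E2 hg).enorm.pow_const 4
  have e0 : {w : (ℝ × ℝ) × (ℝ × ℝ) | |w.1.2| ≤ R ∧ |w.2.2| ≤ R} =
      (univ ×ˢ {s : ℝ | |s| ≤ R}) ×ˢ (univ ×ˢ {s : ℝ | |s| ≤ R}) := by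
    ext w
    simp
  rw [e0, Measure.volume_eq_prod (α := ℝ × ℝ) (β := ℝ × ℝ), ← Measure.prod_restrict,
    lintegral_prod _ hm4.aemeasurable, Measure.volume_eq_prod (α := ℝ) (β := ℝ),
    ← Measure.prod_restrict, Measure.restrict_univ]
  have hmi : Measurable (fun x : ℝ × ℝ => ∫⁻ y : ℝ × ℝ, ‖E2 g (x, y)‖ₑ ^ 4
      ∂((volume : Measure ℝ).prod (volume.restrict {s : ℝ | |s| ≤ R}))) :=
    Measurable.lintegral_prod_right' hm4
  rw [lintegral_prod_symm _ hmi.aemeasurable]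
  refine lintegral_congr fun t => ?_
  have hm3 : ∀ x : ℝ, Measurable fun y : ℝ × ℝ => ‖E2 g ((x, t), y)‖ₑ ^ 4 := fun x =>
    hm4.comp (by fun_prop : Measurable fun y : ℝ × ℝ => ((x, t), y))
  have e1 : ∀ x : ℝ, ∫⁻ y : ℝ × ℝ, ‖E2 g ((x, t), y)‖ₑ ^ 4
      ∂((volume : Measure ℝ).prod (volume.restrict {s : ℝ | |s| ≤ R})) =
      ∫⁻ s in {s : ℝ | |s| ≤ R}, ∫⁻ y : ℝ, ‖E2 g ((x, t), (y, s))‖ₑ ^ 4 := fun x =>
    lintegral_prod_symm _ (hm3 x).aemeasurable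
  simp only [e1]
  have hmx : Measurable (fun z : ℝ × ℝ => ∫⁻ y : ℝ, ‖E2 g ((z.1, t), (y, z.2))‖ₑ ^ 4) :=
    Measurable.lintegral_prod_right'
      (f := fun z : (ℝ × ℝ) × ℝ => ‖E2 g ((z.1.1, t), (z.2, z.1.2))‖ₑ ^ 4)
      (measurable_E2' hg (by fun_prop) (by fun_prop) (by fun_prop) (by fun_prop))
  have hsw := lintegral_lintegral_swap (μ := (volume : Measure ℝ))
    (ν := volume.restrict {s : ℝ | |s| ≤ R}) (f := fun x s => ∫⁻ y : ℝ,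
      ‖E2 g ((x, t), (y, s))‖ₑ ^ 4) hmx.aemeasurable
  rw [hsw]
  refine lintegral_congr fun s => ?_
  have hw : Measurable fun w : ℝ × ℝ => ‖E2 g ((w.1, t), (w.2, s))‖ₑ ^ 4 :=
    measurable_E2' hg (by fun_prop) (by fun_prop) (by fun_prop) (by fun_prop)
  rw [lintegral_prod _ hw.aemeasurable]

theorem step3 {f : ℝ × ℝ → ℂ} (hf : Measurable f) (R : ℝ) :
    ∫⁻ t in {t : ℝ | |t| ≤ R}, ∫⁻ s in {s : ℝ | |s| ≤ R}, H f t s =
      (∫⁻ w : (ℝ × ℝ) × (ℝ × ℝ) in {w | |w.1.2| ≤ R ∧ |w.2.2| ≤ R}, ‖E2 f w‖ₑ ^ 4) +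
      ∫⁻ w : (ℝ × ℝ) × (ℝ × ℝ) in {w | |w.1.2| ≤ R ∧ |w.2.2| ≤ R}, ‖E2 (sqm f) w‖ₑ ^ 4 := by
  have hR : MeasurableSet {s : ℝ | |s| ≤ R} :=
    measurableSet_le continuous_abs.measurable measurable_const
  rw [← reorder hf, ← reorder (measurable_sqm hf)]
  have hm2 : Measurable (fun z : ℝ × ℝ => ∫⁻ w : ℝ × ℝ,
      ‖E2 f ((w.1, z.1), (w.2, z.2))‖ₑ ^ 4) :=
    Measurable.lintegral_prod_right'
      (f := fun z : (ℝ × ℝ) × (ℝ × ℝ) => ‖E2 f ((z.2.1, z.1.1), (z.2.2, z.1.2))‖ₑ ^ 4)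
      (measurable_E2' hf (by fun_prop) (by fun_prop) (by fun_prop) (by fun_prop))
  have hm1 : Measurable (fun t : ℝ => ∫⁻ s in {s : ℝ | |s| ≤ R}, ∫⁻ w : ℝ × ℝ,
      ‖E2 f ((w.1, t), (w.2, s))‖ₑ ^ 4) := Measurable.lintegral_prod_right' hm2
  rw [← lintegral_add_left hm1]
  refine lintegral_congr fun t => ?_
  have hm0 : Measurable (fun s : ℝ => ∫⁻ w : ℝ × ℝ, ‖E2 f ((w.1, t), (w.2, s))‖ₑ ^ 4) :=
    Measurable.lintegral_prod_right'
      (f := fun z : ℝ × (ℝ × ℝ) => ‖E2 f ((z.2.1, t), (z.2.2, z.1))‖ₑ ^ 4)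
      (measurable_E2' hf (by fun_prop) (by fun_prop) (by fun_prop) (by fun_prop))
  rw [← lintegral_add_left hm0]
  refine lintegral_congr fun s => ?_
  rw [H_eq, lintegral_add_left]
  exact measurable_E2' hf (by fun_prop) (by fun_prop) (by fun_prop) (by fun_prop)

end L4A_

open L4A_

theorem p_L4A (h1 : T_L4) (h2 : T_SOB) : T_L4A := by
  intro η hη
  obtain ⟨C0, hC0⟩ := h1 η hη
  refine ⟨16 * C0 * ((3 : ℝ) ^ η).toNNReal, fun f hf hi hs k μ _ hμ M hM => ?_⟩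
  have hmH := measurable_H hf
  have hk : (0 : ℝ) < 2 ^ k := by positivity
  have hk1 : (1 : ℝ) ≤ 2 ^ k := one_le_pow₀ (by norm_num)
  have hR1 : (1 : ℝ) ≤ 3 * 2 ^ k := by linarith
  have hHm2 : Measurable fun t => ∫⁻ s in {s : ℝ | |s| ≤ 3 * 2 ^ k}, H f t s :=
    Measurable.lintegral_prod_right' hmH
  calc blk 4 μ (Jk k) f
      ≤ 8 * ∫⁻ t in Jk k, (∫⁻ θ, (∫⁻ s, P f ((t, θ), s)) ∂μ) := step1 h2 hf hi hs hμ
    _ ≤ 8 * ∫⁻ t in Jk k, (M * ∫⁻ s in {s : ℝ | |s| ≤ 3 * 2 ^ k}, H f t s) := by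
        gcongr 8 * ?_
        exact setLIntegral_mono' (measurableSet_J k) fun t ht => step2 hf hM ht
    _ ≤ 8 * ∫⁻ t in {t : ℝ | |t| ≤ 3 * 2 ^ k}, (M * ∫⁻ s in {s : ℝ | |s| ≤ 3 * 2 ^ k}, H f t s) := by
        gcongr 8 * ?_
        refine lintegral_mono_set fun t ht => ?_
        change |t| ≤ 3 * 2 ^ k
        have : |t| < 2 * 2 ^ k := ht.2
        linarith
    _ = 8 * (M * ∫⁻ t in {t : ℝ | |t| ≤ 3 * 2 ^ k},
          ∫⁻ s in {s : ℝ | |s| ≤ 3 * 2 ^ k}, H f t s) := by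
        rw [lintegral_const_mul _ hHm2]
    _ ≤ 8 * (M * (2 * (C0 * ENNReal.ofReal ((3 * 2 ^ k) ^ η) * ∫⁻ x, ‖f x‖ₑ ^ 4))) := by
        gcongr 8 * (M * ?_)
        have h3 := hC0 f hf hs _ hR1
        have h4 := hC0 (sqm f) (measurable_sqm hf) (sqm_zero hs) _ hR1
        have h5 : ∫⁻ x, ‖sqm f x‖ₑ ^ 4 ≤ ∫⁻ x, ‖f x‖ₑ ^ 4 :=
          lintegral_mono fun x => by
            have := sqm_le hs x
            gcongr
        rw [step3 hf, two_mul]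
        refine add_le_add h3 (h4.trans ?_)
        gcongr
    _ = _ := by
        have e1 : ENNReal.ofReal ((3 * 2 ^ k : ℝ) ^ η) = (((3 : ℝ) ^ η).toNNReal : ℝ≥0∞) *
            ENNReal.ofReal ((2 ^ k) ^ η) := by
          rw [Real.mul_rpow (by norm_num) hk.le, ENNReal.ofReal_mul (by positivity)]
          rfl
        rw [e1]
        push_cast
        ring

end Pool.Agent.Dil
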