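import Pool.Agent.Dil.Targets

/-!
# Covering lemma for the Hausdorff dimension of an upper limit of sets
-/

namespace Pool.Agent.Dil

open MeasureTheory Set Filter
open scoped ENNReal NNReal Topology

namespace ABS_

/-- A maximal separated subset is a net. -/
lemma exists_net (S : Set ℝ) (δ : ℝ) (hδ : 0 ≤ δ) (N : ℝ)
    (h : ∀ F : Finset ℝ, (F : Set ℝ) ⊆ S → (∀ x ∈ F, ∀ y ∈ F, x ≠ y → δ < |x - y|) →
      (F.card : ℝ) ≤ N) :
    ∃ F : Finset ℝ, (F.card : ℝ) ≤ N ∧ ∀ y ∈ S, ∃ x ∈ F, |x - y| ≤ δ := by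
  classical
  set P : ℕ → Prop := fun n => ∃ F : Finset ℝ, (F : Set ℝ) ⊆ S ∧
    (∀ x ∈ F, ∀ y ∈ F, x ≠ y → δ < |x - y|) ∧ F.card = n with hP
  have hP0 : P 0 := ⟨∅, by simp, by simp, rfl⟩
  have hbd : ∀ n, P n → n ≤ ⌊N⌋₊ := by
    rintro n ⟨F, h1, h2, h3⟩
    have := h F h1 h2
    rw [h3] at this
    exact Nat.le_floor this
  have hmax : P (Nat.findGreatest P ⌊N⌋₊) := Nat.findGreatest_spec (Nat.zero_le _) hP0
  obtain ⟨F, h1, h2, h3⟩ := hmax
  refine ⟨F, h F h1 h2, ?_⟩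
  intro y hy
  by_contra hcon
  push Not at hcon
  have hyF : y ∉ F := by
    intro hyF
    have := hcon y hyF
    rw [sub_self, abs_zero] at this
    exact absurd this (not_lt.2 hδ)
  have hP' : P (F.card + 1) := by
    refine ⟨insert y F, ?_, ?_, ?_⟩
    · intro z hz
      rcases Finset.mem_insert.1 (Finset.mem_coe.1 hz) with rfl | hz
      · exact hy
      · exact h1 hz
    · intro x hx z hz hxz
      rcases Finset.mem_insert.1 hx with hx' | hx' <;>
        rcases Finset.mem_insert.1 hz with hz' | hz'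
      · exact absurd (hx'.trans hz'.symm) hxz
      · rw [hx', abs_sub_comm]; exact hcon z hz'
      · rw [hz']; exact hcon x hx'
      · exact h2 x hx' z hz' hxz
    · exact Finset.card_insert_of_notMem hyF
  have h4 := Nat.le_findGreatest (hbd _ hP') hP'
  omega

/-- The Hausdorff measure of the upper limit is finite for every exponent above `c`. -/
lemma measure_ne_top (B : ℕ → Set ℝ) (c C : ℝ)
    (hF : ∀ k : ℕ, ∃ F : Finset ℝ, (F.card : ℝ) ≤ C * ((2 : ℝ) ^ k) ^ c ∧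
      ∀ y ∈ B k, ∃ x ∈ F, |x - y| ≤ 4 / (2 : ℝ) ^ k) (hC : 0 ≤ C) (d : ℝ) (hd0 : 0 ≤ d)
    (hd : c < d) :
    μH[d] {x : ℝ | ∃ᶠ k in atTop, x ∈ B k} ≠ ⊤ := by
  choose F hF1 hF2 using hF
  set ρ : ℝ := (2 : ℝ) ^ (c - d) with hρ
  have hρ0 : 0 < ρ := Real.rpow_pos_of_pos (by norm_num) _
  have hρ1 : ρ < 1 := Real.rpow_lt_one_of_one_lt_of_neg (by norm_num) (by linarith)
  -- the covering
  set t : ∀ K : ℕ, (Σ j : ℕ, {x // x ∈ F (K + j)}) → Set ℝ := fun K z =>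
    Icc (z.2.1 - 4 / (2 : ℝ) ^ (K + z.1)) (z.2.1 + 4 / (2 : ℝ) ^ (K + z.1)) with ht
  have hdiam : ∀ K z, Metric.ediam (t K z) = ENNReal.ofReal (8 / (2 : ℝ) ^ (K + z.1)) := by
    intro K z
    rw [ht]
    simp only
    rw [Real.ediam_Icc]
    congr 1
    ring
  have hr : Tendsto (fun K : ℕ => ENNReal.ofReal (8 / (2 : ℝ) ^ K)) atTop (𝓝 0) := by
    have h1 : Tendsto (fun K : ℕ => 8 / (2 : ℝ) ^ K) atTop (𝓝 0) := by
      have h2 : Tendsto (fun K : ℕ => 8 * ((1 / 2 : ℝ)) ^ K) atTop (𝓝 (8 * 0)) :=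
        (tendsto_pow_atTop_nhds_zero_of_lt_one (by norm_num) (by norm_num)).const_mul 8
      rw [mul_zero] at h2
      refine h2.congr fun K => ?_
      rw [one_div, inv_pow]
      rfl
    have h3 := ENNReal.tendsto_ofReal h1
    rwa [ENNReal.ofReal_zero] at h3
  have hcov : ∀ᶠ K : ℕ in atTop, {x : ℝ | ∃ᶠ k in atTop, x ∈ B k} ⊆ ⋃ i, t K i := by
    refine Eventually.of_forall fun K x hx => ?_
    obtain ⟨k, hk, hxk⟩ := (frequently_atTop.1 hx) K
    obtain ⟨j, rfl⟩ := Nat.exists_eq_add_of_le hk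
    obtain ⟨z, hz, hzx⟩ := hF2 (K + j) x hxk
    refine mem_iUnion.2 ⟨⟨j, ⟨z, hz⟩⟩, ?_⟩
    rw [ht]
    simp only [mem_Icc]
    rw [abs_le] at hzx
    constructor <;> linarith [hzx.1, hzx.2]
  have hle := Measure.hausdorffMeasure_le_liminf_tsum d {x : ℝ | ∃ᶠ k in atTop, x ∈ B k}
    (l := atTop) (fun K : ℕ => ENNReal.ofReal (8 / (2 : ℝ) ^ K)) hr t
    (Eventually.of_forall fun K z => by
      rw [hdiam]
      apply ENNReal.ofReal_le_ofReal
      apply div_le_div_of_nonneg_left (by norm_num) (by positivity)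
      exact pow_le_pow_right₀ (by norm_num) (Nat.le_add_right _ _)) hcov
  -- the bound for the sums
  set T : ℝ := C * 8 ^ d * (1 - ρ)⁻¹ with hT
  have hsum : ∀ K : ℕ, ∑' z, Metric.ediam (t K z) ^ d ≤ ENNReal.ofReal T := by
    intro K
    rw [ENNReal.tsum_sigma']
    have h1 : ∀ j : ℕ, ∑' x : {x // x ∈ F (K + j)}, Metric.ediam (t K ⟨j, x⟩) ^ d ≤
        ENNReal.ofReal (C * 8 ^ d * ρ ^ j) := by
      intro j
      simp only [hdiam]
      rw [ENNReal.tsum_const, ENNReal.ofReal_rpow_of_nonneg (by positivity) hd0]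
      have h2 : (ENat.card {x // x ∈ F (K + j)} : ℝ≥0∞) = ENNReal.ofReal ((F (K + j)).card) := by
        rw [ENat.card_eq_coe_fintype_card, Fintype.card_coe]
        simp
      rw [h2, ← ENNReal.ofReal_mul (by positivity)]
      apply ENNReal.ofReal_le_ofReal
      have h3 : (8 / (2 : ℝ) ^ (K + j)) ^ d = 8 ^ d * (2 : ℝ) ^ (-(((K + j : ℕ) : ℝ) * d)) := by
        rw [Real.div_rpow (by norm_num) (by positivity), Real.rpow_neg (by norm_num),
          Real.rpow_mul (by norm_num), Real.rpow_natCast]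
        rfl
      have h4 : ((2 : ℝ) ^ (K + j)) ^ c = (2 : ℝ) ^ (((K + j : ℕ) : ℝ) * c) := by
        rw [Real.rpow_mul (by norm_num), Real.rpow_natCast]
      have h5 : (2 : ℝ) ^ (((K + j : ℕ) : ℝ) * c) * (2 : ℝ) ^ (-(((K + j : ℕ) : ℝ) * d)) =
          ρ ^ (K + j) := by
        rw [← Real.rpow_add (by norm_num), hρ, ← Real.rpow_natCast, ← Real.rpow_mul (by norm_num)]
        congr 1
        ring
      calc ((F (K + j)).card : ℝ) * (8 / (2 : ℝ) ^ (K + j)) ^ d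
          ≤ (C * ((2 : ℝ) ^ (K + j)) ^ c) * (8 / (2 : ℝ) ^ (K + j)) ^ d :=
            mul_le_mul_of_nonneg_right (hF1 _) (by positivity)
        _ = C * 8 ^ d * ρ ^ (K + j) := by rw [h3, h4, ← h5]; ring
        _ ≤ C * 8 ^ d * ρ ^ j := by
            apply mul_le_mul_of_nonneg_left _ (by positivity)
            exact pow_le_pow_of_le_one hρ0.le hρ1.le (Nat.le_add_left _ _)
    refine (ENNReal.tsum_le_tsum h1).trans ?_
    have h6 : Summable fun j : ℕ => C * 8 ^ d * ρ ^ j :=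
      (summable_geometric_of_lt_one hρ0.le hρ1).mul_left _
    rw [← ENNReal.ofReal_tsum_of_nonneg (fun j => by positivity) h6, tsum_mul_left,
      tsum_geometric_of_lt_one hρ0.le hρ1]
  have hfin : μH[d] {x : ℝ | ∃ᶠ k in atTop, x ∈ B k} ≤ ENNReal.ofReal T := by
    refine hle.trans ?_
    refine (liminf_le_liminf (Eventually.of_forall hsum)).trans ?_
    rw [liminf_const]
  exact ne_top_of_le_ne_top ENNReal.ofReal_ne_top hfin

end ABS_

open ABS_ in
theorem p_ABS : T_ABS := by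
  intro B c C hc hB h
  have hC : 0 ≤ C := by
    have h1 := h 0 ∅ (by simp) (by simp)
    simpa using h1
  have hF : ∀ k : ℕ, ∃ F : Finset ℝ, (F.card : ℝ) ≤ C * ((2 : ℝ) ^ k) ^ c ∧
      ∀ y ∈ B k, ∃ x ∈ F, |x - y| ≤ 4 / (2 : ℝ) ^ k :=
    fun k => exists_net (B k) _ (by positivity) _ (h k)
  refine ENNReal.le_of_forall_pos_le_add fun ε hε _ => ?_
  have h1 : μH[((c.toNNReal + ε : ℝ≥0) : ℝ)] {x : ℝ | ∃ᶠ k in atTop, x ∈ B k} ≠ ⊤ := by
    refine measure_ne_top B c C hF hC _ (by positivity) ?_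
    rw [NNReal.coe_add, Real.coe_toNNReal _ hc]
    have : (0 : ℝ) < ε := hε
    linarith
  have h2 := dimH_le_of_hausdorffMeasure_ne_top h1
  refine h2.trans ?_
  rw [ENNReal.coe_add]
  rfl

end Pool.Agent.Dil
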