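import Mathlib
import Pool.Agent.Dil.Targets

/-!
# Dimension of the exceptional set of dilations, all positive parameters
-/

namespace Pool.Agent.Dil

open MeasureTheory Set Filter
open Pool.Agent.Restr (u E QQ)
open scoped ENNReal NNReal Topology

namespace DIM_

/-- The diagonal map with entries `a` and `b`. -/
def dg (a b : ℝ) (x : ℝ × ℝ) : ℝ × ℝ := (a * x.1, b * x.2)

theorem measurable_dg (a b : ℝ) : Measurable (dg a b) :=
  (measurable_fst.const_mul a).prodMk (measurable_snd.const_mul b)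

theorem map_dg {a b : ℝ} (ha : 0 < a) (hb : 0 < b) :
    Measure.map (dg a b) (volume : Measure (ℝ × ℝ)) =
      (ENNReal.ofReal |a⁻¹| * ENNReal.ofReal |b⁻¹|) • (volume : Measure (ℝ × ℝ)) := by
  have e : dg a b = Prod.map (fun x : ℝ => a * x) (fun x : ℝ => b * x) := by
    funext x; rfl
  rw [e, Measure.volume_eq_prod, ← Measure.map_prod_map volume volume (measurable_const_mul a)
    (measurable_const_mul b), Real.map_volume_mul_left ha.ne', Real.map_volume_mul_left hb.ne',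
    Measure.prod_smul_left, Measure.prod_smul_right, smul_smul]

theorem eLpNorm_comp {a b : ℝ} (ha : 0 < a) (hb : 0 < b) {f : ℝ × ℝ → ℂ} (hf : Measurable f)
    {p : ℝ≥0∞} (h : eLpNorm f p volume ≠ ⊤) :
    eLpNorm (fun x => f (dg a b x)) p volume ≠ ⊤ := by
  have h1 : MemLp f p volume := ⟨hf.aestronglyMeasurable, lt_top_iff_ne_top.2 h⟩
  have hc : ENNReal.ofReal |a⁻¹| * ENNReal.ofReal |b⁻¹| ≠ ⊤ :=
    ENNReal.mul_ne_top ENNReal.ofReal_ne_top ENNReal.ofReal_ne_top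
  have h2 : MemLp f p (Measure.map (dg a b) volume) := by
    rw [map_dg ha hb]
    exact h1.smul_measure hc
  have h3 := eLpNorm_map_measure (p := p) h2.1 (measurable_dg a b).aemeasurable
  have h4 : eLpNorm (fun x => f (dg a b x)) p volume = eLpNorm f p (Measure.map (dg a b) volume) :=
    h3.symm
  rw [h4]
  exact h2.2.ne

theorem measurable_dil {f : ℝ × ℝ → ℂ} (hf : Measurable f) (θ : ℝ) : Measurable (dil θ f) :=
  hf.comp (measurable_dg_aux θ)
where
  measurable_dg_aux (θ : ℝ) : Measurable (fun x : ℝ × ℝ => (x.1, θ * x.2)) :=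
    measurable_fst.prodMk (measurable_snd.const_mul θ)

/-- A scaled piece. -/
theorem piece (h1 : T_DIM1) (h2 : T_ISO) {q p : ℝ} (hq : 3 < q) (hq4 : q < 4)
    (hp : q / (q - 2) < p) (hpq : p ≤ q) {f : ℝ × ℝ → ℂ} (hf : Measurable f) (hb : BSupp f)
    (hn : eLpNorm f (ENNReal.ofReal p) volume ≠ ⊤) {m : ℝ} (hm : 0 < m) :
    dimH {θ : ℝ | θ ∈ Icc m (2 * m) ∧ eLpNorm (E (dil θ f)) (ENNReal.ofReal q) volume = ⊤} ≤
      ENNReal.ofReal ((4 - q) / (q - 2 * q / p)) := by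
  obtain ⟨ρ, hρ⟩ := hb
  set c : ℝ := 2 * (1 + |ρ|) * (1 + 1 / m) with hcdef
  have hρ0 : 0 ≤ |ρ| := abs_nonneg ρ
  have hρ1 : ρ ≤ |ρ| := le_abs_self ρ
  have hm1 : 0 < 1 / m := by positivity
  have hc0 : 0 < c := by positivity
  have hc1 : 2 * (1 + |ρ|) ≤ c := by
    rw [hcdef]
    nlinarith
  have hc2 : 2 * (1 + |ρ|) ≤ m * c := by
    have : m * c = 2 * (1 + |ρ|) * (m + 1) := by
      rw [hcdef]
      field_simp
    rw [this]
    nlinarith
  set h : ℝ × ℝ → ℂ := fun x => f (dg c (m * c) x) with hh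
  have hhm : Measurable h := hf.comp (measurable_dg c (m * c))
  have hmc : 0 < m * c := mul_pos hm hc0
  have key : ∀ c' y : ℝ, 2 * (1 + |ρ|) ≤ c' → 1 / 2 < |y| → |ρ| < (c' * y) ^ 2 := by
    intro c' y h1 h2
    have h3 : (1 + |ρ|) ≤ c' * |y| := by nlinarith
    have h4 : (c' * y) ^ 2 = (c' * |y|) ^ 2 := by
      rw [mul_pow, mul_pow, sq_abs]
    rw [h4]
    nlinarith
  have hQ : ∀ x, x ∉ QQ → h x = 0 := by
    intro x hx
    apply hρ
    show ρ < (c * x.1) ^ 2 + (m * c * x.2) ^ 2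
    have hx' : 1 / 2 < |x.1| ∨ 1 / 2 < |x.2| := by
      by_contra hcon
      push Not at hcon
      apply hx
      exact ⟨⟨by linarith [(abs_le.1 hcon.1).1], by linarith [(abs_le.1 hcon.1).2]⟩,
        ⟨by linarith [(abs_le.1 hcon.2).1], by linarith [(abs_le.1 hcon.2).2]⟩⟩
    rcases hx' with h1 | h1
    · have := key c x.1 hc1 h1
      nlinarith [sq_nonneg (m * c * x.2)]
    · have := key (m * c) x.2 hc2 h1
      nlinarith [sq_nonneg (c * x.1)]
  have hhn : eLpNorm h (ENNReal.ofReal p) volume ≠ ⊤ := eLpNorm_comp hc0 hmc hf hn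
  have hD := h1 q p hq hq4 hp hpq h hhm hQ hhn
  refine le_trans ?_ hD
  have hsub : {θ : ℝ | θ ∈ Icc m (2 * m) ∧
      eLpNorm (E (dil θ f)) (ENNReal.ofReal q) volume = ⊤} ⊆
      (fun x : ℝ => m * x) '' {θ : ℝ | θ ∈ Icc (1 : ℝ) 2 ∧
        eLpNorm (E (dil θ h)) (ENNReal.ofReal q) volume = ⊤} := by
    rintro θ ⟨hθ, hθt⟩
    refine ⟨θ / m, ⟨⟨?_, ?_⟩, ?_⟩, ?_⟩
    · rw [le_div_iff₀ hm]; linarith [hθ.1]
    · rw [div_le_iff₀ hm]; linarith [hθ.2]
    · have e := (h2 q c (by linarith) hc0 (dil θ f) (measurable_dil hf θ)).2 hθt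
      have e2 : (fun x : ℝ × ℝ => dil θ f (c * x.1, c * x.2)) = dil (θ / m) h := by
        funext x
        simp only [dil, hh, dg]
        congr 2
        field_simp
      rw [e2] at e
      exact e
    · show m * (θ / m) = θ
      field_simp
  refine (dimH_mono hsub).trans ?_
  have hL : LipschitzWith (Real.toNNReal m) (fun x : ℝ => m * x) := by
    apply LipschitzWith.of_dist_le_mul
    intro x y
    rw [Real.coe_toNNReal m hm.le, Real.dist_eq, Real.dist_eq, ← mul_sub, abs_mul,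
      abs_of_pos hm]
  exact hL.dimH_image_le _

end DIM_

open DIM_ in
/-- The exceptional set of all positive dilations has dimension at most the stated number. -/
theorem p_DIM (h1 : T_DIM1) (h2 : T_ISO) : T_DIM := by
  intro q p hq hq4 hp hpq f hf hb hn
  have hsub : {θ : ℝ | 0 < θ ∧ eLpNorm (E (dil θ f)) (ENNReal.ofReal q) volume = ⊤} ⊆
      ⋃ n : ℤ, {θ : ℝ | θ ∈ Icc ((2 : ℝ) ^ n) (2 * (2 : ℝ) ^ n) ∧
        eLpNorm (E (dil θ f)) (ENNReal.ofReal q) volume = ⊤} := by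
    rintro θ ⟨hθ, hθt⟩
    obtain ⟨n, hn1, hn2⟩ := exists_mem_Ico_zpow hθ (one_lt_two (α := ℝ))
    refine mem_iUnion.2 ⟨n, ⟨hn1, ?_⟩, hθt⟩
    rw [zpow_add_one₀ two_ne_zero] at hn2
    linarith
  refine (dimH_mono hsub).trans ?_
  rw [dimH_iUnion]
  refine iSup_le fun n => ?_
  exact piece h1 h2 hq hq4 hp hpq hf hb hn (zpow_pos two_pos n)

end Pool.Agent.Dil
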