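import Pool.Agent.Dil.Targets

/-!
# The dimension of the exceptional set
-/

set_option autoImplicit false

namespace Pool.Agent.Dil

open MeasureTheory Set Filter
open Pool.Agent.Restr (u E QQ)
open Pool.Agent.H27.Fib (ind)
open scoped ENNReal NNReal Topology

namespace DIM1_

/-- the sum of Dirac masses -/
noncomputable def ds (F : Finset ℝ) : Measure ℝ := ∑ x ∈ F, Measure.dirac x

lemma lintegral_ds (F : Finset ℝ) (g : ℝ → ℝ≥0∞) : ∫⁻ θ, g θ ∂(ds F) = ∑ x ∈ F, g x := by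
  rw [ds, lintegral_finsetSum_measure]
  refine Finset.sum_congr rfl fun x _ => lintegral_dirac x g

lemma ds_univ (F : Finset ℝ) : ds F univ = F.card := by
  have := lintegral_ds F (fun _ => 1)
  simpa using this

lemma ds_apply (F : Finset ℝ) {s : Set ℝ} (hs : MeasurableSet s) :
    ds F s = ∑ x ∈ F, s.indicator (fun _ => (1 : ℝ≥0∞)) x := by
  rw [← lintegral_ds, lintegral_indicator hs]
  simp

instance (F : Finset ℝ) : IsFiniteMeasure (ds F) :=
  ⟨by rw [ds_univ]; exact ENNReal.natCast_lt_top _⟩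

lemma ds_compl {F : Finset ℝ} {s : Set ℝ} (hs : MeasurableSet s) (h : (F : Set ℝ) ⊆ s) :
    ds F sᶜ = 0 := by
  rw [ds_apply F hs.compl]
  refine Finset.sum_eq_zero fun x hx => ?_
  rw [indicator_of_notMem]
  exact fun h' => h' (h hx)

lemma ds_le_one {F : Finset ℝ} {l : ℝ} (hF : ∀ x ∈ F, ∀ y ∈ F, x ≠ y → l < |x - y|) (x : ℝ) :
    ds F (Icc x (x + l)) ≤ 1 := by
  classical
  rw [ds_apply F measurableSet_Icc]
  simp only [indicator_apply]
  rw [← Finset.sum_filter, Finset.sum_const, nsmul_eq_mul, mul_one]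
  have : (F.filter (fun y => y ∈ Icc x (x + l))).card ≤ 1 := by
    rw [Finset.card_le_one]
    intro a ha b hb
    rw [Finset.mem_filter, mem_Icc] at ha hb
    by_contra hab
    have := hF a ha.1 b hb.1 hab
    rw [lt_abs] at this
    rcases this with h | h
    · linarith [ha.2.2, hb.2.1]
    · linarith [ha.2.1, hb.2.2]
  exact_mod_cast this

/-- the block integral -/
noncomputable def bi (q : ℝ) (f : ℝ × ℝ → ℂ) (k : ℕ) (θ : ℝ) : ℝ≥0∞ :=
  ∫⁻ t in Jk k, sl q (dil θ f) t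

lemma blk_ds (q : ℝ) (F : Finset ℝ) (f : ℝ × ℝ → ℂ) (k : ℕ) :
    blk q (ds F) (Jk k) f = ∑ x ∈ F, bi q f k x := by
  rw [blk, lintegral_ds]
  rfl

/-- the counting estimate -/
lemma count {q a η ε c : ℝ} {C : ℝ≥0} {N : ℝ≥0∞} {f : ℝ × ℝ → ℂ} (hN : N ≠ ⊤) (hq : 0 < q)
    (hq4 : q < 4) (ha : 0 < a) (ha1 : a ≤ (q - 2) / 2)
    (hc : (4 - q) / 2 + η * a + ε = c * a)
    (h : ∀ (k : ℕ) (μ : Measure ℝ) [IsFiniteMeasure μ], μ (Icc 1 2)ᶜ = 0 → ∀ M : ℝ≥0∞,
      (∀ x : ℝ, μ (Icc x (x + 4 / (2 : ℝ) ^ k)) ≤ M) →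
      blk q μ (Jk k) f ≤ C * BB q a η k μ M * N ^ q)
    (k : ℕ) (F : Finset ℝ) (hF : (F : Set ℝ) ⊆ Icc 1 2)
    (hb : ∀ x ∈ F, ENNReal.ofReal (((2 : ℝ) ^ k) ^ (-ε)) ≤ bi q f k x)
    (hs : ∀ x ∈ F, ∀ y ∈ F, x ≠ y → 4 / (2 : ℝ) ^ k < |x - y|) :
    (F.card : ℝ) ≤ (C * (N ^ q).toReal) ^ (1 / a) * ((2 : ℝ) ^ k) ^ c := by
  have h2k : (0 : ℝ) < (2 : ℝ) ^ k := by positivity
  rcases Nat.eq_zero_or_pos F.card with h0 | hpos
  · rw [h0]
    simp only [Nat.cast_zero]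
    positivity
  have hn : (0 : ℝ) < F.card := by exact_mod_cast hpos
  have hNq : N ^ q ≠ ⊤ := ENNReal.rpow_ne_top_of_nonneg hq.le hN
  have h1 := h k (ds F) (ds_compl measurableSet_Icc hF) 1 (ds_le_one hs)
  rw [blk_ds] at h1
  have h2 : (F.card : ℝ≥0∞) * ENNReal.ofReal (((2 : ℝ) ^ k) ^ (-ε)) ≤ ∑ x ∈ F, bi q f k x := by
    rw [← nsmul_eq_mul, ← Finset.sum_const]
    exact Finset.sum_le_sum hb
  have h3 := h2.trans h1
  rw [BB, ds_univ, one_mul] at h3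
  have e0 : (F.card : ℝ≥0∞) = ENNReal.ofReal (F.card : ℝ) := by simp
  rw [e0, ← ENNReal.ofReal_mul hn.le, ← ENNReal.ofReal_mul h2k.le,
    ENNReal.ofReal_rpow_of_nonneg (by positivity) (by linarith),
    ENNReal.ofReal_rpow_of_nonneg (by positivity) ha.le,
    ENNReal.ofReal_rpow_of_nonneg hn.le (by linarith),
    ← ENNReal.ofReal_mul (by positivity), ← ENNReal.ofReal_mul (by positivity),
    ← ENNReal.ofReal_coe_nnreal, ← ENNReal.ofReal_mul (by positivity),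
    ← ENNReal.ofReal_toReal hNq, ← ENNReal.ofReal_mul (by positivity),
    ENNReal.ofReal_le_ofReal_iff (by positivity)] at h3
  -- real inequality
  set n : ℝ := (F.card : ℝ)
  set X : ℝ := (2 : ℝ) ^ k
  set K : ℝ := (N ^ q).toReal
  have h4 : ((X * n) ^ ((4 - q) / 2) * (X ^ η) ^ a * n ^ ((q - 2) / 2 - a)) =
      X ^ ((4 - q) / 2 + η * a) * (n * (n ^ a)⁻¹) := by
    rw [Real.mul_rpow h2k.le hn.le, ← Real.rpow_mul h2k.le, Real.rpow_add h2k]
    have e1 : n ^ ((4 - q) / 2) * n ^ ((q - 2) / 2 - a) = n * (n ^ a)⁻¹ := by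
      rw [← Real.rpow_add hn, ← Real.rpow_neg hn.le]
      have : (4 - q) / 2 + ((q - 2) / 2 - a) = 1 + (-a) := by ring
      rw [this, Real.rpow_add hn, Real.rpow_one]
    calc X ^ ((4 - q) / 2) * n ^ ((4 - q) / 2) * X ^ (η * a) * n ^ ((q - 2) / 2 - a)
        = X ^ ((4 - q) / 2) * X ^ (η * a) * (n ^ ((4 - q) / 2) * n ^ ((q - 2) / 2 - a)) := by
          ring
      _ = _ := by rw [e1]
  rw [h4] at h3
  have hna : (0 : ℝ) < n ^ a := Real.rpow_pos_of_pos hn a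
  have hXe : (0 : ℝ) < X ^ ε := Real.rpow_pos_of_pos h2k ε
  have h5 : n ^ a ≤ (C * K) * X ^ (c * a) := by
    have e2 : X ^ (c * a) = X ^ ((4 - q) / 2 + η * a) * X ^ ε := by
      rw [← hc, Real.rpow_add h2k]
    have e3 : X ^ (-ε) * X ^ ε = 1 := by
      rw [← Real.rpow_add h2k]
      simp
    have h6 := mul_le_mul_of_nonneg_right h3 (mul_pos (mul_pos hXe hna) (inv_pos.2 hn)).le
    have e4 : n * X ^ (-ε) * (X ^ ε * n ^ a * n⁻¹) = n ^ a := by
      calc n * X ^ (-ε) * (X ^ ε * n ^ a * n⁻¹) = (X ^ (-ε) * X ^ ε) * n ^ a * (n * n⁻¹) := by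
            ring
        _ = n ^ a := by rw [e3, mul_inv_cancel₀ hn.ne', one_mul, mul_one]
    rw [e4] at h6
    refine h6.trans_eq ?_
    rw [e2]
    field_simp
  have h7 : n ≤ ((C * K) * X ^ (c * a)) ^ (1 / a) := by
    have := Real.rpow_le_rpow hna.le h5 (z := 1 / a) (by positivity)
    rwa [← Real.rpow_mul hn.le, mul_one_div_cancel ha.ne', Real.rpow_one] at this
  rw [Real.mul_rpow (by positivity) (by positivity), ← Real.rpow_mul h2k.le, mul_assoc,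
    mul_one_div_cancel ha.ne', mul_one] at h7
  exact h7

lemma univ_sub : (univ : Set ℝ) ⊆ {t : ℝ | |t| < 1} ∪ ⋃ k, Jk k := by
  intro t _
  by_cases ht : |t| < 1
  · exact Or.inl ht
  · right
    rw [not_lt] at ht
    obtain ⟨k, hk1, hk2⟩ := exists_nat_pow_near ht (one_lt_two)
    refine mem_iUnion.2 ⟨k, hk1, ?_⟩
    rw [pow_succ] at hk2
    linarith

/-- infinitely many blocks are large -/
lemma freq {q ε : ℝ} (hε : 0 < ε) {f : ℝ × ℝ → ℂ} {θ : ℝ}
    (h0 : ∫⁻ t in {t : ℝ | |t| < 1}, sl q (dil θ f) t ≠ ⊤)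
    (h1 : ∀ k, bi q f k θ ≠ ⊤) (h2 : ∫⁻ t, sl q (dil θ f) t = ⊤) :
    ∃ᶠ k in atTop, ENNReal.ofReal (((2 : ℝ) ^ k) ^ (-ε)) < bi q f k θ := by
  intro hev
  rw [eventually_atTop] at hev
  obtain ⟨K, hK⟩ := hev
  have hr : ∀ k : ℕ, ENNReal.ofReal (((2 : ℝ) ^ k) ^ (-ε)) =
      ENNReal.ofReal ((2 : ℝ) ^ (-ε)) ^ k := by
    intro k
    rw [← ENNReal.ofReal_pow (by positivity), ← Real.rpow_natCast 2 k, ← Real.rpow_mul two_pos.le,
      mul_comm, Real.rpow_mul two_pos.le, Real.rpow_natCast]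
  have hr1 : ENNReal.ofReal ((2 : ℝ) ^ (-ε)) < 1 := by
    rw [← ENNReal.ofReal_one]
    apply (ENNReal.ofReal_lt_ofReal_iff one_pos).2
    exact Real.rpow_lt_one_of_one_lt_of_neg one_lt_two (by linarith)
  have hsum : ∑' k, bi q f k θ ≠ ⊤ := by
    rw [← Summable.sum_add_tsum_nat_add' (f := fun k => bi q f k θ) (k := K) ENNReal.summable]
    apply ENNReal.add_ne_top.2
    refine ⟨?_, ?_⟩
    · exact (ENNReal.sum_lt_top.2 fun k _ => (h1 k).lt_top).ne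
    · have : ∑' k, bi q f (k + K) θ ≤ ∑' k, ENNReal.ofReal ((2 : ℝ) ^ (-ε)) ^ k := by
        apply ENNReal.tsum_le_tsum
        intro k
        have := hK (k + K) (by omega)
        rw [not_lt, hr] at this
        refine this.trans ?_
        exact pow_le_pow_of_le_one zero_le hr1.le (by omega)
      refine ne_top_of_le_ne_top ?_ this
      rw [ENNReal.tsum_geometric]
      apply ENNReal.inv_ne_top.2
      exact (tsub_pos_of_lt hr1).ne'
  have : ∫⁻ t, sl q (dil θ f) t ≤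
      (∫⁻ t in {t : ℝ | |t| < 1}, sl q (dil θ f) t) + ∑' k, bi q f k θ := by
    calc ∫⁻ t, sl q (dil θ f) t = ∫⁻ t in univ, sl q (dil θ f) t := by
          rw [Measure.restrict_univ]
      _ ≤ ∫⁻ t in {t : ℝ | |t| < 1} ∪ ⋃ k, Jk k, sl q (dil θ f) t :=
          lintegral_mono_set univ_sub
      _ ≤ (∫⁻ t in {t : ℝ | |t| < 1}, sl q (dil θ f) t) +
          ∫⁻ t in ⋃ k, Jk k, sl q (dil θ f) t :=
          lintegral_union_le _ _ _
      _ ≤ _ := by
          gcongr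
          exact lintegral_iUnion_le _ _
  rw [h2] at this
  exact ENNReal.add_ne_top.2 ⟨h0, hsum⟩ (top_le_iff.1 this)

end DIM1_

open DIM1_ in
theorem p_DIM1 (h1 : T_FUN) (h2 : T_ZERO) (h3 : T_NORM) (h4 : T_ABS) : T_DIM1 := by
  intro q p hq3 hq4 hp hpq f hf hfQ hfN
  have hq0 : 0 < q := by linarith
  have hp2 : 2 < p := by
    refine lt_of_le_of_lt ?_ hp
    rw [le_div_iff₀ (by linarith)]
    linarith
  have hp0 : 0 < p := by linarith
  have ha0 : 0 < q / 2 - q / p := by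
    have : q / p < q / 2 := div_lt_div_of_pos_left hq0 two_pos hp2
    linarith
  have ha1 : q / 2 - q / p ≤ (q - 2) / 2 := by
    have : 1 ≤ q / p := by rwa [one_le_div hp0]
    linarith
  have hc0 : (4 - q) / (q - 2 * q / p) = (4 - q) / 2 / (q / 2 - q / p) := by
    have : q - 2 * q / p = 2 * (q / 2 - q / p) := by ring
    rw [this, div_div]
  rw [hc0]
  have hc0p : 0 < (4 - q) / 2 / (q / 2 - q / p) := div_pos (by linarith) ha0
  by_contra hcon
  rw [not_le] at hcon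
  obtain ⟨c, hcn, hc1, hc2⟩ := ENNReal.lt_iff_exists_real_btwn.1 hcon
  refine absurd hc2 (not_lt.2 ?_)
  have hc3 : (4 - q) / 2 / (q / 2 - q / p) < c :=
    (ENNReal.ofReal_lt_ofReal_iff_of_nonneg hc0p.le).1 hc1
  have hcp : 0 < c := hc0p.trans hc3
  -- choice of the parameters
  obtain ⟨a, haL, haU⟩ : ∃ a, (4 - q) / 2 / c < a ∧ a < q / 2 - q / p := by
    apply exists_between
    rw [div_lt_iff₀ hcp, mul_comm]
    rwa [div_lt_iff₀ ha0] at hc3
  have ha : 0 < a := lt_trans (div_pos (by linarith) hcp) haL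
  set δ : ℝ := c * a - (4 - q) / 2 with hδ
  have hδ0 : 0 < δ := by
    rw [div_lt_iff₀ hcp] at haL
    rw [hδ]
    linarith
  have hη : 0 < δ / (2 * a) := by positivity
  have hε : 0 < δ / 2 := by positivity
  have hcc : (4 - q) / 2 + δ / (2 * a) * a + δ / 2 = c * a := by
    have : δ / (2 * a) * a = δ / 2 := by field_simp
    rw [this, hδ]
    ring
  obtain ⟨C, hC⟩ := h1 q p a (δ / (2 * a)) hq3 hq4 hp ha (haU.le.trans ha1) haU hη
  have hC1 := hC f hf hfQ hfN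
  set B : ℕ → Set ℝ := fun k => {θ : ℝ | θ ∈ Icc (1 : ℝ) 2 ∧
    ENNReal.ofReal (((2 : ℝ) ^ k) ^ (-(δ / 2))) < bi q f k θ} with hB
  have h5 := h4 B c ((C * (eLpNorm f (ENNReal.ofReal p) volume ^ q).toReal) ^ (1 / a)) hcp.le
    (fun k θ hθ => hθ.1)
    (fun k F hF hs => count hfN hq0 hq4 ha (haU.le.trans ha1) hcc hC1 k F
      (fun x hx => (hF hx).1) (fun x hx => (hF hx).2.le) hs)
  refine le_trans (dimH_mono ?_) h5
  rintro θ ⟨hθ, hθ2⟩
  obtain ⟨C0, hC0⟩ := h2 q p (by linarith) hq4 hp2.le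
  have hNq : eLpNorm f (ENNReal.ofReal p) volume ^ q ≠ ⊤ :=
    ENNReal.rpow_ne_top_of_nonneg hq0.le hfN
  have g0 : ∫⁻ t in {t : ℝ | |t| < 1}, sl q (dil θ f) t ≠ ⊤ :=
    ne_top_of_le_ne_top (ENNReal.mul_ne_top ENNReal.coe_ne_top hNq) (hC0 f hf hfQ θ hθ)
  have g1 : ∀ k, bi q f k θ ≠ ⊤ := by
    intro k
    have hh := hC1 k (ds {θ}) (ds_compl measurableSet_Icc (by simpa using hθ)) 1
      (ds_le_one (by simp))
    rw [blk_ds, Finset.sum_singleton] at hh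
    refine ne_top_of_le_ne_top ?_ hh
    refine ENNReal.mul_ne_top (ENNReal.mul_ne_top ENNReal.coe_ne_top ?_) hNq
    rw [BB, ds_univ]
    simp only [Finset.card_singleton, Nat.cast_one, one_mul, mul_one, ENNReal.one_rpow]
    refine ENNReal.mul_ne_top ?_ ?_
    · exact ENNReal.rpow_ne_top_of_nonneg (by linarith) ENNReal.ofReal_ne_top
    · exact ENNReal.rpow_ne_top_of_nonneg ha.le ENNReal.ofReal_ne_top
  have g2 : ∫⁻ t, sl q (dil θ f) t = ⊤ := by
    rw [← (h3 q hq0 f hf).1 θ, hθ2]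
    exact ENNReal.top_rpow_of_pos hq0
  have g3 := freq hε g0 g1 g2
  exact g3.mono fun k hk => ⟨hθ, hk⟩

end Pool.Agent.Dil
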