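import Mathlib
import Pool.Agent.Dil.Targets

/-!
# The estimate for measures of Frostman type
-/

namespace Pool.Agent.Dil

open MeasureTheory Set Filter
open Pool.Agent.Restr (u E QQ)
open Pool.Agent.H27.Fib (ind)
open scoped ENNReal NNReal Topology

namespace FRO_

theorem cover (t : ℝ) : t ∈ {t : ℝ | |t| < 1} ∪ ⋃ k : ℕ, Jk k := by
  rcases lt_or_ge |t| 1 with h | h
  · exact Or.inl h
  · refine Or.inr (mem_iUnion.2 ?_)
    obtain ⟨k, hk1, hk2⟩ := exists_nat_pow_near h (by norm_num : (1 : ℝ) < 2)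
    refine ⟨k, hk1, ?_⟩
    rw [pow_succ] at hk2
    linarith

theorem split (g : ℝ → ℝ≥0∞) :
    ∫⁻ t, g t ≤ (∫⁻ t in {t : ℝ | |t| < 1}, g t) + ∑' k : ℕ, ∫⁻ t in Jk k, g t := by
  calc ∫⁻ t, g t = ∫⁻ t in {t : ℝ | |t| < 1} ∪ ⋃ k : ℕ, Jk k, g t := by
        rw [eq_univ_of_forall cover, setLIntegral_univ]
    _ ≤ (∫⁻ t in {t : ℝ | |t| < 1}, g t) + ∫⁻ t in ⋃ k : ℕ, Jk k, g t := lintegral_union_le _ _ _
    _ ≤ _ := by gcongr; exact lintegral_iUnion_le _ _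

/-- The block bound, simplified. -/
theorem BB_le {q a η α : ℝ} (hq4 : q < 4) (ha : 0 < a) (k : ℕ) (μ : Measure ℝ)
    [IsFiniteMeasure μ] (hμ : μ univ ≠ 0) (A : ℝ≥0∞) :
    BB q a η k μ (A * ENNReal.ofReal ((4 / (2 : ℝ) ^ k) ^ α)) =
      A ^ a * (μ univ) ^ (1 - a) *
        (ENNReal.ofReal (4 ^ (α * a)) * ENNReal.ofReal (2 ^ ((4 - q) / 2 + η * a - α * a)) ^ k) := by
  have h2k : (0 : ℝ) < 2 ^ k := by positivity
  have h4q : 0 ≤ (4 - q) / 2 := by linarith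
  unfold BB
  rw [ENNReal.mul_rpow_of_nonneg _ _ h4q, ENNReal.mul_rpow_of_nonneg _ _ ha.le,
    ENNReal.mul_rpow_of_nonneg _ _ ha.le]
  have e1 : (μ univ) ^ ((4 - q) / 2) * (μ univ) ^ ((q - 2) / 2 - a) = (μ univ) ^ (1 - a) := by
    rw [← ENNReal.rpow_add _ _ hμ (measure_ne_top _ _)]
    congr 1
    ring
  have e2 : ENNReal.ofReal ((2 : ℝ) ^ k) ^ ((4 - q) / 2) *
      ENNReal.ofReal ((4 / (2 : ℝ) ^ k) ^ α) ^ a * ENNReal.ofReal (((2 : ℝ) ^ k) ^ η) ^ a =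
      ENNReal.ofReal (4 ^ (α * a)) * ENNReal.ofReal (2 ^ ((4 - q) / 2 + η * a - α * a)) ^ k := by
    rw [ENNReal.ofReal_rpow_of_pos h2k, ENNReal.ofReal_rpow_of_pos (by positivity),
      ENNReal.ofReal_rpow_of_pos (by positivity), ← ENNReal.ofReal_mul (by positivity),
      ← ENNReal.ofReal_mul (by positivity), ← ENNReal.ofReal_pow (by positivity),
      ← ENNReal.ofReal_mul (by positivity)]
    congr 1
    rw [← Real.rpow_mul (by positivity), ← Real.rpow_mul (by positivity),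
      Real.div_rpow (by norm_num) h2k.le, ← Real.rpow_natCast, ← Real.rpow_natCast,
      ← Real.rpow_mul (by norm_num), ← Real.rpow_mul (by norm_num), ← Real.rpow_mul (by norm_num),
      ← Real.rpow_mul (by norm_num)]
    have e0 : (4 : ℝ) ^ (α * a) / 2 ^ ((k : ℝ) * (α * a)) =
        4 ^ (α * a) * 2 ^ (-((k : ℝ) * (α * a))) := by
      rw [Real.rpow_neg (by norm_num), div_eq_mul_inv]
    rw [e0]
    calc (2 : ℝ) ^ ((k : ℝ) * ((4 - q) / 2)) * (4 ^ (α * a) * 2 ^ (-((k : ℝ) * (α * a)))) *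
        2 ^ ((k : ℝ) * (η * a)) = 4 ^ (α * a) * (2 ^ ((k : ℝ) * ((4 - q) / 2)) *
          2 ^ (-((k : ℝ) * (α * a))) * 2 ^ ((k : ℝ) * (η * a))) := by ring
      _ = _ := by
        rw [← Real.rpow_add (by norm_num), ← Real.rpow_add (by norm_num)]
        congr 2
        ring
  calc _ = A ^ a * ((μ univ) ^ ((4 - q) / 2) * (μ univ) ^ ((q - 2) / 2 - a)) *
      (ENNReal.ofReal ((2 : ℝ) ^ k) ^ ((4 - q) / 2) *
      ENNReal.ofReal ((4 / (2 : ℝ) ^ k) ^ α) ^ a * ENNReal.ofReal (((2 : ℝ) ^ k) ^ η) ^ a) := by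
        ring
    _ = _ := by rw [e1, e2]

end FRO_

theorem p_FRO (h1 : T_FUN) (h2 : T_ZERO) (h3 : T_NORM) : T_FRO := by
  intro q p a α hq hq4 hp ha ha2 hap hα hα1 hαa
  have hq2 : 0 < q - 2 := by linarith
  have hp2 : 2 < p := by
    refine lt_of_le_of_lt ?_ hp
    rw [le_div_iff₀ hq2]
    linarith
  set η : ℝ := (α * a - (4 - q) / 2) / (2 * a) with hη
  have hη0 : 0 < η := div_pos (by linarith) (by linarith)
  have hδ : (4 - q) / 2 + η * a - α * a < 0 := by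
    have e : η * a = (α * a - (4 - q) / 2) / 2 := by
      rw [hη]
      field_simp
    rw [e]
    linarith
  obtain ⟨C1, hC1⟩ := h1 q p a η hq hq4 hp ha ha2 hap hη0
  obtain ⟨C2, hC2⟩ := h2 q p (by linarith) hq4 hp2.le
  obtain ⟨-, -⟩ := h3 q (by linarith) (fun _ => 0) measurable_const
  set r : ℝ≥0∞ := ENNReal.ofReal (2 ^ ((4 - q) / 2 + η * a - α * a)) with hr
  have hr1 : r < 1 := by
    rw [hr, ← ENNReal.ofReal_one]
    exact (ENNReal.ofReal_lt_ofReal_iff one_pos).2 (Real.rpow_lt_one_of_one_lt_of_neg (by norm_num) hδ)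
  set S : ℝ≥0∞ := ENNReal.ofReal (4 ^ (α * a)) * (1 - r)⁻¹ with hS
  have hStop : S ≠ ⊤ := by
    apply ENNReal.mul_ne_top ENNReal.ofReal_ne_top
    rw [ENNReal.inv_ne_top]
    exact (tsub_pos_of_lt hr1).ne'
  refine ⟨C2 + C1 * S.toNNReal, fun μ _ hμ A hA f hf hs hN => ?_⟩
  rcases eq_or_ne (μ univ) 0 with h0 | h0
  · rw [Measure.measure_univ_eq_zero.1 h0]
    simp
  obtain ⟨hn1, hn2, hn3⟩ := h3 q (by linarith) f hf
  set N := eLpNorm f (ENNReal.ofReal p) volume with hNd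
  have hmeas : ∀ k : ℕ, Measurable (fun θ : ℝ => ∫⁻ t in Jk k, sl q (dil θ f) t) := fun k =>
    Measurable.lintegral_prod_right' hn2
  have hunivle : μ univ ≤ A := by
    have e : μ univ ≤ μ (Icc 1 2) := by
      calc μ univ = μ (Icc 1 2 ∪ (Icc 1 2)ᶜ) := by rw [union_compl_self]
        _ ≤ μ (Icc 1 2) + μ (Icc 1 2)ᶜ := measure_union_le _ _
        _ = μ (Icc 1 2) := by rw [hμ, add_zero]
    have h4 := hA 1 1 one_pos (by norm_num)
    rw [Real.one_rpow, ENNReal.ofReal_one, mul_one] at h4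
    norm_num at h4
    exact e.trans h4
  have hu : μ univ ≤ A ^ a * (μ univ) ^ (1 - a) := by
    calc μ univ = (μ univ) ^ (a + (1 - a)) := by
          rw [show a + (1 - a) = 1 by ring, ENNReal.rpow_one]
      _ = (μ univ) ^ a * (μ univ) ^ (1 - a) := ENNReal.rpow_add _ _ h0 (measure_ne_top _ _)
      _ ≤ _ := by gcongr
  have hae : ∀ᵐ θ ∂μ, θ ∈ Icc (1 : ℝ) 2 := hμ
  have hsmall : ∫⁻ θ, (∫⁻ t in {t : ℝ | |t| < 1}, sl q (dil θ f) t) ∂μ ≤
      C2 * (A ^ a * (μ univ) ^ (1 - a)) * N ^ q := by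
    calc ∫⁻ θ, (∫⁻ t in {t : ℝ | |t| < 1}, sl q (dil θ f) t) ∂μ ≤ ∫⁻ _θ, C2 * N ^ q ∂μ := by
          apply lintegral_mono_ae
          filter_upwards [hae] with θ hθ
          exact hC2 f hf hs θ hθ
      _ = C2 * μ univ * N ^ q := by rw [lintegral_const]; ring
      _ ≤ _ := by gcongr
  have hblk : ∀ k : ℕ, ∫⁻ θ, (∫⁻ t in Jk k, sl q (dil θ f) t) ∂μ ≤
      C1 * (A ^ a * (μ univ) ^ (1 - a)) * N ^ q * (ENNReal.ofReal (4 ^ (α * a)) * r ^ k) := by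
    intro k
    have h5 := hC1 f hf hs hN k μ hμ (A * ENNReal.ofReal ((4 / (2 : ℝ) ^ k) ^ α)) (fun x => by
      apply hA x (4 / 2 ^ k) (by positivity)
      apply div_le_self (by norm_num)
      exact one_le_pow₀ (by norm_num))
    rw [FRO_.BB_le hq4 ha k μ h0] at h5
    refine h5.trans (le_of_eq ?_)
    rw [← hr]
    ring
  calc ∫⁻ θ, eLpNorm (E (dil θ f)) (ENNReal.ofReal q) volume ^ q ∂μ
      = ∫⁻ θ, (∫⁻ t, sl q (dil θ f) t) ∂μ := by
        apply lintegral_congr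
        intro θ
        exact hn1 θ
    _ ≤ ∫⁻ θ, ((∫⁻ t in {t : ℝ | |t| < 1}, sl q (dil θ f) t) +
          ∑' k : ℕ, ∫⁻ t in Jk k, sl q (dil θ f) t) ∂μ :=
        lintegral_mono fun θ => FRO_.split _
    _ = (∫⁻ θ, (∫⁻ t in {t : ℝ | |t| < 1}, sl q (dil θ f) t) ∂μ) +
          ∑' k : ℕ, ∫⁻ θ, (∫⁻ t in Jk k, sl q (dil θ f) t) ∂μ := by
        rw [lintegral_add_right _ (Measurable.tsum hmeas),
          lintegral_tsum fun k => (hmeas k).aemeasurable]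
    _ ≤ C2 * (A ^ a * (μ univ) ^ (1 - a)) * N ^ q +
          ∑' k : ℕ, C1 * (A ^ a * (μ univ) ^ (1 - a)) * N ^ q *
            (ENNReal.ofReal (4 ^ (α * a)) * r ^ k) := by
        gcongr with k
        exact hblk k
    _ = C2 * (A ^ a * (μ univ) ^ (1 - a)) * N ^ q +
          C1 * (A ^ a * (μ univ) ^ (1 - a)) * N ^ q * S := by
        rw [ENNReal.tsum_mul_left, ENNReal.tsum_mul_left, ENNReal.tsum_geometric]
    _ = _ := by
        rw [← ENNReal.coe_toNNReal hStop]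
        push_cast
        simp only [ENNReal.toNNReal_coe]
        ring

end Pool.Agent.Dil
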