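import Mathlib
import Pool.Agent.Dil.Targets

/-!
# The block estimate for functions
-/

namespace Pool.Agent.Dil

open MeasureTheory Set Filter
open Pool.Agent.Restr (u E QQ)
open Pool.Agent.H27.Fib (ind)
open scoped ENNReal NNReal Topology

namespace FUN_

theorem measurableSet_Jk (k : ℕ) : MeasurableSet (Jk k) := by
  have h1 : MeasurableSet {t : ℝ | (2 : ℝ) ^ k ≤ |t|} :=
    measurableSet_le measurable_const continuous_abs.measurable
  have h2 : MeasurableSet {t : ℝ | |t| < 2 * (2 : ℝ) ^ k} :=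
    measurableSet_lt continuous_abs.measurable measurable_const
  exact h1.inter h2

end FUN_

theorem p_FUN (h1 : T_RES) (h2 : T_LAY) : T_FUN := by
  intro q p a η hq hq4 hp ha ha2 hap hη
  have hq0 : 0 < q := by linarith
  have hq2 : 0 < q - 2 := by linarith
  have hp2 : 2 < p := by
    refine lt_of_le_of_lt ?_ hp
    rw [le_div_iff₀ hq2]
    linarith
  have hp0 : 0 < p := by linarith
  have hr : 0 < q / 2 - a := by linarith
  have hqpr : q < p * (q / 2 - a) := by
    have h3 : q / p < q / 2 - a := by linarith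
    rw [div_lt_iff₀ hp0] at h3
    linarith
  obtain ⟨C1, hC1⟩ := h1 q a η hq hq4 ha ha2 hη
  obtain ⟨C2, hC2⟩ := h2 q p (q / 2 - a) (by linarith) (by linarith) hr hqpr
  refine ⟨C2 * C1, fun f hf hs hN k μ _ hμ M hM => ?_⟩
  have h := hC2 μ hμ (Jk k) (FUN_.measurableSet_Jk k) (C1 * BB q a η k μ M)
    (fun A hA hAQ => hC1 A hA hAQ k μ hμ M hM) f hf hs hN
  refine h.trans (le_of_eq ?_)
  push_cast
  ring

end Pool.Agent.Dil
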