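import Mathlib
import Pool.Agent.Dil.Targets

/-!
# Isotropic scaling of the extension operator
-/

namespace Pool.Agent.Dil

open MeasureTheory Set Filter
open Pool.Agent.Restr (u E QQ measurable_E lin_q)
open scoped ENNReal NNReal Topology

namespace ISO_

/-- The scaling of the frequency space. -/
noncomputable def lin (c : ℝ) (hc : c ≠ 0) : (ℝ × ℝ × ℝ) ≃ₗ[ℝ] (ℝ × ℝ × ℝ) where
  toFun ξ := (c⁻¹ * ξ.1, c⁻¹ * ξ.2.1, (c ^ 2)⁻¹ * ξ.2.2)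
  invFun ξ := (c * ξ.1, c * ξ.2.1, c ^ 2 * ξ.2.2)
  map_add' x y := by
    ext <;> simp [mul_add]
  map_smul' r x := by
    ext <;> simp <;> ring
  left_inv x := by
    ext <;> simp [hc]
  right_inv x := by
    ext <;> simp [hc]

theorem lin_apply (c : ℝ) (hc : c ≠ 0) (ξ : ℝ × ℝ × ℝ) :
    lin c hc ξ = (c⁻¹ * ξ.1, c⁻¹ * ξ.2.1, (c ^ 2)⁻¹ * ξ.2.2) := rfl

theorem E_scale {c : ℝ} (hc : 0 < c) (f : ℝ × ℝ → ℂ) (ξ : ℝ × ℝ × ℝ) :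
    E (fun x => f (c * x.1, c * x.2)) ξ =
      (((c ^ 2)⁻¹ : ℝ) : ℂ) * E f (lin c hc.ne' ξ) := by
  unfold E
  have h := Measure.integral_comp_smul (volume : Measure (ℝ × ℝ))
    (fun y : ℝ × ℝ => u ((lin c hc.ne' ξ).1 * y.1 + ((lin c hc.ne' ξ).2.1 * y.2 +
      (lin c hc.ne' ξ).2.2 * (y.1 ^ 2 + y.2 ^ 2))) * f y) c
  have hfr : Module.finrank ℝ (ℝ × ℝ) = 2 := by simp
  rw [hfr, abs_of_pos (by positivity), Complex.real_smul] at h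
  rw [← h]
  congr 1
  funext x
  have hc' := hc.ne'
  simp only [lin_apply, Prod.smul_fst, Prod.smul_snd, smul_eq_mul]
  congr 2
  · field_simp

end ISO_

open ISO_ in
theorem p_ISO : T_ISO := by
  intro q c hq hc f hf
  have hf' : Measurable fun x : ℝ × ℝ => f (c * x.1, c * x.2) := hf.comp (by fun_prop)
  have h1 := lin_q (μ := (volume : Measure (ℝ × ℝ × ℝ)))
    (F := E fun x : ℝ × ℝ => f (c * x.1, c * x.2)) hq
  have h2 := lin_q (μ := (volume : Measure (ℝ × ℝ × ℝ))) (F := E f) hq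
  set L := lin c hc.ne' with hL
  have hdet : LinearMap.det (L : (ℝ × ℝ × ℝ) →ₗ[ℝ] (ℝ × ℝ × ℝ)) ≠ 0 :=
    (LinearEquiv.isUnit_det' L).ne_zero
  have hH1 : (volume : Measure (ℝ × ℝ)).IsAddHaarMeasure :=
    inferInstanceAs ((volume : Measure ℝ).prod (volume : Measure ℝ)).IsAddHaarMeasure
  have hH2 : (volume : Measure (ℝ × ℝ × ℝ)).IsAddHaarMeasure :=
    inferInstanceAs ((volume : Measure ℝ).prod (volume : Measure (ℝ × ℝ))).IsAddHaarMeasure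
  have hmap := Measure.map_linearMap_addHaar_eq_smul_addHaar
    (volume : Measure (ℝ × ℝ × ℝ)) hdet
  have hLc : Continuous (L : (ℝ × ℝ × ℝ) → (ℝ × ℝ × ℝ)) := by
    rw [show (L : (ℝ × ℝ × ℝ) → (ℝ × ℝ × ℝ)) =
      fun ξ => (c⁻¹ * ξ.1, c⁻¹ * ξ.2.1, (c ^ 2)⁻¹ * ξ.2.2) from funext (lin_apply c hc.ne')]
    fun_prop
  have hFm : Measurable fun ξ : ℝ × ℝ × ℝ => ‖E f ξ‖ₑ ^ q := (measurable_E hf).enorm.pow_const q
  have h3 : ∫⁻ ξ : ℝ × ℝ × ℝ, ‖E f (L ξ)‖ₑ ^ q =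
      ENNReal.ofReal |(LinearMap.det (L : (ℝ × ℝ × ℝ) →ₗ[ℝ] (ℝ × ℝ × ℝ)))⁻¹| *
        ∫⁻ ξ : ℝ × ℝ × ℝ, ‖E f ξ‖ₑ ^ q := by
    rw [← smul_eq_mul, ← lintegral_smul_measure, ← hmap]
    exact (lintegral_map hFm hLc.measurable).symm
  set D : ℝ≥0∞ := ENNReal.ofReal |(LinearMap.det (L : (ℝ × ℝ × ℝ) →ₗ[ℝ] (ℝ × ℝ × ℝ)))⁻¹| with hD
  have hD0 : D ≠ 0 := by
    rw [hD, ne_eq, ENNReal.ofReal_eq_zero, not_le]
    exact abs_pos.2 (inv_ne_zero hdet)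
  have hDt : D ≠ ⊤ := ENNReal.ofReal_ne_top
  set K : ℝ≥0∞ := ‖(((c ^ 2)⁻¹ : ℝ) : ℂ)‖ₑ ^ q with hK
  have hK0 : K ≠ 0 := by
    rw [hK]
    refine (ENNReal.rpow_pos ?_ (by simp)).ne'
    rw [pos_iff_ne_zero, ne_eq, enorm_eq_zero, Complex.ofReal_eq_zero]
    positivity
  have hKt : K ≠ ⊤ := ENNReal.rpow_ne_top_of_nonneg hq.le (by simp)
  have h4 : ∫⁻ ξ : ℝ × ℝ × ℝ, ‖E (fun x : ℝ × ℝ => f (c * x.1, c * x.2)) ξ‖ₑ ^ q =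
      K * (D * ∫⁻ ξ : ℝ × ℝ × ℝ, ‖E f ξ‖ₑ ^ q) := by
    have hm3 : Measurable fun ξ : ℝ × ℝ × ℝ => ‖E f (L ξ)‖ₑ ^ q := hFm.comp hLc.measurable
    rw [← h3, ← lintegral_const_mul _ hm3]
    refine lintegral_congr fun ξ => ?_
    rw [E_scale hc, enorm_mul, ENNReal.mul_rpow_of_nonneg _ _ hq.le, hK, hL]
  rw [h1, h2] at h4
  have hrt : ∀ a : ℝ≥0∞, a = ⊤ ↔ a ^ q = ⊤ := fun a => by
    rw [ENNReal.rpow_eq_top_iff_of_pos hq]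
  rw [hrt, hrt (eLpNorm (E f) (ENNReal.ofReal q) volume), h4]
  constructor
  · intro h
    by_contra hcon
    exact ENNReal.mul_ne_top hKt (ENNReal.mul_ne_top hDt hcon) h
  · intro h
    rw [h, ENNReal.mul_top hD0, ENNReal.mul_top hK0]

end Pool.Agent.Dil
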