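import Pool.Agent.Dil.Targets

/-!
# A fourth power estimate for the extension operator of the product of two parabolas
-/

set_option autoImplicit false

namespace Pool.Agent.Dil.L4_

open MeasureTheory Set Filter
open Pool.Agent.Restr
open scoped ENNReal NNReal Topology

/-- The square `QQ`, as a measure. -/
noncomputable def νI : Measure (ℝ × ℝ) := μI.prod μI

instance : SFinite νI := by unfold νI; infer_instance

theorem νI_eq : νI = (volume : Measure (ℝ × ℝ)).restrict QQ := by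
  unfold νI μI QQ
  rw [Measure.prod_restrict, Measure.volume_eq_prod]

/-- The map `s`. -/
def sz (z : (ℝ × ℝ) × (ℝ × ℝ)) : (ℝ × ℝ) × (ℝ × ℝ) :=
  ((z.1.1 - z.2.1, z.1.1 ^ 2 - z.2.1 ^ 2), (z.1.2 - z.2.2, z.1.2 ^ 2 - z.2.2 ^ 2))

theorem measurable_sz : Measurable sz := by
  unfold sz
  fun_prop

theorem E2_pow_four {f : ℝ × ℝ → ℂ} (hf0 : ∀ x, x ∉ QQ → f x = 0) (w : (ℝ × ℝ) × (ℝ × ℝ)) :
    ‖E2 f w‖ₑ ^ 4 = ‖∫ z : (ℝ × ℝ) × (ℝ × ℝ),
      u ((w.1.1 * (sz z).1.1 + w.1.2 * (sz z).1.2) + (w.2.1 * (sz z).2.1 + w.2.2 * (sz z).2.2)) *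
      (f z.1 * (starRingEnd ℂ) (f z.2)) ∂(νI.prod νI)‖ₑ ^ 2 := by
  have hE : E2 f w = ∫ x, u ((w.1.1 * x.1 + w.1.2 * x.1 ^ 2) +
      (w.2.1 * x.2 + w.2.2 * x.2 ^ 2)) * f x ∂νI := by
    unfold E2
    rw [νI_eq, setIntegral_eq_integral_of_forall_compl_eq_zero]
    intro x hx
    rw [hf0 x hx, mul_zero]
  have h2 : ∫ z : (ℝ × ℝ) × (ℝ × ℝ),
      u ((w.1.1 * (sz z).1.1 + w.1.2 * (sz z).1.2) + (w.2.1 * (sz z).2.1 + w.2.2 * (sz z).2.2)) *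
      (f z.1 * (starRingEnd ℂ) (f z.2)) ∂(νI.prod νI) =
      E2 f w * (starRingEnd ℂ) (E2 f w) := by
    rw [hE, ← integral_conj, ← integral_prod_mul]
    refine integral_congr_ae (Eventually.of_forall fun z => ?_)
    simp only [map_mul, sz]
    rw [show w.1.1 * (z.1.1 - z.2.1) + w.1.2 * (z.1.1 ^ 2 - z.2.1 ^ 2) +
      (w.2.1 * (z.1.2 - z.2.2) + w.2.2 * (z.1.2 ^ 2 - z.2.2 ^ 2)) =
      ((w.1.1 * z.1.1 + w.1.2 * z.1.1 ^ 2) + (w.2.1 * z.1.2 + w.2.2 * z.1.2 ^ 2)) -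
      ((w.1.1 * z.2.1 + w.1.2 * z.2.1 ^ 2) + (w.2.1 * z.2.2 + w.2.2 * z.2.2 ^ 2)) by ring, u_sub]
    ring
  rw [h2, enorm_mul]
  have e3 : ‖(starRingEnd ℂ) (E2 f w)‖ₑ = ‖E2 f w‖ₑ := by
    rw [← ofReal_norm, RCLike.norm_conj, ofReal_norm]
  rw [e3]
  ring

theorem measurable_E2 {f : ℝ × ℝ → ℂ} (hf : Measurable f) : Measurable (E2 f) := by
  have : StronglyMeasurable (fun w : (ℝ × ℝ) × (ℝ × ℝ) => ∫ x : ℝ × ℝ,
      u ((w.1.1 * x.1 + w.1.2 * x.1 ^ 2) + (w.2.1 * x.2 + w.2.2 * x.2 ^ 2)) * f x) := by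
    apply StronglyMeasurable.integral_prod_right
      (f := fun (w : (ℝ × ℝ) × (ℝ × ℝ)) (x : ℝ × ℝ) =>
        u ((w.1.1 * x.1 + w.1.2 * x.1 ^ 2) + (w.2.1 * x.2 + w.2.2 * x.2 ^ 2)) * f x)
    apply Measurable.stronglyMeasurable
    exact (measurable_u.comp (by fun_prop)).mul (hf.comp measurable_snd)
  exact this.measurable

/-- The autocorrelation bound. -/
theorem autocorr2 {g : ℝ × ℝ → ℂ} (hg : Measurable g) (a : ℝ × ℝ) :
    ∫⁻ x, ‖g x‖ₑ ^ 2 * ‖g (x - a)‖ₑ ^ 2 ≤ ∫⁻ x, ‖g x‖ₑ ^ 4 := by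
  have hm2 : Measurable (fun x => ‖g x‖ₑ ^ 2) := hg.enorm.pow_const 2
  have hm4 : Measurable (fun x => ‖g x‖ₑ ^ 4) := hg.enorm.pow_const 4
  have hm2' : Measurable (fun x => ‖g (x - a)‖ₑ ^ 2) :=
    hm2.comp (measurable_id.sub measurable_const)
  have key : 2 * ∫⁻ x, ‖g x‖ₑ ^ 2 * ‖g (x - a)‖ₑ ^ 2 ≤ 2 * ∫⁻ x, ‖g x‖ₑ ^ 4 := by
    have hm22 : Measurable (fun x => ‖g x‖ₑ ^ 2 * ‖g (x - a)‖ₑ ^ 2) := hm2.mul hm2'
    rw [← lintegral_const_mul _ hm22]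
    calc ∫⁻ x, 2 * (‖g x‖ₑ ^ 2 * ‖g (x - a)‖ₑ ^ 2)
        ≤ ∫⁻ x, (‖g x‖ₑ ^ 4 + ‖g (x - a)‖ₑ ^ 4) := by
          refine lintegral_mono fun x => ?_
          refine (two_mul_mul_le _ _).trans (le_of_eq ?_)
          rw [← pow_mul, ← pow_mul]
      _ = (∫⁻ x, ‖g x‖ₑ ^ 4) + ∫⁻ x, ‖g (x - a)‖ₑ ^ 4 := lintegral_add_left hm4 _
      _ = _ := by
          rw [lintegral_sub_right_eq_self (fun x => ‖g x‖ₑ ^ 4) a, two_mul]
  exact (ENNReal.mul_le_mul_iff_right (by norm_num) (by norm_num)).1 key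

/-- A kernel integral which factorises. -/
theorem lintegral_four {A B : ℝ → ℝ → ℝ≥0∞} (hA : Measurable (Function.uncurry A))
    (hB : Measurable (Function.uncurry B)) :
    ∫⁻ Y : (ℝ × ℝ) × (ℝ × ℝ), A Y.1.1 Y.2.1 * B Y.1.2 Y.2.2 ∂(νI.prod νI) =
      (∫⁻ y : ℝ × ℝ, A y.1 y.2 ∂(μI.prod μI)) * ∫⁻ y : ℝ × ℝ, B y.1 y.2 ∂(μI.prod μI) := by
  have hA' : ∀ y : ℝ, Measurable (A y) := fun y => hA.comp (measurable_const.prodMk measurable_id)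
  have hB' : ∀ y : ℝ, Measurable (B y) := fun y => hB.comp (measurable_const.prodMk measurable_id)
  have e1 : Measurable (fun Y : (ℝ × ℝ) × (ℝ × ℝ) => A Y.1.1 Y.2.1) := by
    have : (fun Y : (ℝ × ℝ) × (ℝ × ℝ) => A Y.1.1 Y.2.1) =
      Function.uncurry A ∘ (fun Y : (ℝ × ℝ) × (ℝ × ℝ) => (Y.1.1, Y.2.1)) := rfl
    rw [this]; exact hA.comp (by fun_prop)
  have e2 : Measurable (fun Y : (ℝ × ℝ) × (ℝ × ℝ) => B Y.1.2 Y.2.2) := by
    have : (fun Y : (ℝ × ℝ) × (ℝ × ℝ) => B Y.1.2 Y.2.2) =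
      Function.uncurry B ∘ (fun Y : (ℝ × ℝ) × (ℝ × ℝ) => (Y.1.2, Y.2.2)) := rfl
    rw [this]; exact hB.comp (by fun_prop)
  have e12 : Measurable (fun Y : (ℝ × ℝ) × (ℝ × ℝ) => A Y.1.1 Y.2.1 * B Y.1.2 Y.2.2) := e1.mul e2
  rw [lintegral_prod _ e12.aemeasurable]
  have h1 : ∀ y : ℝ × ℝ, ∫⁻ y' : ℝ × ℝ, A y.1 y'.1 * B y.2 y'.2 ∂νI =
      (∫⁻ t, A y.1 t ∂μI) * ∫⁻ t, B y.2 t ∂μI := by
    intro y
    unfold νI
    exact lintegral_prod_mul (hA' _).aemeasurable (hB' _).aemeasurable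
  have hmA : Measurable (fun y : ℝ => ∫⁻ t, A y t ∂μI) := hA.lintegral_prod_right'
  have hmB : Measurable (fun y : ℝ => ∫⁻ t, B y t ∂μI) := hB.lintegral_prod_right'
  calc _ = ∫⁻ y : ℝ × ℝ, (∫⁻ t, A y.1 t ∂μI) * (∫⁻ t, B y.2 t ∂μI) ∂νI :=
        lintegral_congr fun y => h1 y
    _ = (∫⁻ y, ∫⁻ t, A y t ∂μI ∂μI) * ∫⁻ y, ∫⁻ t, B y t ∂μI ∂μI := by
        unfold νI
        exact lintegral_prod_mul hmA.aemeasurable hmB.aemeasurable
    _ = _ := by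
        have hA2 : ∫⁻ y : ℝ × ℝ, A y.1 y.2 ∂(μI.prod μI) = ∫⁻ y, ∫⁻ t, A y t ∂μI ∂μI :=
          lintegral_prod (Function.uncurry A) hA.aemeasurable
        have hB2 : ∫⁻ y : ℝ × ℝ, B y.1 y.2 ∂(μI.prod μI) = ∫⁻ y, ∫⁻ t, B y t ∂μI ∂μI :=
          lintegral_prod (Function.uncurry B) hB.aemeasurable
        rw [hA2, hB2]

/-- The inner kernel integral. -/
theorem kernel_inner2 {ε δ θ : ℝ} (hδ : 0 < δ) (hθ : 0 < θ) (hθ1 : θ < 1)
    (a b a' b' : ℝ) :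
    ∫⁻ Y : (ℝ × ℝ) × (ℝ × ℝ), (ENNReal.ofReal (gk ε (a - (Y.1.1 - Y.2.1))) *
        ENNReal.ofReal (gk δ (b - (Y.1.1 ^ 2 - Y.2.1 ^ 2)))) *
      (ENNReal.ofReal (gk ε (a' - (Y.1.2 - Y.2.2))) *
        ENNReal.ofReal (gk δ (b' - (Y.1.2 ^ 2 - Y.2.2 ^ 2)))) ∂(νI.prod νI) ≤
      mk ε δ θ a * mk ε δ θ a' := by
  have mε : Measurable fun x => ENNReal.ofReal (gk ε x) :=
    (continuous_gk ε).measurable.ennreal_ofReal
  have mδ : Measurable fun x => ENNReal.ofReal (gk δ x) :=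
    (continuous_gk δ).measurable.ennreal_ofReal
  have hm : ∀ a b : ℝ, Measurable (fun Y : ℝ × ℝ => ENNReal.ofReal (gk ε (a - (Y.1 - Y.2))) *
      ENNReal.ofReal (gk δ (b - (Y.1 ^ 2 - Y.2 ^ 2)))) := fun a b =>
    (mε.comp (by fun_prop : Measurable fun Y : ℝ × ℝ => a - (Y.1 - Y.2))).mul
      (mδ.comp (by fun_prop : Measurable fun Y : ℝ × ℝ => b - (Y.1 ^ 2 - Y.2 ^ 2)))
  have h := lintegral_four
    (A := fun y t => ENNReal.ofReal (gk ε (a - (y - t))) *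
      ENNReal.ofReal (gk δ (b - (y ^ 2 - t ^ 2))))
    (B := fun y t => ENNReal.ofReal (gk ε (a' - (y - t))) *
      ENNReal.ofReal (gk δ (b' - (y ^ 2 - t ^ 2)))) (hm a b) (hm a' b')
  refine h.le.trans ?_
  exact mul_le_mul' (kernel_inner hδ hθ hθ1 a b) (kernel_inner hδ hθ hθ1 a' b')

theorem lintegral_mk2 {ε δ θ : ℝ} :
    ∫⁻ a : ℝ × ℝ, mk ε δ θ a.1 * mk ε δ θ a.2 = (∫⁻ a, mk ε δ θ a) * ∫⁻ a, mk ε δ θ a := by
  rw [Measure.volume_eq_prod]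
  exact lintegral_prod_mul (measurable_mk ε δ θ).aemeasurable (measurable_mk ε δ θ).aemeasurable

/-- The weighted fourth power estimate. -/
theorem E2_weighted {f : ℝ × ℝ → ℂ} (hf : Measurable f) (hf0 : ∀ x, x ∉ QQ → f x = 0)
    {δ θ : ℝ} (hδ : 0 < δ) (hθ : 0 < θ) (hθ1 : θ < 1) :
    ∫⁻ w : (ℝ × ℝ) × (ℝ × ℝ), ‖E2 f w‖ₑ ^ 4 *
        ENNReal.ofReal (Real.exp (-δ * w.1.2 ^ 2) * Real.exp (-δ * w.2.2 ^ 2)) ≤
      (ENNReal.ofReal (2 * Real.pi) * (ENNReal.ofReal (√(Real.pi / δ)) ^ θ *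
        ENNReal.ofReal (4 * (2 / θ)))) ^ 2 * ∫⁻ x, ‖f x‖ₑ ^ 4 := by
  refine lintegral_le_of_weights (ρ := fun (n : ℕ) (w : (ℝ × ℝ) × (ℝ × ℝ)) =>
    Real.exp (-(1 / ((n : ℝ) + 1)) * w.1.1 ^ 2) * Real.exp (-(1 / ((n : ℝ) + 1)) * w.2.1 ^ 2))
    ?_ (fun n => by fun_prop) (fun w => ?_) (fun n => ?_)
  · have := (measurable_E2 hf).enorm.pow_const 4
    exact this.mul (by fun_prop)
  · have := (tendsto_weight w.1.1).mul (tendsto_weight w.2.1)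
    simpa using this
  · have hε : 0 < 1 / ((n : ℝ) + 1) := by positivity
    set ε := 1 / ((n : ℝ) + 1) with hεdef
    have hgood := (((good_gauss hε).prod (good_gauss hδ)).prod
      ((good_gauss hε).prod (good_gauss hδ))).lintegral_le
      (μ := νI.prod νI) (s := sz) measurable_sz
      (fun z => f z.1 * (starRingEnd ℂ) (f z.2))
    have hm2 : Measurable (fun x => ‖f x‖ₑ ^ 2) := hf.enorm.pow_const 2
    have hmk := measurable_mk ε δ θ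
    have hmk2 : Measurable (fun a : ℝ × ℝ => mk ε δ θ a.1 * mk ε δ θ a.2) :=
      (hmk.comp measurable_fst).mul (hmk.comp measurable_snd)
    calc ∫⁻ w : (ℝ × ℝ) × (ℝ × ℝ), ‖E2 f w‖ₑ ^ 4 *
          ENNReal.ofReal (Real.exp (-δ * w.1.2 ^ 2) * Real.exp (-δ * w.2.2 ^ 2)) *
          ENNReal.ofReal (Real.exp (-ε * w.1.1 ^ 2) * Real.exp (-ε * w.2.1 ^ 2))
        = ∫⁻ w : (ℝ × ℝ) × (ℝ × ℝ), ‖∫ z : (ℝ × ℝ) × (ℝ × ℝ),
          u ((w.1.1 * (sz z).1.1 + w.1.2 * (sz z).1.2) +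
            (w.2.1 * (sz z).2.1 + w.2.2 * (sz z).2.2)) *
          (f z.1 * (starRingEnd ℂ) (f z.2)) ∂(νI.prod νI)‖ₑ ^ 2 *
          ENNReal.ofReal ((Real.exp (-ε * w.1.1 ^ 2) * Real.exp (-δ * w.1.2 ^ 2)) *
            (Real.exp (-ε * w.2.1 ^ 2) * Real.exp (-δ * w.2.2 ^ 2))) := by
          refine lintegral_congr fun w => ?_
          rw [E2_pow_four hf0, mul_assoc, ← ENNReal.ofReal_mul (by positivity)]
          congr 2
          ring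
      _ ≤ ∫⁻ z : (ℝ × ℝ) × (ℝ × ℝ), ‖f z.1 * (starRingEnd ℂ) (f z.2)‖ₑ ^ 2 *
          ∫⁻ Y : (ℝ × ℝ) × (ℝ × ℝ),
            (ENNReal.ofReal (gk ε ((z.1.1 - z.2.1) - (Y.1.1 - Y.2.1))) *
            ENNReal.ofReal (gk δ ((z.1.1 ^ 2 - z.2.1 ^ 2) - (Y.1.1 ^ 2 - Y.2.1 ^ 2)))) *
            (ENNReal.ofReal (gk ε ((z.1.2 - z.2.2) - (Y.1.2 - Y.2.2))) *
            ENNReal.ofReal (gk δ ((z.1.2 ^ 2 - z.2.2 ^ 2) - (Y.1.2 ^ 2 - Y.2.2 ^ 2))))
            ∂(νI.prod νI) ∂(νI.prod νI) := hgood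
      _ ≤ ∫⁻ z : (ℝ × ℝ) × (ℝ × ℝ), ‖f z.1 * (starRingEnd ℂ) (f z.2)‖ₑ ^ 2 *
          (mk ε δ θ (z.1.1 - z.2.1) * mk ε δ θ (z.1.2 - z.2.2)) ∂(νI.prod νI) := by
          refine lintegral_mono fun z => ?_
          exact mul_le_mul' le_rfl (kernel_inner2 hδ hθ hθ1 _ _ _ _)
      _ ≤ ∫⁻ z : (ℝ × ℝ) × (ℝ × ℝ), (‖f z.1‖ₑ ^ 2 * ‖f z.2‖ₑ ^ 2) *
          (mk ε δ θ (z.1 - z.2).1 * mk ε δ θ (z.1 - z.2).2) := by
          have e : (νI.prod νI) = (volume : Measure ((ℝ × ℝ) × (ℝ × ℝ))).restrict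
              (QQ ×ˢ QQ) := by
            rw [νI_eq, Measure.prod_restrict]; rfl
          rw [e]
          refine (setLIntegral_le_lintegral _ _).trans (le_of_eq ?_)
          refine lintegral_congr fun z => ?_
          have e3 : ‖(starRingEnd ℂ) (f z.2)‖ₑ = ‖f z.2‖ₑ := by
            rw [← ofReal_norm, RCLike.norm_conj, ofReal_norm]
          rw [enorm_mul, e3, mul_pow]
          rfl
      _ = ∫⁻ x : ℝ × ℝ, ∫⁻ y : ℝ × ℝ, (‖f x‖ₑ ^ 2 * ‖f y‖ₑ ^ 2) *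
          (mk ε δ θ (x - y).1 * mk ε δ θ (x - y).2) := by
          rw [Measure.volume_eq_prod, lintegral_prod]
          exact ((hm2.comp measurable_fst).mul (hm2.comp measurable_snd)).mul
            (hmk2.comp (measurable_fst.sub measurable_snd)) |>.aemeasurable
      _ = ∫⁻ x : ℝ × ℝ, ∫⁻ a : ℝ × ℝ, (‖f x‖ₑ ^ 2 * ‖f (x - a)‖ₑ ^ 2) *
          (mk ε δ θ a.1 * mk ε δ θ a.2) := by
          refine lintegral_congr fun x => ?_
          rw [← lintegral_sub_left_eq_self (fun y => (‖f x‖ₑ ^ 2 * ‖f y‖ₑ ^ 2) *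
            (mk ε δ θ (x - y).1 * mk ε δ θ (x - y).2)) x]
          refine lintegral_congr fun a => ?_
          rw [sub_sub_cancel]
      _ = ∫⁻ a : ℝ × ℝ, ∫⁻ x : ℝ × ℝ, (‖f x‖ₑ ^ 2 * ‖f (x - a)‖ₑ ^ 2) *
          (mk ε δ θ a.1 * mk ε δ θ a.2) := by
          refine lintegral_lintegral_swap (Measurable.aemeasurable ?_)
          exact ((hm2.comp measurable_fst).mul (hm2.comp (measurable_fst.sub
            measurable_snd))).mul (hmk2.comp measurable_snd)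
      _ = ∫⁻ a : ℝ × ℝ, (∫⁻ x : ℝ × ℝ, ‖f x‖ₑ ^ 2 * ‖f (x - a)‖ₑ ^ 2) *
          (mk ε δ θ a.1 * mk ε δ θ a.2) := by
          refine lintegral_congr fun a => ?_
          have hm3 : Measurable fun x => ‖f x‖ₑ ^ 2 * ‖f (x - a)‖ₑ ^ 2 :=
            hm2.mul (hm2.comp (measurable_id.sub measurable_const))
          rw [lintegral_mul_const _ hm3]
      _ ≤ ∫⁻ a : ℝ × ℝ, (∫⁻ x, ‖f x‖ₑ ^ 4) * (mk ε δ θ a.1 * mk ε δ θ a.2) := by
          refine lintegral_mono fun a => ?_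
          exact mul_le_mul' (autocorr2 hf a) le_rfl
      _ = ((∫⁻ a, mk ε δ θ a) * ∫⁻ a, mk ε δ θ a) * ∫⁻ x, ‖f x‖ₑ ^ 4 := by
          rw [lintegral_const_mul _ hmk2, mul_comm, lintegral_mk2]
      _ ≤ _ := by
          rw [lintegral_mk hε, sq]
          gcongr
          · exact lintegral_Bk hθ hθ1
          · exact lintegral_Bk hθ hθ1

end Pool.Agent.Dil.L4_

namespace Pool.Agent.Dil

open MeasureTheory Set Filter
open Pool.Agent.Restr (u E QQ)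
open scoped ENNReal NNReal Topology

theorem p_L4 : T_L4 := by
  intro η hη
  set θ : ℝ := min (η / 2) (1 / 2) with hθdef
  have hθ : 0 < θ := lt_min (by positivity) (by norm_num)
  have hθ1 : θ < 1 := lt_of_le_of_lt (min_le_right _ _) (by norm_num)
  have hθη : 2 * θ ≤ η := by
    have := min_le_left (η / 2) (1 / 2 : ℝ)
    rw [← hθdef] at this; linarith
  set c : ℝ := Real.exp 2 * ((2 * Real.pi) ^ 2 * (Real.pi * (4 * (2 / θ)) ^ 2)) with hc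
  have hc0 : 0 ≤ c := by positivity
  refine ⟨c.toNNReal, fun f hf hf0 R hR => ?_⟩
  have hR0 : 0 < R := by linarith
  have hδ : 0 < 1 / R ^ 2 := by positivity
  have hw := L4_.E2_weighted hf hf0 hδ hθ hθ1
  have hset : MeasurableSet {w : (ℝ × ℝ) × (ℝ × ℝ) | |w.1.2| ≤ R ∧ |w.2.2| ≤ R} := by
    have m1 : Measurable fun w : (ℝ × ℝ) × (ℝ × ℝ) => |w.1.2| :=
      continuous_abs.measurable.comp (measurable_snd.comp measurable_fst)
    have m2 : Measurable fun w : (ℝ × ℝ) × (ℝ × ℝ) => |w.2.2| :=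
      continuous_abs.measurable.comp (measurable_snd.comp measurable_snd)
    exact (measurableSet_le m1 measurable_const).inter (measurableSet_le m2 measurable_const)
  have hexp : ∀ a : ℝ, |a| ≤ R → Real.exp (-1) ≤ Real.exp (-(1 / R ^ 2) * a ^ 2) := by
    intro a ha
    apply Real.exp_le_exp.2
    have h1 : a ^ 2 ≤ R ^ 2 := by
      rw [← sq_abs a]; exact pow_le_pow_left₀ (abs_nonneg _) ha 2
    have h2 : 1 / R ^ 2 * a ^ 2 ≤ 1 := by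
      rw [div_mul_eq_mul_div, one_mul, div_le_one (by positivity)]; exact h1
    linarith
  calc ∫⁻ w : (ℝ × ℝ) × (ℝ × ℝ) in {w | |w.1.2| ≤ R ∧ |w.2.2| ≤ R}, ‖E2 f w‖ₑ ^ 4
      ≤ ∫⁻ w : (ℝ × ℝ) × (ℝ × ℝ) in {w | |w.1.2| ≤ R ∧ |w.2.2| ≤ R},
        ENNReal.ofReal (Real.exp 2) * (‖E2 f w‖ₑ ^ 4 *
        ENNReal.ofReal (Real.exp (-(1 / R ^ 2) * w.1.2 ^ 2) *
          Real.exp (-(1 / R ^ 2) * w.2.2 ^ 2))) := by
        refine setLIntegral_mono' hset fun w hw => ?_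
        have h1 : 1 ≤ ENNReal.ofReal (Real.exp 2) *
            ENNReal.ofReal (Real.exp (-(1 / R ^ 2) * w.1.2 ^ 2) *
          Real.exp (-(1 / R ^ 2) * w.2.2 ^ 2)) := by
          rw [← ENNReal.ofReal_mul (Real.exp_pos _).le, ← ENNReal.ofReal_one]
          apply ENNReal.ofReal_le_ofReal
          calc (1 : ℝ) = Real.exp 2 * (Real.exp (-1) * Real.exp (-1)) := by
                rw [← Real.exp_add, ← Real.exp_add]; norm_num
            _ ≤ _ := by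
                have h2 := hexp _ hw.1
                have h3 := hexp _ hw.2
                gcongr
        calc ‖E2 f w‖ₑ ^ 4 = ‖E2 f w‖ₑ ^ 4 * 1 := (mul_one _).symm
          _ ≤ ‖E2 f w‖ₑ ^ 4 * (ENNReal.ofReal (Real.exp 2) *
            ENNReal.ofReal (Real.exp (-(1 / R ^ 2) * w.1.2 ^ 2) *
            Real.exp (-(1 / R ^ 2) * w.2.2 ^ 2))) := by gcongr
          _ = _ := by ring
    _ ≤ ∫⁻ w : (ℝ × ℝ) × (ℝ × ℝ), ENNReal.ofReal (Real.exp 2) * (‖E2 f w‖ₑ ^ 4 *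
        ENNReal.ofReal (Real.exp (-(1 / R ^ 2) * w.1.2 ^ 2) *
          Real.exp (-(1 / R ^ 2) * w.2.2 ^ 2))) := setLIntegral_le_lintegral _ _
    _ = ENNReal.ofReal (Real.exp 2) * ∫⁻ w : (ℝ × ℝ) × (ℝ × ℝ), (‖E2 f w‖ₑ ^ 4 *
        ENNReal.ofReal (Real.exp (-(1 / R ^ 2) * w.1.2 ^ 2) *
          Real.exp (-(1 / R ^ 2) * w.2.2 ^ 2))) := by
        refine lintegral_const_mul _ ?_
        exact ((L4_.measurable_E2 hf).enorm.pow_const 4).mul (by fun_prop)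
    _ ≤ ENNReal.ofReal (Real.exp 2) * ((ENNReal.ofReal (2 * Real.pi) *
        (ENNReal.ofReal (√(Real.pi / (1 / R ^ 2))) ^ θ *
        ENNReal.ofReal (4 * (2 / θ)))) ^ 2 * ∫⁻ x, ‖f x‖ₑ ^ 4) := by gcongr
    _ ≤ _ := by
        rw [← mul_assoc]
        refine mul_le_mul' ?_ le_rfl
        have hs0 : 0 ≤ √(Real.pi / (1 / R ^ 2)) := Real.sqrt_nonneg _
        rw [ENNReal.ofReal_rpow_of_nonneg hs0 hθ.le, ← ENNReal.ofReal_mul (by positivity),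
          ← ENNReal.ofReal_mul (by positivity), ← ENNReal.ofReal_pow (by positivity),
          ← ENNReal.ofReal_mul (by positivity)]
        rw [← ENNReal.ofReal_coe_nnreal, Real.coe_toNNReal _ hc0,
          ← ENNReal.ofReal_mul hc0]
        apply ENNReal.ofReal_le_ofReal
        have h1 : √(Real.pi / (1 / R ^ 2)) = √Real.pi * R := by
          rw [div_div_eq_mul_div, div_one, Real.sqrt_mul Real.pi_pos.le, Real.sqrt_sq hR0.le]
        have h2 : ((√Real.pi * R) ^ θ) ^ 2 ≤ Real.pi * R ^ η := by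
          have e1 : ((√Real.pi * R) ^ θ) ^ 2 = Real.pi ^ θ * R ^ (2 * θ) := by
            rw [Real.mul_rpow (Real.sqrt_nonneg _) hR0.le, mul_pow]
            congr 1
            · rw [← Real.rpow_natCast, ← Real.rpow_mul (Real.sqrt_nonneg _), mul_comm,
                Real.rpow_mul (Real.sqrt_nonneg _)]
              congr 1
              rw [Real.rpow_natCast, Real.sq_sqrt Real.pi_pos.le]
            · rw [← Real.rpow_natCast, ← Real.rpow_mul hR0.le, mul_comm]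
              norm_num
          rw [e1]
          have e2 : Real.pi ^ θ ≤ Real.pi := by
            calc Real.pi ^ θ ≤ Real.pi ^ (1 : ℝ) :=
                  Real.rpow_le_rpow_of_exponent_le (by linarith [Real.pi_gt_three]) hθ1.le
              _ = _ := Real.rpow_one _
          have e3 : R ^ (2 * θ) ≤ R ^ η := Real.rpow_le_rpow_of_exponent_le hR hθη
          have e4 : 0 ≤ R ^ (2 * θ) := by positivity
          have e5 := Real.pi_pos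
          exact mul_le_mul e2 e3 e4 e5.le
        rw [h1]
        calc Real.exp 2 * (2 * Real.pi * ((√Real.pi * R) ^ θ * (4 * (2 / θ)))) ^ 2
            = Real.exp 2 * ((2 * Real.pi) ^ 2 * ((((√Real.pi * R) ^ θ) ^ 2) *
              (4 * (2 / θ)) ^ 2)) := by ring
          _ ≤ Real.exp 2 * ((2 * Real.pi) ^ 2 * ((Real.pi * R ^ η) *
              (4 * (2 / θ)) ^ 2)) := by gcongr
          _ = _ := by rw [hc]; ring

end Pool.Agent.Dil
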