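import Mathlib
import Pool.Agent.Dil.Targets

/-!
# From indicator functions to functions
-/

namespace Pool.Agent.Dil

open MeasureTheory Set Filter
open Pool.Agent.Restr (u E QQ measurable_u measurable_E eLpNorm_le_one support_QQ vol_QQ)
open Pool.Agent.H27.Fib (ind Ls vr layer mink cheb enorm_E_le measurableSet_Ls ofReal_vr vr_nonneg
  pp measurable_pp E_add E_const_mul four_parts)
open scoped ENNReal NNReal

namespace LAY_

/-- Truncation of the parameter. -/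
noncomputable def kp (θ : ℝ) : ℝ := max 1 θ

theorem one_le_kp (θ : ℝ) : 1 ≤ kp θ := le_max_left _ _

theorem kp_eq {θ : ℝ} (h : θ ∈ Icc (1 : ℝ) 2) : kp θ = θ := max_eq_right h.1

theorem measurable_kp : Measurable kp := measurable_const.max measurable_id

/-- The extension of the dilates, as a function of all the variables. -/
noncomputable def ZZ (f : ℝ × ℝ → ℂ) (z : ℝ × ℝ × (ℝ × ℝ)) : ℂ :=
  E (dil (kp z.1) f) (z.2.2.1, z.2.2.2, z.2.1)

theorem measurable_ZZ {f : ℝ × ℝ → ℂ} (hf : Measurable f) : Measurable (ZZ f) := by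
  have h1 : StronglyMeasurable (fun z : ℝ × ℝ × (ℝ × ℝ) => ∫ x : ℝ × ℝ,
      u (z.2.2.1 * x.1 + (z.2.2.2 * x.2 + z.2.1 * (x.1 ^ 2 + x.2 ^ 2))) *
        f (x.1, kp z.1 * x.2)) := by
    apply StronglyMeasurable.integral_prod_right
      (f := fun (z : ℝ × ℝ × (ℝ × ℝ)) (x : ℝ × ℝ) =>
        u (z.2.2.1 * x.1 + (z.2.2.2 * x.2 + z.2.1 * (x.1 ^ 2 + x.2 ^ 2))) *
        f (x.1, kp z.1 * x.2))
    apply Measurable.stronglyMeasurable
    refine (measurable_u.comp (by fun_prop)).mul (hf.comp ?_)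
    have h2 : Measurable fun y : (ℝ × ℝ × (ℝ × ℝ)) × (ℝ × ℝ) => kp y.1.1 :=
      measurable_kp.comp (measurable_fst.comp measurable_fst)
    exact (measurable_fst.comp measurable_snd).prodMk
      (h2.mul (measurable_snd.comp measurable_snd))
  exact h1.measurable

theorem measurable_layer {G : ℝ × ℝ → ℝ} (hG : Measurable G) :
    Measurable (Function.uncurry fun (z : ℝ × ℝ × (ℝ × ℝ)) (l : ℝ) =>
      ‖ZZ (ind (Ls G l)) z‖ₑ) := by
  have h1 : StronglyMeasurable fun z : (ℝ × ℝ × (ℝ × ℝ)) × ℝ => ∫ x : ℝ × ℝ,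
      u (z.1.2.2.1 * x.1 + (z.1.2.2.2 * x.2 + z.1.2.1 * (x.1 ^ 2 + x.2 ^ 2))) *
        ind (Ls G z.2) (x.1, kp z.1.1 * x.2) := by
    apply StronglyMeasurable.integral_prod_right
      (f := fun (z : (ℝ × ℝ × (ℝ × ℝ)) × ℝ) (x : ℝ × ℝ) =>
      u (z.1.2.2.1 * x.1 + (z.1.2.2.2 * x.2 + z.1.2.1 * (x.1 ^ 2 + x.2 ^ 2))) *
        ind (Ls G z.2) (x.1, kp z.1.1 * x.2))
    apply Measurable.stronglyMeasurable
    have h2 : Measurable fun y : ((ℝ × ℝ × (ℝ × ℝ)) × ℝ) × (ℝ × ℝ) => kp y.1.1.1 :=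
      measurable_kp.comp (measurable_fst.comp (measurable_fst.comp measurable_fst))
    have h3 : Measurable fun y : ((ℝ × ℝ × (ℝ × ℝ)) × ℝ) × (ℝ × ℝ) =>
        (y.2.1, kp y.1.1.1 * y.2.2) :=
      (measurable_fst.comp measurable_snd).prodMk (h2.mul (measurable_snd.comp measurable_snd))
    have hs : MeasurableSet {y : ((ℝ × ℝ × (ℝ × ℝ)) × ℝ) × (ℝ × ℝ) |
        y.1.2 < G (y.2.1, kp y.1.1.1 * y.2.2)} :=
      measurableSet_lt (measurable_snd.comp measurable_fst) (hG.comp h3)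
    have h4 : Measurable fun y : ((ℝ × ℝ × (ℝ × ℝ)) × ℝ) × (ℝ × ℝ) =>
        u (y.1.1.2.2.1 * y.2.1 + (y.1.1.2.2.2 * y.2.2 +
          y.1.1.2.1 * (y.2.1 ^ 2 + y.2.2 ^ 2))) :=
      measurable_u.comp (by fun_prop)
    have h5 : Measurable ({y : ((ℝ × ℝ × (ℝ × ℝ)) × ℝ) × (ℝ × ℝ) |
        y.1.2 < G (y.2.1, kp y.1.1.1 * y.2.2)}.indicator
        fun _ => (1 : ℂ)) := measurable_const.indicator hs
    exact h4.mul h5
  exact h1.measurable.enorm

theorem blk_eq {q : ℝ} {μ : Measure ℝ} [IsFiniteMeasure μ] (hμ : μ (Icc 1 2)ᶜ = 0)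
    {I : Set ℝ} {f : ℝ × ℝ → ℂ} (hf : Measurable f) :
    blk q μ I f = ∫⁻ z, ‖ZZ f z‖ₑ ^ q ∂(μ.prod ((volume.restrict I).prod volume)) := by
  have hm : Measurable fun z : ℝ × ℝ × (ℝ × ℝ) => ‖ZZ f z‖ₑ ^ q :=
    (measurable_ZZ hf).enorm.pow_const _
  rw [lintegral_prod _ hm.aemeasurable]
  unfold blk
  have hae : ∀ᵐ θ ∂μ, θ ∈ Icc (1 : ℝ) 2 := by
    rw [ae_iff]
    exact hμ
  refine lintegral_congr_ae ?_
  filter_upwards [hae] with θ hθ
  have hm' : Measurable fun z : ℝ × (ℝ × ℝ) => ‖ZZ f (θ, z)‖ₑ ^ q :=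
    hm.comp measurable_prodMk_left
  rw [lintegral_prod _ hm'.aemeasurable]
  refine lintegral_congr fun t => ?_
  unfold sl
  refine lintegral_congr fun w => ?_
  change _ = ‖E (dil (kp θ) f) (w.1, w.2, t)‖ₑ ^ q
  rw [kp_eq hθ]

theorem lintegral_dil_le {h : ℝ × ℝ → ℝ≥0∞} (hh : Measurable h) {θ : ℝ} (hθ : 1 ≤ θ) :
    ∫⁻ x : ℝ × ℝ, h (x.1, θ * x.2) ≤ ∫⁻ x, h x := by
  have hm : Measurable fun x : ℝ × ℝ => h (x.1, θ * x.2) := hh.comp (by fun_prop)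
  rw [Measure.volume_eq_prod, lintegral_prod _ hm.aemeasurable, lintegral_prod _ hh.aemeasurable]
  refine lintegral_mono fun x => ?_
  have hθ0 : θ ≠ 0 := by linarith
  have h1 : Measurable fun y => h (x, y) := hh.comp measurable_prodMk_left
  have h2 : ∫⁻ y, h (x, θ * y) = ∫⁻ y, h (x, y) ∂(Measure.map (θ * ·) volume) :=
    (lintegral_map h1 (measurable_const_mul θ)).symm
  change ∫⁻ y, h (x, θ * y) ≤ ∫⁻ y, h (x, y)
  rw [h2, Real.map_volume_mul_left hθ0, lintegral_smul_measure, smul_eq_mul]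
  have h3 : ENNReal.ofReal |θ⁻¹| ≤ 1 := by
    rw [← ENNReal.ofReal_one]
    apply ENNReal.ofReal_le_ofReal
    rw [abs_of_pos (by positivity)]
    exact inv_le_one_of_one_le₀ hθ
  calc ENNReal.ofReal |θ⁻¹| * ∫⁻ y, h (x, y) ≤ 1 * ∫⁻ y, h (x, y) := by gcongr
    _ = _ := one_mul _

theorem integrable_dil {F : Type*} [NormedAddCommGroup F] [MeasurableSpace F] [BorelSpace F]
    [SecondCountableTopology F] {G : ℝ × ℝ → F} (hG : Measurable G) (hi : Integrable G)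
    {θ : ℝ} (hθ : 1 ≤ θ) : Integrable fun x : ℝ × ℝ => G (x.1, θ * x.2) := by
  have hm : Measurable fun x : ℝ × ℝ => G (x.1, θ * x.2) := hG.comp (by fun_prop)
  refine ⟨hm.aestronglyMeasurable, ?_⟩
  exact lt_of_le_of_lt (lintegral_dil_le (h := fun x => ‖G x‖ₑ) hG.enorm hθ) hi.2

/-- The case of non-negative functions. -/
theorem nonneg_case {q p r : ℝ} (hq : 1 < q) (hp : 1 < p) (hr : 0 < r) (hqpr : q < p * r) :
    ∃ C : ℝ≥0, ∀ (μ : Measure ℝ) [IsFiniteMeasure μ], μ (Icc 1 2)ᶜ = 0 → ∀ I : Set ℝ,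
    ∀ D : ℝ≥0∞,
    (∀ A : Set (ℝ × ℝ), MeasurableSet A → A ⊆ QQ → blk q μ I (ind A) ≤ D * volume A ^ r) →
    ∀ G : ℝ × ℝ → ℝ, Measurable G → (∀ x, x ∉ QQ → G x = 0) → (∀ x, 0 ≤ G x) →
    eLpNorm G (ENNReal.ofReal p) volume ≠ ⊤ →
    blk q μ I (fun x => ((G x : ℝ) : ℂ)) ≤
      C * D * eLpNorm G (ENNReal.ofReal p) volume ^ q := by
  have hq0 : 0 < q := by linarith
  have hp0 : 0 < p := by linarith
  set s : ℝ := r / q with hs
  have hs0 : 0 < s := div_pos hr hq0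
  have hps : 1 < p * s := by
    rw [hs, mul_div_assoc', lt_div_iff₀ hq0, one_mul]
    exact hqpr
  set K : ℝ := 1 + 1 / (p * s - 1) with hK
  have hK0 : 0 < K := by
    have : 0 < p * s - 1 := by linarith
    positivity
  refine ⟨K.toNNReal ^ q + 1, fun μ _ hμ I D hD G hG hG0 hGn htop => ?_⟩
  have h1p : (1 : ℝ≥0∞) ≤ ENNReal.ofReal p := by
    rw [← ENNReal.ofReal_one]
    exact ENNReal.ofReal_le_ofReal (by linarith)
  have hL1 : eLpNorm G 1 volume ≤ eLpNorm G (ENNReal.ofReal p) volume := by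
    refine eLpNorm_le_one (s := QQ) ?_ h1p hG.aestronglyMeasurable vol_QQ
    intro x hx
    by_contra hn
    exact hx (hG0 x hn)
  have hint : Integrable G := by
    rw [← memLp_one_iff_integrable]
    exact ⟨hG.aestronglyMeasurable, lt_of_le_of_lt hL1 (lt_top_iff_ne_top.2 htop)⟩
  have hGc : Measurable fun x => ((G x : ℝ) : ℂ) := Complex.measurable_ofReal.comp hG
  rw [blk_eq hμ hGc]
  have hB : ∫⁻ x, ‖((G x : ℝ) : ℂ)‖ₑ ≠ ⊤ := by
    have h1 := hint.ofReal (𝕜 := ℂ)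
    exact h1.2.ne
  have hΦB : ∀ z, ‖ZZ (fun x => ((G x : ℝ) : ℂ)) z‖ₑ ≤ ∫⁻ x, ‖((G x : ℝ) : ℂ)‖ₑ := by
    intro z
    refine (enorm_E_le _ _).trans ?_
    exact lintegral_dil_le (h := fun x => ‖((G x : ℝ) : ℂ)‖ₑ) hGc.enorm (one_le_kp z.1)
  rcases eq_or_ne (eLpNorm G (ENNReal.ofReal p) volume) 0 with hz | hz
  · have h1 : ∫⁻ x, ‖((G x : ℝ) : ℂ)‖ₑ = 0 := by
      have h2 : eLpNorm G 1 volume = 0 := le_antisymm (hL1.trans hz.le) bot_le
      rw [eLpNorm_one_eq_lintegral_enorm] at h2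
      rw [← h2]
      refine lintegral_congr fun x => ?_
      rw [← ofReal_norm, ← ofReal_norm, Complex.norm_real]
    have h3 : ∀ z, ‖ZZ (fun x => ((G x : ℝ) : ℂ)) z‖ₑ ^ q = 0 := by
      intro z
      have h4 := hΦB z
      rw [h1] at h4
      rw [le_antisymm h4 bot_le, ENNReal.zero_rpow_of_pos hq0]
    simp only [h3, lintegral_zero]
    exact bot_le
  rcases eq_or_ne D ⊤ with hDt | hDt
  · have h1 : ((K.toNNReal ^ q + 1 : ℝ≥0) : ℝ≥0∞) * D *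
        eLpNorm G (ENNReal.ofReal p) volume ^ q = ⊤ := by
      rw [hDt, ENNReal.mul_top, ENNReal.top_mul]
      · intro h
        rw [ENNReal.rpow_eq_zero_iff] at h
        rcases h with h | h
        · exact hz h.1
        · linarith [h.2]
      · simp
    rw [h1]
    exact le_top
  set N : ℝ := (eLpNorm G (ENNReal.ofReal p) volume).toReal with hN
  have hN0 : 0 < N := ENNReal.toReal_pos hz htop
  have hGN : eLpNorm G (ENNReal.ofReal p) volume = ENNReal.ofReal N :=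
    (ENNReal.ofReal_toReal htop).symm
  have hmink := mink (μ := μ.prod ((volume.restrict I).prod (volume : Measure (ℝ × ℝ))))
    (ν := (volume.restrict (Ioi (0 : ℝ)))) (q := q) hq
    (F := fun z l => ‖ZZ (ind (Ls G l)) z‖ₑ) (measurable_layer hG)
    (Φ := fun z => ‖ZZ (fun x => ((G x : ℝ) : ℂ)) z‖ₑ) (measurable_ZZ hGc).enorm
    (fun z => layer (G := fun x : ℝ × ℝ => G (x.1, kp z.1 * x.2)) (hG.comp (by fun_prop))
      (integrable_dil hG hint (one_le_kp z.1)) (fun x => hGn _) _) hB hΦB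
  have hQ : ∀ l, 0 < l → Ls G l ⊆ QQ := by
    intro l hl x hx
    by_contra hn
    have h1 : l < G x := hx
    rw [hG0 x hn] at h1
    linarith
  have hlev : ∀ l ∈ Ioi (0 : ℝ), (∫⁻ z, ‖ZZ (ind (Ls G l)) z‖ₑ ^ q
      ∂(μ.prod ((volume.restrict I).prod (volume : Measure (ℝ × ℝ))))) ^ (1 / q) ≤
      D ^ (1 / q) * ENNReal.ofReal (vr (Ls G l) ^ s) := by
    intro l hl
    have h1 := hD (Ls G l) (measurableSet_Ls hG l) (hQ l hl)
    rw [blk_eq hμ (H27.Fib.measurable_ind (measurableSet_Ls hG l))] at h1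
    have hv := vr_nonneg (Ls G l)
    calc (∫⁻ z, ‖ZZ (ind (Ls G l)) z‖ₑ ^ q
          ∂(μ.prod ((volume.restrict I).prod (volume : Measure (ℝ × ℝ))))) ^ (1 / q)
        ≤ (D * volume (Ls G l) ^ r) ^ (1 / q) := by gcongr
      _ = _ := by
          rw [ENNReal.mul_rpow_of_nonneg _ _ (by positivity), ← ENNReal.rpow_mul, mul_one_div,
            ← hs, ← ofReal_vr (hQ l hl), ENNReal.ofReal_rpow_of_nonneg hv hs0.le]
  have hint2 : ∫⁻ l in Ioi (0 : ℝ), (∫⁻ z, ‖ZZ (ind (Ls G l)) z‖ₑ ^ q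
      ∂(μ.prod ((volume.restrict I).prod (volume : Measure (ℝ × ℝ))))) ^ (1 / q) ≤
      D ^ (1 / q) * ENNReal.ofReal (K * N) := by
    calc ∫⁻ l in Ioi (0 : ℝ), (∫⁻ z, ‖ZZ (ind (Ls G l)) z‖ₑ ^ q
        ∂(μ.prod ((volume.restrict I).prod (volume : Measure (ℝ × ℝ))))) ^ (1 / q)
        ≤ ∫⁻ l in Ioi (0 : ℝ), D ^ (1 / q) * ENNReal.ofReal (vr (Ls G l) ^ s) :=
          setLIntegral_mono' measurableSet_Ioi hlev
      _ = D ^ (1 / q) * ∫⁻ l in Ioi (0 : ℝ), ENNReal.ofReal (vr (Ls G l) ^ s) :=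
          lintegral_const_mul' _ _ (ENNReal.rpow_ne_top_of_nonneg (by positivity) hDt)
      _ ≤ _ := by
          gcongr
          exact cheb hG hG0 hp0 hs0 hps hN0 hGN.le
  calc ∫⁻ z, ‖ZZ (fun x => ((G x : ℝ) : ℂ)) z‖ₑ ^ q
        ∂(μ.prod ((volume.restrict I).prod (volume : Measure (ℝ × ℝ))))
      ≤ (∫⁻ l in Ioi (0 : ℝ), (∫⁻ z, ‖ZZ (ind (Ls G l)) z‖ₑ ^ q
        ∂(μ.prod ((volume.restrict I).prod (volume : Measure (ℝ × ℝ))))) ^ (1 / q)) ^ q := hmink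
    _ ≤ (D ^ (1 / q) * ENNReal.ofReal (K * N)) ^ q := by gcongr
    _ = ((K.toNNReal : ℝ≥0∞) ^ q) * D * ENNReal.ofReal N ^ q := by
        rw [ENNReal.mul_rpow_of_nonneg _ _ hq0.le, ← ENNReal.rpow_mul,
          one_div_mul_cancel hq0.ne', ENNReal.rpow_one, ENNReal.ofReal_mul hK0.le,
          ENNReal.mul_rpow_of_nonneg _ _ hq0.le]
        change D * ((K.toNNReal : ℝ≥0∞) ^ q * ENNReal.ofReal N ^ q) = _
        ring
    _ ≤ _ := by
        rw [hGN]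
        gcongr
        push_cast
        rw [ENNReal.coe_rpow_of_nonneg _ hq0.le]
        exact le_self_add

theorem ZZ_add {f g : ℝ × ℝ → ℂ} (hf : Measurable f) (hg : Measurable g) (hfi : Integrable f)
    (hgi : Integrable g) (z : ℝ × ℝ × (ℝ × ℝ)) :
    ZZ (fun x => f x + g x) z = ZZ f z + ZZ g z :=
  E_add (integrable_dil hf hfi (one_le_kp z.1)) (integrable_dil hg hgi (one_le_kp z.1)) _

theorem ZZ_const_mul (c : ℂ) (f : ℝ × ℝ → ℂ) (z : ℝ × ℝ × (ℝ × ℝ)) :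
    ZZ (fun x => c * f x) z = c * ZZ f z :=
  E_const_mul c (dil (kp z.1) f) _

theorem add_rpow_le {q : ℝ} (hq : 1 < q) (a b : ℝ≥0∞) :
    (a + b) ^ q ≤ 2 ^ q * (a ^ q + b ^ q) := by
  have h1 : a + b ≤ 2 * max a b := by
    rw [two_mul]
    exact add_le_add (le_max_left _ _) (le_max_right _ _)
  have hq0 : 0 ≤ q := by linarith
  calc (a + b) ^ q ≤ (2 * max a b) ^ q := by gcongr
    _ = 2 ^ q * (max a b) ^ q := ENNReal.mul_rpow_of_nonneg _ _ hq0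
    _ ≤ _ := by
        gcongr
        rcases le_total a b with h | h
        · rw [max_eq_right h]
          exact le_add_self
        · rw [max_eq_left h]
          exact le_self_add

end LAY_

open LAY_

/-- From indicator functions to functions. -/
theorem p_LAY : T_LAY := by
  intro q p r hq hp hr hqpr
  obtain ⟨C, hC⟩ := nonneg_case hq hp hr hqpr
  have hq0 : 0 < q := by linarith
  refine ⟨2 ^ q * 2 ^ q * 4 * C, fun μ _ hμ I _ D hD f hf hf0 htop => ?_⟩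
  have h1p : (1 : ℝ≥0∞) ≤ ENNReal.ofReal p := by
    rw [← ENNReal.ofReal_one]
    exact ENNReal.ofReal_le_ofReal (by linarith)
  have hL1 : eLpNorm f 1 volume ≤ eLpNorm f (ENNReal.ofReal p) volume :=
    eLpNorm_le_one (support_QQ hf0) h1p hf.aestronglyMeasurable vol_QQ
  have hint : Integrable f := by
    rw [← memLp_one_iff_integrable]
    exact ⟨hf.aestronglyMeasurable, lt_of_le_of_lt hL1 (lt_top_iff_ne_top.2 htop)⟩
  set Λ : Measure (ℝ × ℝ × (ℝ × ℝ)) :=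
    μ.prod ((volume.restrict I).prod (volume : Measure (ℝ × ℝ))) with hΛ
  -- a single part
  have part : ∀ g : ℝ × ℝ → ℝ, Measurable g → (∀ x, |g x| ≤ ‖f x‖) →
      Measurable (fun x => ((pp g x : ℝ) : ℂ)) ∧
      Integrable (fun x => ((pp g x : ℝ) : ℂ)) ∧
      ∫⁻ z, ‖ZZ (fun x => ((pp g x : ℝ) : ℂ)) z‖ₑ ^ q ∂Λ ≤
        C * D * eLpNorm f (ENNReal.ofReal p) volume ^ q := by
    intro g hg hgf
    have hle : ∀ x, ‖pp g x‖ ≤ ‖f x‖ := by
      intro x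
      unfold pp
      rw [Real.norm_of_nonneg (le_max_right _ _)]
      exact max_le ((le_abs_self _).trans (hgf x)) (norm_nonneg _)
    have hm : Measurable (fun x => ((pp g x : ℝ) : ℂ)) :=
      Complex.measurable_ofReal.comp (measurable_pp hg)
    have hn : eLpNorm (pp g) (ENNReal.ofReal p) volume ≤ eLpNorm f (ENNReal.ofReal p) volume :=
      eLpNorm_mono hle
    refine ⟨hm, ?_, ?_⟩
    · have h1 : Integrable (pp g) := hint.mono (measurable_pp hg).aestronglyMeasurable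
        (Eventually.of_forall hle)
      exact h1.ofReal
    · have h1 := hC μ hμ I D hD (pp g) (measurable_pp hg) (fun x hx => ?_)
        (fun x => le_max_right _ _) (ne_top_of_le_ne_top htop hn)
      · rw [blk_eq hμ hm] at h1
        refine h1.trans ?_
        gcongr
      · have h1 := hle x
        rw [hf0 x hx, norm_zero] at h1
        exact norm_le_zero_iff.1 h1
  have hre : Measurable fun y => (f y).re := Complex.measurable_re.comp hf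
  have him : Measurable fun y => (f y).im := Complex.measurable_im.comp hf
  obtain ⟨m1, i1, b1⟩ := part (fun y => (f y).re) hre (fun x => Complex.abs_re_le_norm _)
  obtain ⟨m2, i2, b2⟩ := part (fun y => -(f y).re) hre.neg (fun x => by
    rw [abs_neg]; exact Complex.abs_re_le_norm _)
  obtain ⟨m3, i3, b3⟩ := part (fun y => (f y).im) him (fun x => Complex.abs_im_le_norm _)
  obtain ⟨m4, i4, b4⟩ := part (fun y => -(f y).im) him.neg (fun x => by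
    rw [abs_neg]; exact Complex.abs_im_le_norm _)
  set G1 : ℝ × ℝ → ℂ := fun x => ((pp (fun y => (f y).re) x : ℝ) : ℂ) with hG1
  set G2 : ℝ × ℝ → ℂ := fun x => ((pp (fun y => -(f y).re) x : ℝ) : ℂ) with hG2
  set G3 : ℝ × ℝ → ℂ := fun x => ((pp (fun y => (f y).im) x : ℝ) : ℂ) with hG3
  set G4 : ℝ × ℝ → ℂ := fun x => ((pp (fun y => -(f y).im) x : ℝ) : ℂ) with hG4
  have hfZ : ∀ z, ZZ f z = (ZZ G1 z + (-1) * ZZ G2 z) +
      (Complex.I * ZZ G3 z + (-Complex.I) * ZZ G4 z) := by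
    intro z
    have e1 : f = fun x => (G1 x + (-1) * G2 x) + (Complex.I * G3 x + (-Complex.I) * G4 x) := by
      funext x
      exact four_parts (f x)
    conv_lhs => rw [e1]
    rw [ZZ_add (f := fun x => G1 x + (-1) * G2 x)
      (g := fun x => Complex.I * G3 x + (-Complex.I) * G4 x)
      (m1.add (m2.const_mul _)) ((m3.const_mul _).add (m4.const_mul _))
      (i1.add (i2.const_mul _)) ((i3.const_mul _).add (i4.const_mul _)),
      ZZ_add m1 (m2.const_mul _) i1 (i2.const_mul _),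
      ZZ_add (m3.const_mul _) (m4.const_mul _) (i3.const_mul _) (i4.const_mul _), ZZ_const_mul,
      ZZ_const_mul, ZZ_const_mul]
  have hpt : ∀ z, ‖ZZ f z‖ₑ ^ q ≤ 2 ^ q * 2 ^ q * (‖ZZ G1 z‖ₑ ^ q + ‖ZZ G2 z‖ₑ ^ q +
      (‖ZZ G3 z‖ₑ ^ q + ‖ZZ G4 z‖ₑ ^ q)) := by
    intro z
    have h1 : ‖ZZ f z‖ₑ ≤ (‖ZZ G1 z‖ₑ + ‖ZZ G2 z‖ₑ) + (‖ZZ G3 z‖ₑ + ‖ZZ G4 z‖ₑ) := by
      rw [hfZ z]
      refine (enorm_add_le _ _).trans ?_
      gcongr
      · refine (enorm_add_le _ _).trans (le_of_eq ?_)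
        rw [enorm_mul, enorm_neg, enorm_one, one_mul]
      · refine (enorm_add_le _ _).trans (le_of_eq ?_)
        rw [enorm_mul, enorm_mul, enorm_neg]
        have hI : ‖Complex.I‖ₑ = 1 := by
          rw [← ofReal_norm, Complex.norm_I, ENNReal.ofReal_one]
        rw [hI, one_mul, one_mul]
    calc ‖ZZ f z‖ₑ ^ q ≤ ((‖ZZ G1 z‖ₑ + ‖ZZ G2 z‖ₑ) + (‖ZZ G3 z‖ₑ + ‖ZZ G4 z‖ₑ)) ^ q := by
          gcongr
      _ ≤ 2 ^ q * ((‖ZZ G1 z‖ₑ + ‖ZZ G2 z‖ₑ) ^ q + (‖ZZ G3 z‖ₑ + ‖ZZ G4 z‖ₑ) ^ q) :=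
          add_rpow_le hq _ _
      _ ≤ 2 ^ q * (2 ^ q * (‖ZZ G1 z‖ₑ ^ q + ‖ZZ G2 z‖ₑ ^ q) +
          2 ^ q * (‖ZZ G3 z‖ₑ ^ q + ‖ZZ G4 z‖ₑ ^ q)) := by
          gcongr
          · exact add_rpow_le hq _ _
          · exact add_rpow_le hq _ _
      _ = _ := by ring
  have hZm : ∀ {g : ℝ × ℝ → ℂ}, Measurable g → Measurable fun z => ‖ZZ g z‖ₑ ^ q :=
    fun hg => (measurable_ZZ hg).enorm.pow_const _
  rw [blk_eq hμ hf]
  calc ∫⁻ z, ‖ZZ f z‖ₑ ^ q ∂Λ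
      ≤ ∫⁻ z, 2 ^ q * 2 ^ q * (‖ZZ G1 z‖ₑ ^ q + ‖ZZ G2 z‖ₑ ^ q +
      (‖ZZ G3 z‖ₑ ^ q + ‖ZZ G4 z‖ₑ ^ q)) ∂Λ := lintegral_mono hpt
    _ = 2 ^ q * 2 ^ q * (∫⁻ z, ‖ZZ G1 z‖ₑ ^ q ∂Λ + ∫⁻ z, ‖ZZ G2 z‖ₑ ^ q ∂Λ +
      (∫⁻ z, ‖ZZ G3 z‖ₑ ^ q ∂Λ + ∫⁻ z, ‖ZZ G4 z‖ₑ ^ q ∂Λ)) := by
        have ma : Measurable fun z => ‖ZZ G1 z‖ₑ ^ q + ‖ZZ G2 z‖ₑ ^ q := (hZm m1).add (hZm m2)
        have mb : Measurable fun z => ‖ZZ G3 z‖ₑ ^ q + ‖ZZ G4 z‖ₑ ^ q := (hZm m3).add (hZm m4)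
        have mc : Measurable fun z => ‖ZZ G1 z‖ₑ ^ q + ‖ZZ G2 z‖ₑ ^ q +
          (‖ZZ G3 z‖ₑ ^ q + ‖ZZ G4 z‖ₑ ^ q) := ma.add mb
        rw [lintegral_const_mul _ mc, lintegral_add_left ma, lintegral_add_left (hZm m1),
          lintegral_add_left (hZm m3)]
    _ ≤ 2 ^ q * 2 ^ q * (C * D * eLpNorm f (ENNReal.ofReal p) volume ^ q +
        C * D * eLpNorm f (ENNReal.ofReal p) volume ^ q +
        (C * D * eLpNorm f (ENNReal.ofReal p) volume ^ q +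
        C * D * eLpNorm f (ENNReal.ofReal p) volume ^ q)) := by gcongr
    _ = ((2 : ℝ≥0∞) ^ q * 2 ^ q * 4 * C) * D * eLpNorm f (ENNReal.ofReal p) volume ^ q := by
        ring
    _ = _ := by
        push_cast
        rw [ENNReal.coe_rpow_of_nonneg _ hq0.le]
        norm_num

end Pool.Agent.Dil
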