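import Pool.Agent.Dil.Targets

/-!
# Almost every linear map
-/

set_option autoImplicit false

namespace Pool.Agent.Dil

open MeasureTheory Set Filter
open Pool.Agent.Restr (u E QQ)
open scoped ENNReal NNReal Topology

namespace MAT_

/-- The composition with a linear map. -/
noncomputable def cp (f : ℝ × ℝ → ℂ) (A : (ℝ × ℝ) × (ℝ × ℝ)) (x : ℝ × ℝ) : ℂ :=
  f (A.1.1 * x.1 + A.1.2 * x.2, A.2.1 * x.1 + A.2.2 * x.2)

/-- Multiplication of the matrix by `diag (1, θ)` on the right. -/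
noncomputable def sc (θ : ℝ) (A : (ℝ × ℝ) × (ℝ × ℝ)) : (ℝ × ℝ) × (ℝ × ℝ) :=
  ((A.1.1, θ * A.1.2), (A.2.1, θ * A.2.2))

lemma cp_sc (f : ℝ × ℝ → ℂ) (A : (ℝ × ℝ) × (ℝ × ℝ)) (θ : ℝ) : cp f (sc θ A) = dil θ (cp f A) := by
  funext x
  simp only [cp, sc, dil]
  congr 2 <;> ring

lemma sc_sc {θ : ℝ} (h : θ ≠ 0) (A : (ℝ × ℝ) × (ℝ × ℝ)) : sc θ (sc θ⁻¹ A) = A := by
  simp only [sc]
  rw [mul_inv_cancel_left₀ h, mul_inv_cancel_left₀ h]

lemma measurable_cp {f : ℝ × ℝ → ℂ} (hf : Measurable f) (A : (ℝ × ℝ) × (ℝ × ℝ)) :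
    Measurable (cp f A) :=
  hf.comp (by fun_prop : Measurable fun x : ℝ × ℝ =>
    (A.1.1 * x.1 + A.1.2 * x.2, A.2.1 * x.1 + A.2.2 * x.2))

lemma measurable_E {f : ℝ × ℝ → ℂ} (hf : Measurable f) :
    Measurable (fun z : ((ℝ × ℝ) × (ℝ × ℝ)) × (ℝ × ℝ × ℝ) => E (cp f z.1) z.2) := by
  have h : StronglyMeasurable (fun z : ((ℝ × ℝ) × (ℝ × ℝ)) × (ℝ × ℝ × ℝ) =>
      ∫ x : ℝ × ℝ, u (z.2.1 * x.1 + (z.2.2.1 * x.2 + z.2.2.2 * (x.1 ^ 2 + x.2 ^ 2))) *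
        f (z.1.1.1 * x.1 + z.1.1.2 * x.2, z.1.2.1 * x.1 + z.1.2.2 * x.2)) := by
    apply StronglyMeasurable.integral_prod_right
    apply Measurable.stronglyMeasurable
    exact (Pool.Agent.Restr.measurable_u.comp (by fun_prop)).mul (hf.comp (by fun_prop))
  exact h.measurable

lemma measurable_norm {f : ℝ × ℝ → ℂ} (hf : Measurable f) {q : ℝ} (hq : 0 < q) :
    Measurable (fun A : (ℝ × ℝ) × (ℝ × ℝ) => eLpNorm (E (cp f A)) (ENNReal.ofReal q) volume) := by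
  have h1 : Measurable (fun A : (ℝ × ℝ) × (ℝ × ℝ) =>
      ∫⁻ ξ : ℝ × ℝ × ℝ, ‖E (cp f A) ξ‖ₑ ^ q) :=
    Measurable.lintegral_prod_right' ((measurable_E hf).enorm.pow_const q)
  have h2 : (fun A : (ℝ × ℝ) × (ℝ × ℝ) => eLpNorm (E (cp f A)) (ENNReal.ofReal q) volume) =
      fun A => (∫⁻ ξ : ℝ × ℝ × ℝ, ‖E (cp f A) ξ‖ₑ ^ q) ^ (1 / q) := by
    funext A
    rw [Pool.Agent.Restr.lin_q hq, ← ENNReal.rpow_mul, mul_one_div_cancel hq.ne',
      ENNReal.rpow_one]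
  rw [h2]
  exact h1.pow_const _

/-- The linear map with the matrix `A`. -/
def lin (A : (ℝ × ℝ) × (ℝ × ℝ)) : (ℝ × ℝ) →ₗ[ℝ] (ℝ × ℝ) where
  toFun x := (A.1.1 * x.1 + A.1.2 * x.2, A.2.1 * x.1 + A.2.2 * x.2)
  map_add' x y := by
    ext <;> simp <;> ring
  map_smul' c x := by
    ext <;> simp <;> ring

/-- The linear map `sc θ`. -/
def scl (θ : ℝ) : ((ℝ × ℝ) × (ℝ × ℝ)) →ₗ[ℝ] ((ℝ × ℝ) × (ℝ × ℝ)) where
  toFun A := ((A.1.1, θ * A.1.2), (A.2.1, θ * A.2.2))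
  map_add' x y := by
    ext <;> simp <;> ring
  map_smul' c x := by
    ext <;> simp <;> ring

lemma det_ne {V : Type*} [AddCommGroup V] [Module ℝ V] [FiniteDimensional ℝ V] (T : V →ₗ[ℝ] V)
    (h : ∀ x, T x = 0 → x = 0) : LinearMap.det T ≠ 0 := by
  intro h0
  have h1 := LinearMap.bot_lt_ker_of_det_eq_zero h0
  have h2 : LinearMap.ker T = ⊥ := (LinearMap.ker_eq_bot').2 h
  rw [h2] at h1
  exact lt_irrefl _ h1

lemma lin_det {A : (ℝ × ℝ) × (ℝ × ℝ)} (h : A.1.1 * A.2.2 - A.1.2 * A.2.1 ≠ 0) :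
    LinearMap.det (lin A) ≠ 0 := by
  apply det_ne
  intro x hx
  have h1 : A.1.1 * x.1 + A.1.2 * x.2 = 0 := congrArg Prod.fst hx
  have h2 : A.2.1 * x.1 + A.2.2 * x.2 = 0 := congrArg Prod.snd hx
  have h3 : (A.1.1 * A.2.2 - A.1.2 * A.2.1) * x.1 = 0 := by
    linear_combination A.2.2 * h1 - A.1.2 * h2
  have h4 : (A.1.1 * A.2.2 - A.1.2 * A.2.1) * x.2 = 0 := by
    linear_combination A.1.1 * h2 - A.2.1 * h1
  ext
  · exact (mul_eq_zero.1 h3).resolve_left h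
  · exact (mul_eq_zero.1 h4).resolve_left h

lemma scl_det {θ : ℝ} (h : θ ≠ 0) : LinearMap.det (scl θ) ≠ 0 := by
  apply det_ne
  intro A hA
  have h1 : A.1.1 = 0 := congrArg (fun B : (ℝ × ℝ) × (ℝ × ℝ) => B.1.1) hA
  have h2 : θ * A.1.2 = 0 := congrArg (fun B : (ℝ × ℝ) × (ℝ × ℝ) => B.1.2) hA
  have h3 : A.2.1 = 0 := congrArg (fun B : (ℝ × ℝ) × (ℝ × ℝ) => B.2.1) hA
  have h4 : θ * A.2.2 = 0 := congrArg (fun B : (ℝ × ℝ) × (ℝ × ℝ) => B.2.2) hA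
  ext
  · exact h1
  · exact (mul_eq_zero.1 h2).resolve_left h
  · exact h3
  · exact (mul_eq_zero.1 h4).resolve_left h

lemma quasi {θ : ℝ} (h : θ ≠ 0) : Measure.QuasiMeasurePreserving (sc θ)
    (volume : Measure ((ℝ × ℝ) × (ℝ × ℝ))) volume := by
  have h1 : ((volume : Measure (ℝ × ℝ)).prod (volume : Measure (ℝ × ℝ))).IsAddHaarMeasure :=
    inferInstance
  exact Measure.LinearMap.quasiMeasurePreserving
    ((volume : Measure (ℝ × ℝ)).prod (volume : Measure (ℝ × ℝ))) (scl θ) (scl_det h)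

lemma ae_det : ∀ᵐ A : (ℝ × ℝ) × (ℝ × ℝ), A.1.1 * A.2.2 - A.1.2 * A.2.1 ≠ 0 := by
  have hm : MeasurableSet {A : (ℝ × ℝ) × (ℝ × ℝ) | A.1.1 * A.2.2 - A.1.2 * A.2.1 ≠ 0} := by
    exact (measurableSet_eq_fun (by fun_prop) (by fun_prop)).compl
  rw [Measure.volume_eq_prod, Measure.ae_prod_iff_ae_ae hm]
  have h1 : ∀ᵐ x : ℝ × ℝ, x.1 ≠ 0 :=
    Measure.quasiMeasurePreserving_fst.ae ((countable_singleton (0 : ℝ)).ae_notMem volume)
  filter_upwards [h1] with x hx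
  have hm2 : MeasurableSet {y : ℝ × ℝ | x.1 * y.2 - x.2 * y.1 ≠ 0} := by
    exact (measurableSet_eq_fun (by fun_prop) (by fun_prop)).compl
  rw [Measure.volume_eq_prod, Measure.ae_prod_iff_ae_ae hm2]
  refine Eventually.of_forall fun y1 => ?_
  filter_upwards [(countable_singleton (x.2 * y1 / x.1)).ae_notMem volume] with y2 hy h0
  apply hy
  rw [mem_singleton_iff, eq_div_iff hx]
  linarith

lemma eLpNorm_lin {f : ℝ × ℝ → ℂ} (hf : Measurable f) {p : ℝ}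
    (hfp : eLpNorm f (ENNReal.ofReal p) volume ≠ ⊤) {T : (ℝ × ℝ) →ₗ[ℝ] (ℝ × ℝ)}
    (hT : LinearMap.det T ≠ 0) :
    eLpNorm (fun x => f (T x)) (ENNReal.ofReal p) volume ≠ ⊤ := by
  have h1 := Measure.map_linearMap_addHaar_eq_smul_addHaar (volume : Measure (ℝ × ℝ)) hT
  have hTm : Measurable T := T.continuous_of_finiteDimensional.measurable
  have h2 : eLpNorm (f ∘ T) (ENNReal.ofReal p) volume =
      eLpNorm f (ENNReal.ofReal p) (Measure.map T volume) :=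
    (eLpNorm_map_measure hf.aestronglyMeasurable hTm.aemeasurable).symm
  change eLpNorm (f ∘ T) (ENNReal.ofReal p) volume ≠ ⊤
  rw [h2, h1, eLpNorm_smul_measure_of_ne_top ENNReal.ofReal_ne_top]
  exact ENNReal.mul_ne_top (ENNReal.rpow_ne_top_of_nonneg (by positivity) ENNReal.ofReal_ne_top) hfp

lemma bsupp_cp {f : ℝ × ℝ → ℂ} (hf : BSupp f) {A : (ℝ × ℝ) × (ℝ × ℝ)}
    (h : A.1.1 * A.2.2 - A.1.2 * A.2.1 ≠ 0) : BSupp (cp f A) := by
  obtain ⟨ρ, hρ⟩ := hf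
  refine ⟨(A.1.1 ^ 2 + A.1.2 ^ 2 + A.2.1 ^ 2 + A.2.2 ^ 2) * ρ /
    (A.1.1 * A.2.2 - A.1.2 * A.2.1) ^ 2, fun x hx => ?_⟩
  apply hρ
  have hD : 0 < (A.1.1 * A.2.2 - A.1.2 * A.2.1) ^ 2 := by positivity
  rw [div_lt_iff₀ hD] at hx
  simp only
  set y1 := A.1.1 * x.1 + A.1.2 * x.2 with hy1
  set y2 := A.2.1 * x.1 + A.2.2 * x.2 with hy2
  have e1 : (x.1 ^ 2 + x.2 ^ 2) * (A.1.1 * A.2.2 - A.1.2 * A.2.1) ^ 2 =
      (A.2.2 * y1 - A.1.2 * y2) ^ 2 + (A.1.1 * y2 - A.2.1 * y1) ^ 2 := by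
    rw [hy1, hy2]
    ring
  have e2 : (A.2.2 * y1 - A.1.2 * y2) ^ 2 + (A.1.1 * y2 - A.2.1 * y1) ^ 2 ≤
      (A.1.1 ^ 2 + A.1.2 ^ 2 + A.2.1 ^ 2 + A.2.2 ^ 2) * (y1 ^ 2 + y2 ^ 2) := by
    nlinarith [sq_nonneg (A.2.2 * y2 + A.1.2 * y1), sq_nonneg (A.1.1 * y1 + A.2.1 * y2)]
  rw [e1] at hx
  have h3 : (A.1.1 ^ 2 + A.1.2 ^ 2 + A.2.1 ^ 2 + A.2.2 ^ 2) * ρ <
      (A.1.1 ^ 2 + A.1.2 ^ 2 + A.2.1 ^ 2 + A.2.2 ^ 2) * (y1 ^ 2 + y2 ^ 2) := hx.trans_le e2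
  exact lt_of_mul_lt_mul_left h3 (by positivity)

end MAT_

open MAT_ in
theorem p_MAT (h1 : T_FRO) (h2 : T_NORM) (h3 : T_ISO) : T_MAT := by
  intro q p hq3 hq4 hp f hf hs hfp
  have hq0 : 0 < q := by linarith
  have hq2 : 0 < q - 2 := by linarith
  have hp1 : 1 < p := lt_trans (by rw [one_lt_div hq2]; linarith) hp
  have hp0 : 0 < p := by linarith
  have hm := measurable_norm hf hq0
  -- the matrix times `diag (1, θ)`
  have key : ∀ A : (ℝ × ℝ) × (ℝ × ℝ), A.1.1 * A.2.2 - A.1.2 * A.2.1 ≠ 0 →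
      ∀ᵐ θ ∂(volume.restrict (Icc (1 : ℝ) 2)),
        eLpNorm (E (cp f (sc θ A))) (ENNReal.ofReal q) volume ≠ ⊤ := by
    intro A hA
    obtain ⟨ρ, hρ⟩ := bsupp_cp hs hA
    set c : ℝ := 2 * (|ρ| + 1) with hc
    have hc0 : 0 < c := by positivity
    set g : ℝ × ℝ → ℂ := cp f A with hg
    have hgm : Measurable g := measurable_cp hf A
    set k : ℝ × ℝ → ℂ := fun x => g (c * x.1, c * x.2) with hk
    have hkm : Measurable k := hgm.comp (by fun_prop)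
    have hks : ∀ x, x ∉ QQ → k x = 0 := by
      intro x hx
      apply hρ
      simp only
      have h4 : 1 / 4 < x.1 ^ 2 + x.2 ^ 2 := by
        by_contra hcon
        push Not at hcon
        apply hx
        refine ⟨⟨?_, ?_⟩, ⟨?_, ?_⟩⟩ <;> nlinarith [sq_nonneg x.1, sq_nonneg x.2]
      have h5 := le_abs_self ρ
      have h6 := abs_nonneg ρ
      calc ρ ≤ |ρ| + 1 := by linarith
        _ ≤ (|ρ| + 1) ^ 2 := by nlinarith
        _ = c ^ 2 * (1 / 4) := by rw [hc]; ring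
        _ < c ^ 2 * (x.1 ^ 2 + x.2 ^ 2) := mul_lt_mul_of_pos_left h4 (by positivity)
        _ = (c * x.1) ^ 2 + (c * x.2) ^ 2 := by ring
    have hkp : eLpNorm k (ENNReal.ofReal p) volume ≠ ⊤ := by
      have hB : (c * A.1.1) * (c * A.2.2) - (c * A.1.2) * (c * A.2.1) ≠ 0 := by
        have e : (c * A.1.1) * (c * A.2.2) - (c * A.1.2) * (c * A.2.1) =
            c ^ 2 * (A.1.1 * A.2.2 - A.1.2 * A.2.1) := by ring
        rw [e]
        exact mul_ne_zero (by positivity) hA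
      have h4 := eLpNorm_lin hf hfp
        (lin_det (A := ((c * A.1.1, c * A.1.2), (c * A.2.1, c * A.2.2))) hB)
      have e : k = fun x => f (lin ((c * A.1.1, c * A.1.2), (c * A.2.1, c * A.2.2)) x) := by
        funext x
        simp only [hk, hg, cp, lin, LinearMap.coe_mk, AddHom.coe_mk]
        congr 2 <;> ring
      rw [e]
      exact h4
    -- the exponent
    obtain ⟨a, ha1, ha2⟩ : ∃ a : ℝ, (4 - q) / 2 < a ∧ a < min ((q - 2) / 2) (q / 2 - q / p) := by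
      apply exists_between
      rw [lt_min_iff]
      refine ⟨by linarith, ?_⟩
      rw [div_lt_iff₀ hq2] at hp
      have h5 : q / p < q - 2 := by
        rw [div_lt_iff₀ hp0]
        linarith
      linarith
    rw [lt_min_iff] at ha2
    have ha0 : 0 < a := by linarith
    obtain ⟨C, hC⟩ := h1 q p a 1 hq3 hq4 hp ha0 ha2.1.le ha2.2 one_pos le_rfl (by linarith)
    have h6 := hC (volume.restrict (Icc (1 : ℝ) 2))
      (by rw [Measure.restrict_apply measurableSet_Icc.compl]; simp) 1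
      (by
        intro x r hr _
        refine (Measure.restrict_apply_le _ _).trans ?_
        rw [Real.volume_Icc, one_mul, Real.rpow_one]
        apply ENNReal.ofReal_le_ofReal
        linarith) k hkm hks hkp
    have h7 : ∫⁻ θ in Icc (1 : ℝ) 2, eLpNorm (E (dil θ k)) (ENNReal.ofReal q) volume ^ q ≠ ⊤ := by
      refine ne_top_of_le_ne_top ?_ h6
      apply ENNReal.mul_ne_top
      · apply ENNReal.mul_ne_top ENNReal.coe_ne_top
        rw [ENNReal.one_rpow, one_mul, Measure.restrict_apply_univ, Real.volume_Icc]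
        exact ENNReal.rpow_ne_top_of_nonneg (by linarith) ENNReal.ofReal_ne_top
      · exact ENNReal.rpow_ne_top_of_nonneg hq0.le hkp
    have h8 := ae_lt_top (((h2 q hq0 k hkm).2.2).pow_const q) h7
    filter_upwards [h8] with θ hθ
    have h9 : eLpNorm (E (dil θ k)) (ENNReal.ofReal q) volume ≠ ⊤ := by
      intro h0
      rw [h0, ENNReal.top_rpow_of_pos hq0] at hθ
      exact lt_irrefl _ hθ
    rw [cp_sc]
    have hdm : Measurable (dil θ g) := hgm.comp (by fun_prop)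
    have h10 := h3 q c hq0 hc0 (dil θ g) hdm
    have e : (fun x : ℝ × ℝ => dil θ g (c * x.1, c * x.2)) = dil θ k := by
      funext x
      simp only [dil, hk]
      congr 2
      ring
    rw [e] at h10
    exact fun h0 => h9 (h10.2 h0)
  have hae : ∀ᵐ A : (ℝ × ℝ) × (ℝ × ℝ), ∀ᵐ θ ∂(volume.restrict (Icc (1 : ℝ) 2)),
      eLpNorm (E (cp f (sc θ A))) (ENNReal.ofReal q) volume ≠ ⊤ := by
    filter_upwards [ae_det] with A hA using key A hA
  have hms : MeasurableSet {z : ((ℝ × ℝ) × (ℝ × ℝ)) × ℝ |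
      eLpNorm (E (cp f (sc z.2 z.1))) (ENNReal.ofReal q) volume ≠ ⊤} := by
    have h4 : Measurable (fun z : ((ℝ × ℝ) × (ℝ × ℝ)) × ℝ => sc z.2 z.1) := by
      unfold sc
      fun_prop
    exact (hm.comp h4) (measurableSet_singleton ⊤).compl
  rw [Measure.ae_ae_comm hms] at hae
  have hne : (volume.restrict (Icc (1 : ℝ) 2)) ≠ 0 := by
    intro h0
    have h5 : (volume.restrict (Icc (1 : ℝ) 2)) univ = 0 := by rw [h0]; simp
    rw [Measure.restrict_apply_univ, Real.volume_Icc] at h5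
    norm_num at h5
  have : (ae (volume.restrict (Icc (1 : ℝ) 2))).NeBot := ae_neBot.2 hne
  obtain ⟨θ, hθ, hθ2⟩ := (hae.and (ae_restrict_mem measurableSet_Icc)).exists
  have hθ0 : θ ≠ 0 := by
    have := hθ2.1
    intro h0
    rw [h0] at this
    norm_num at this
  have hfin := (quasi (inv_ne_zero hθ0)).ae hθ
  filter_upwards [hfin] with A hA
  rw [sc_sc hθ0] at hA
  exact hA

end Pool.Agent.Dil
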