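import Mathlib
import Pool.Agent.Dil.Targets

/-!
# The block estimate for indicator functions
-/

namespace Pool.Agent.Dil

open MeasureTheory Set Filter
open Pool.Agent.Restr (u E QQ)
open Pool.Agent.H27.Fib (ind)
open scoped ENNReal NNReal Topology

namespace RES_

theorem meas_joint {f : ℝ × ℝ → ℂ} (hf : Measurable f) :
    Measurable (fun z : ℝ × ℝ × (ℝ × ℝ) => E (dil z.1 f) (z.2.2.1, z.2.2.2, z.2.1)) := by
  have : StronglyMeasurable (fun z : ℝ × ℝ × (ℝ × ℝ) => ∫ x : ℝ × ℝ,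
      u (z.2.2.1 * x.1 + (z.2.2.2 * x.2 + z.2.1 * (x.1 ^ 2 + x.2 ^ 2))) * f (x.1, z.1 * x.2)) := by
    apply StronglyMeasurable.integral_prod_right
      (f := fun (z : ℝ × ℝ × (ℝ × ℝ)) (x : ℝ × ℝ) =>
       u (z.2.2.1 * x.1 + (z.2.2.2 * x.2 + z.2.1 * (x.1 ^ 2 + x.2 ^ 2))) * f (x.1, z.1 * x.2))
    apply Measurable.stronglyMeasurable
    exact (Restr.measurable_u.comp (by fun_prop)).mul (hf.comp (by fun_prop))
  exact this.measurable

/-- The measure on the parameter, the time and the frequency. -/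
noncomputable def M3 (μ : Measure ℝ) (I : Set ℝ) : Measure (ℝ × ℝ × (ℝ × ℝ)) :=
  μ.prod ((volume.restrict I).prod volume)

theorem blk_eq {f : ℝ × ℝ → ℂ} (hf : Measurable f) (q : ℝ) (μ : Measure ℝ) [IsFiniteMeasure μ]
    (I : Set ℝ) :
    blk q μ I f = ∫⁻ z, ‖E (dil z.1 f) (z.2.2.1, z.2.2.2, z.2.1)‖ₑ ^ q ∂(M3 μ I) := by
  set G : ℝ × ℝ × (ℝ × ℝ) → ℝ≥0∞ :=
    fun z => ‖E (dil z.1 f) (z.2.2.1, z.2.2.2, z.2.1)‖ₑ ^ q with hG
  have hm : Measurable G := (meas_joint hf).enorm.pow_const q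
  have e : ∀ (θ t : ℝ) (w : ℝ × ℝ), ‖E (dil θ f) (w.1, w.2, t)‖ₑ ^ q = G (θ, t, w) :=
    fun θ t w => rfl
  unfold M3 blk sl
  simp only [e]
  clear_value G
  rw [lintegral_prod _ hm.aemeasurable]
  refine lintegral_congr fun θ => ?_
  have hm2 : Measurable (fun y : ℝ × (ℝ × ℝ) => G (θ, y)) := hm.comp measurable_prodMk_left
  rw [lintegral_prod _ hm2.aemeasurable]

theorem holder {f : ℝ × ℝ → ℂ} (hf : Measurable f) {q : ℝ} (hq : 2 < q) (hq4 : q < 4)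
    (μ : Measure ℝ) [IsFiniteMeasure μ] (I : Set ℝ) :
    blk q μ I f ≤ (blk 2 μ I f) ^ ((4 - q) / 2) * (blk 4 μ I f) ^ ((q - 2) / 2) := by
  rw [blk_eq hf, blk_eq hf, blk_eq hf]
  set F := fun z : ℝ × ℝ × (ℝ × ℝ) => ‖E (dil z.1 f) (z.2.2.1, z.2.2.2, z.2.1)‖ₑ with hFdef
  have hF : Measurable F := (meas_joint hf).enorm
  calc ∫⁻ z, F z ^ q ∂(M3 μ I)
      = ∫⁻ z, (F z ^ (2:ℝ)) ^ ((4-q)/2) * (F z ^ (4:ℝ)) ^ ((q-2)/2) ∂(M3 μ I) := by
        refine lintegral_congr fun z => ?_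
        rw [← ENNReal.rpow_mul, ← ENNReal.rpow_mul,
          ← ENNReal.rpow_add_of_nonneg _ _ (by linarith) (by linarith)]
        congr 1
        ring
    _ ≤ _ := ENNReal.lintegral_mul_norm_pow_le (hF.pow_const _).aemeasurable
        (hF.pow_const _).aemeasurable (by linarith) (by linarith) (by ring)

theorem measurable_dil {f : ℝ × ℝ → ℂ} (hf : Measurable f) (θ : ℝ) : Measurable (dil θ f) :=
  hf.comp (by fun_prop : Measurable fun x : ℝ × ℝ => (x.1, θ * x.2))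

theorem dil_sq {A : Set (ℝ × ℝ)} (hA : MeasurableSet A) {θ : ℝ} (hθ : θ ∈ Icc (1:ℝ) 2) :
    ∫⁻ x, ‖dil θ (ind A) x‖ₑ ^ 2 ≤ volume A := by
  have h1 : (1:ℝ) ≤ θ := hθ.1
  have h0 : 0 < θ := by linarith
  have hi := H27.Fib.measurable_ind hA
  rw [← H27.Fib.lint_ind hA]
  have hm : Measurable fun x => ‖ind A x‖ₑ ^ 2 := hi.enorm.pow_const 2
  have hm2 : Measurable fun x => ‖dil θ (ind A) x‖ₑ ^ 2 :=
    (measurable_dil hi θ).enorm.pow_const 2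
  rw [Measure.volume_eq_prod, lintegral_prod _ hm2.aemeasurable, lintegral_prod _ hm.aemeasurable]
  refine lintegral_mono fun a => ?_
  have h := H27.Fib.lintegral_mul_left (a := θ) h0.ne' (φ := fun y => ‖ind A (a, y)‖ₑ ^ 2)
    (hm.comp measurable_prodMk_left)
  simp only [dil]
  rw [h]
  have h2 : ENNReal.ofReal |θ⁻¹| ≤ 1 := by
    rw [abs_of_pos (inv_pos.2 h0), ENNReal.ofReal_le_one]
    exact inv_le_one_of_one_le₀ h1
  calc ENNReal.ofReal |θ⁻¹| * ∫⁻ y, ‖ind A (a, y)‖ₑ ^ 2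
      ≤ 1 * ∫⁻ y, ‖ind A (a, y)‖ₑ ^ 2 := by gcongr
    _ = _ := one_mul _

theorem ae_mem {μ : Measure ℝ} (hμ : μ (Icc 1 2)ᶜ = 0) : ∀ᵐ θ ∂μ, θ ∈ Icc (1:ℝ) 2 := by
  rw [ae_iff]
  exact hμ

theorem vol_Jk (k : ℕ) : volume (Jk k) ≤ ENNReal.ofReal ((2:ℝ) ^ k) * 4 := by
  have h1 : Jk k ⊆ Ioo (-(2 * (2:ℝ) ^ k)) (2 * (2:ℝ) ^ k) := by
    intro t ht
    exact abs_lt.1 ht.2
  refine (measure_mono h1).trans ?_
  rw [Real.volume_Ioo, show (4 : ℝ≥0∞) = ENNReal.ofReal 4 by norm_num,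
    ← ENNReal.ofReal_mul (by positivity)]
  apply ENNReal.ofReal_le_ofReal
  linarith

theorem sl2 {g : ℝ × ℝ → ℂ} (hg : Measurable g) (t : ℝ) :
    sl 2 g t ≤ ENNReal.ofReal (4 * Real.pi ^ 2) * ∫⁻ x, ‖g x‖ₑ ^ 2 := by
  refine le_trans (le_of_eq ?_) (Restr.L2_slice hg t)
  unfold sl
  refine lintegral_congr fun w => ?_
  rw [← ENNReal.rpow_natCast]
  norm_num

theorem blk2 {A : Set (ℝ × ℝ)} (hA : MeasurableSet A) (k : ℕ) (μ : Measure ℝ)
    (hμ : μ (Icc 1 2)ᶜ = 0) :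
    blk 2 μ (Jk k) (ind A) ≤ (ENNReal.ofReal ((2:ℝ) ^ k) * μ univ) *
      (4 * ENNReal.ofReal (4 * Real.pi ^ 2)) * volume A := by
  have hi := H27.Fib.measurable_ind hA
  calc blk 2 μ (Jk k) (ind A)
      ≤ ∫⁻ _, (∫⁻ _ in Jk k, ENNReal.ofReal (4 * Real.pi ^ 2) * volume A) ∂μ := by
        unfold blk
        refine lintegral_mono_ae ?_
        filter_upwards [ae_mem hμ] with θ hθ
        refine lintegral_mono fun t => ?_
        refine (sl2 (measurable_dil hi θ) t).trans ?_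
        gcongr
        exact dil_sq hA hθ
    _ = (volume (Jk k) * μ univ) * (ENNReal.ofReal (4 * Real.pi ^ 2) * volume A) := by
        rw [lintegral_const, setLIntegral_const]
        ring
    _ ≤ ((ENNReal.ofReal ((2:ℝ) ^ k) * 4) * μ univ) *
          (ENNReal.ofReal (4 * Real.pi ^ 2) * volume A) := by
        gcongr
        exact vol_Jk k
    _ = _ := by ring

theorem sl4 {g : ℝ × ℝ → ℂ} (hg : Measurable g) (I : Set ℝ) :
    ∫⁻ t in I, sl 4 g t ≤ ENNReal.ofReal (4 * Real.pi ^ 4) * (∫⁻ x, ‖g x‖ₑ ^ 2) ^ 2 := by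
  have hN : Measurable (fun p => ‖E g p‖ₑ ^ 4) := (Restr.measurable_E hg).enorm.pow_const 4
  refine le_trans ?_ (Restr.tomas_stein hg)
  refine (setLIntegral_le_lintegral _ _).trans (le_of_eq ?_)
  rw [Measure.volume_eq_prod (α := ℝ) (β := ℝ × ℝ), lintegral_prod_symm _ hN.aemeasurable]
  have hm1 : Measurable (fun y : ℝ × ℝ => ∫⁻ x, ‖E g (x, y)‖ₑ ^ 4) :=
    Measurable.lintegral_prod_right' (f := fun q : (ℝ × ℝ) × ℝ => ‖E g (q.2, q.1)‖ₑ ^ 4)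
      (hN.comp (by fun_prop : Measurable fun q : (ℝ × ℝ) × ℝ => (q.2, q.1)))
  rw [Measure.volume_eq_prod, lintegral_prod_symm _ hm1.aemeasurable]
  refine lintegral_congr fun t => ?_
  unfold sl
  have hm : Measurable (fun w : ℝ × ℝ => ‖E g (w.1, w.2, t)‖ₑ ^ 4) := hN.comp
    (by fun_prop : Measurable fun w : ℝ × ℝ => (w.1, w.2, t))
  calc ∫⁻ w : ℝ × ℝ, ‖E g (w.1, w.2, t)‖ₑ ^ (4:ℝ)
      = ∫⁻ w : ℝ × ℝ, ‖E g (w.1, w.2, t)‖ₑ ^ 4 := by
        refine lintegral_congr fun w => ?_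
        rw [← ENNReal.rpow_natCast]
        norm_num
    _ = _ := by
        rw [Measure.volume_eq_prod, lintegral_prod_symm _ hm.aemeasurable]

theorem blk4 {A : Set (ℝ × ℝ)} (hA : MeasurableSet A) (I : Set ℝ) (μ : Measure ℝ)
    (hμ : μ (Icc 1 2)ᶜ = 0) :
    blk 4 μ I (ind A) ≤ μ univ * ENNReal.ofReal (4 * Real.pi ^ 4) * volume A ^ 2 := by
  have hi := H27.Fib.measurable_ind hA
  calc blk 4 μ I (ind A)
      ≤ ∫⁻ _, ENNReal.ofReal (4 * Real.pi ^ 4) * volume A ^ 2 ∂μ := by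
        unfold blk
        refine lintegral_mono_ae ?_
        filter_upwards [ae_mem hμ] with θ hθ
        refine (sl4 (measurable_dil hi θ) I).trans ?_
        gcongr
        exact dil_sq hA hθ
    _ = _ := by
        rw [lintegral_const]
        ring

theorem lint4 {A : Set (ℝ × ℝ)} (hA : MeasurableSet A) : ∫⁻ x, ‖ind A x‖ₑ ^ 4 = volume A := by
  rw [← H27.Fib.lint_ind hA]
  refine lintegral_congr fun x => ?_
  unfold ind
  by_cases hx : x ∈ A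
  · rw [indicator_of_mem hx]
    simp
  · rw [indicator_of_notMem hx]
    simp

theorem integrable_ind {A : Set (ℝ × ℝ)} (hA : MeasurableSet A) (hAQ : A ⊆ QQ) :
    Integrable (ind A) := by
  refine ⟨(H27.Fib.measurable_ind hA).aestronglyMeasurable, ?_⟩
  unfold HasFiniteIntegral
  rw [H27.Fib.lint_ind1 hA]
  exact lt_of_le_of_lt (H27.Fib.vol_le_one hAQ) ENNReal.one_lt_top

theorem alg {q a : ℝ} (hq4 : q < 4) (ha : 0 < a) (haq : a ≤ (q - 2) / 2)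
    (x y z c1 c2 c3 v : ℝ≥0∞) :
    (x * c1 * v) ^ ((4 - q) / 2) * ((y * c2 * v) ^ a * (z * c3 * v ^ 2) ^ ((q - 2) / 2 - a)) =
      (c1 ^ ((4 - q) / 2) * c2 ^ a * c3 ^ ((q - 2) / 2 - a)) *
      (x ^ ((4 - q) / 2) * y ^ a * z ^ ((q - 2) / 2 - a)) * v ^ (q / 2 - a) := by
  have h1 : 0 ≤ (4 - q) / 2 := by linarith
  have h3 : 0 ≤ (q - 2) / 2 - a := by linarith
  have hv : v ^ (q / 2 - a) = v ^ ((4 - q) / 2) * v ^ a * (v ^ 2) ^ ((q - 2) / 2 - a) := by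
    rw [← ENNReal.rpow_natCast v 2, ← ENNReal.rpow_mul, ← ENNReal.rpow_add_of_nonneg _ _ h1 ha.le,
      ← ENNReal.rpow_add_of_nonneg _ _ (by linarith) (by push_cast; linarith)]
    congr 1
    push_cast
    ring
  rw [hv, ENNReal.mul_rpow_of_nonneg _ _ h1, ENNReal.mul_rpow_of_nonneg _ _ h1,
    ENNReal.mul_rpow_of_nonneg _ _ ha.le, ENNReal.mul_rpow_of_nonneg _ _ ha.le,
    ENNReal.mul_rpow_of_nonneg _ _ h3, ENNReal.mul_rpow_of_nonneg _ _ h3]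
  ring

end RES_

open RES_

theorem p_RES (h : T_L4A) : T_RES := by
  intro q a η hq hq4 ha haq hη
  obtain ⟨C, hC⟩ := h η hη
  have h1 : 0 ≤ (4 - q) / 2 := by linarith
  have h3 : 0 ≤ (q - 2) / 2 - a := by linarith
  set K : ℝ≥0∞ := (4 * ENNReal.ofReal (4 * Real.pi ^ 2)) ^ ((4 - q) / 2) * (C : ℝ≥0∞) ^ a *
    (ENNReal.ofReal (4 * Real.pi ^ 4)) ^ ((q - 2) / 2 - a) with hK
  have hKt : K ≠ ⊤ := by
    refine ENNReal.mul_ne_top (ENNReal.mul_ne_top ?_ ?_) ?_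
    · exact ENNReal.rpow_ne_top_of_nonneg h1
        (ENNReal.mul_ne_top (by norm_num) ENNReal.ofReal_ne_top)
    · exact ENNReal.rpow_ne_top_of_nonneg ha.le ENNReal.coe_ne_top
    · exact ENNReal.rpow_ne_top_of_nonneg h3 ENNReal.ofReal_ne_top
  refine ⟨K.toNNReal, fun A hA hAQ k μ _ hμ M hM => ?_⟩
  rw [ENNReal.coe_toNNReal hKt]
  have hi := H27.Fib.measurable_ind hA
  have b1 := blk2 hA k μ hμ
  have b2 := hC (ind A) hi (integrable_ind hA hAQ)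
    (fun x hx => indicator_of_notMem (fun h => hx (hAQ h)) _) k μ hμ M hM
  rw [lint4 hA] at b2
  have b3 := blk4 hA (Jk k) μ hμ
  have b2' : blk 4 μ (Jk k) (ind A) ≤
      (M * ENNReal.ofReal (((2 : ℝ) ^ k) ^ η)) * C * volume A :=
    b2.trans (le_of_eq (by ring))
  calc blk q μ (Jk k) (ind A)
      ≤ (blk 2 μ (Jk k) (ind A)) ^ ((4 - q) / 2) * (blk 4 μ (Jk k) (ind A)) ^ ((q - 2) / 2) :=
        holder hi (by linarith) hq4 μ _
    _ = (blk 2 μ (Jk k) (ind A)) ^ ((4 - q) / 2) * ((blk 4 μ (Jk k) (ind A)) ^ a *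
          (blk 4 μ (Jk k) (ind A)) ^ ((q - 2) / 2 - a)) := by
        rw [← ENNReal.rpow_add_of_nonneg _ _ ha.le h3]
        congr 2
        ring
    _ ≤ ((ENNReal.ofReal ((2:ℝ) ^ k) * μ univ) *
          (4 * ENNReal.ofReal (4 * Real.pi ^ 2)) * volume A) ^ ((4 - q) / 2) *
        (((M * ENNReal.ofReal (((2 : ℝ) ^ k) ^ η)) * C * volume A) ^ a *
          (μ univ * ENNReal.ofReal (4 * Real.pi ^ 4) * volume A ^ 2) ^ ((q - 2) / 2 - a)) := by
        gcongr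
    _ = _ := by
        rw [alg hq4 ha haq]
        rfl

end Pool.Agent.Dil
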