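import Mathlib
import Pool.Agent.Dil.Targets
import Pool.Agent.Restr.Blocks

/-!
# Sobolev inequality in the last variable
-/

namespace Pool.Agent.Dil

namespace SOB_

open MeasureTheory Set Filter
open Pool.Agent.Restr (u E QQ norm_u)
open scoped ENNReal NNReal Topology

theorem cont_u : Continuous u := by
  unfold u
  fun_prop

theorem hasDeriv_u (A c σ : ℝ) :
    HasDerivAt (fun σ : ℝ => u (A + σ * c)) (-(Complex.I * c) * u (A + σ * c)) σ := by
  unfold u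
  have h1 : HasDerivAt (fun σ : ℝ => -(Complex.I * ((A + σ * c : ℝ) : ℂ)))
      (-(Complex.I * c)) σ := by
    have h2 : HasDerivAt (fun σ : ℝ => (A + σ * c : ℝ)) c σ := by
      simpa using ((hasDerivAt_id σ).mul_const c).const_add A
    have h3 := h2.ofReal_comp
    exact (h3.const_mul Complex.I).neg
  have h4 := h1.cexp
  rw [mul_comm]
  exact h4

theorem u_sub (A c b s : ℝ) :
    ∫ σ in b..s, -(Complex.I * c) * u (A + σ * c) = u (A + s * c) - u (A + b * c) :=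
  intervalIntegral.integral_eq_sub_of_hasDerivAt (fun σ _ => hasDeriv_u A c σ)
    (Continuous.intervalIntegrable (by have := cont_u; fun_prop) _ _)

theorem norm_sqm_le {f : ℝ × ℝ → ℂ} (h0 : ∀ x, x ∉ QQ → f x = 0) (z : ℝ × ℝ) :
    ‖sqm f z‖ ≤ ‖f z‖ := by
  unfold sqm
  by_cases hz : z ∈ QQ
  · rw [norm_mul]
    have h1 : ‖((z.2 ^ 2 : ℝ) : ℂ)‖ ≤ 1 := by
      rw [Complex.norm_real, Real.norm_eq_abs, abs_of_nonneg (sq_nonneg _)]
      have := hz.2
      simp only [mem_Icc] at this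
      nlinarith [this.1, this.2]
    calc _ ≤ 1 * ‖f z‖ := by gcongr
      _ = _ := one_mul _
  · rw [h0 z hz]
    simp

theorem meas_sqm {f : ℝ × ℝ → ℂ} (hm : Measurable f) : Measurable (sqm f) := by
  unfold sqm
  fun_prop

theorem int_mul {f : ℝ × ℝ → ℂ} (hf : Integrable f) (x a y s : ℝ) :
    Integrable (fun z : ℝ × ℝ =>
      u ((x * z.1 + a * z.1 ^ 2) + (y * z.2 + s * z.2 ^ 2)) * f z) := by
  refine Integrable.mono' hf.norm ?_ ?_
  · refine AEStronglyMeasurable.mul ?_ hf.aestronglyMeasurable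
    have := cont_u
    exact Continuous.aestronglyMeasurable (by fun_prop)
  · refine Eventually.of_forall fun z => ?_
    rw [norm_mul, norm_u, one_mul]

theorem fub {f : ℝ × ℝ → ℂ} (hm : Measurable f) (hf : Integrable f)
    (h0 : ∀ x, x ∉ QQ → f x = 0) (x a y b s : ℝ) (hbs : b ≤ s) :
    E2 f ((x, a), (y, s)) - E2 f ((x, a), (y, b)) =
      ∫ σ in Ioc b s, -Complex.I * E2 (sqm f) ((x, a), (y, σ)) := by
  have hcu := cont_u
  have hI : Integrable (Function.uncurry fun (σ : ℝ) (z : ℝ × ℝ) =>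
      -Complex.I * (u ((x * z.1 + a * z.1 ^ 2) + (y * z.2 + σ * z.2 ^ 2)) * sqm f z))
      ((volume.restrict (Ioc b s)).prod volume) := by
    refine Integrable.mono' (hf.norm.comp_snd (volume.restrict (Ioc b s))) ?_ ?_
    · refine Measurable.aestronglyMeasurable ?_
      have hs := meas_sqm hm
      have h1 : Measurable u := hcu.measurable
      unfold Function.uncurry
      simp only
      refine Measurable.const_mul (Measurable.mul ?_ (hs.comp measurable_snd)) _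
      exact h1.comp (by fun_prop)
    · refine Eventually.of_forall fun z => ?_
      simp only [Function.uncurry]
      rw [norm_mul, norm_mul, norm_neg, Complex.norm_I, norm_u, one_mul, one_mul]
      exact norm_sqm_le h0 z.2
  have hsw := integral_integral_swap hI
  have hL : ∀ σ : ℝ, -Complex.I * E2 (sqm f) ((x, a), (y, σ)) =
      ∫ z : ℝ × ℝ, -Complex.I *
        (u ((x * z.1 + a * z.1 ^ 2) + (y * z.2 + σ * z.2 ^ 2)) * sqm f z) := by
    intro σ
    unfold E2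
    rw [integral_const_mul]
  simp_rw [hL]
  rw [hsw]
  unfold E2
  rw [← integral_sub (int_mul hf x a y s) (int_mul hf x a y b)]
  refine integral_congr_ae (Eventually.of_forall fun z => ?_)
  simp only
  rw [← sub_mul]
  have hu := u_sub ((x * z.1 + a * z.1 ^ 2) + y * z.2) (z.2 ^ 2) b s
  rw [intervalIntegral.integral_of_le hbs] at hu
  have e1 : ∀ t : ℝ, (x * z.1 + a * z.1 ^ 2) + (y * z.2 + t * z.2 ^ 2) =
      ((x * z.1 + a * z.1 ^ 2) + y * z.2) + t * z.2 ^ 2 := fun t => by ring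
  simp_rw [e1]
  rw [← hu, ← integral_mul_const]
  refine integral_congr_ae (Eventually.of_forall fun σ => ?_)
  simp only [sqm]
  push_cast
  ring

theorem four_le {μ : Measure ℝ} [IsProbabilityMeasure μ] {h : ℝ → ℝ≥0∞}
    (hh : AEMeasurable h μ) : (∫⁻ s, h s ∂μ) ^ 4 ≤ ∫⁻ s, h s ^ 4 ∂μ := by
  have h1 := Pool.Agent.Restr.sq_lintegral_le hh
  have h2 := Pool.Agent.Restr.sq_lintegral_le (hh.pow_const 2)
  calc (∫⁻ s, h s ∂μ) ^ 4 = ((∫⁻ s, h s ∂μ) ^ 2) ^ 2 := by rw [← pow_mul]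
    _ ≤ (∫⁻ s, h s ^ 2 ∂μ) ^ 2 := by gcongr
    _ ≤ ∫⁻ s, (h s ^ 2) ^ 2 ∂μ := h2
    _ = _ := by simp_rw [← pow_mul]

theorem add_pow4 (p q : ℝ≥0∞) : (p + q) ^ 4 ≤ 8 * (p ^ 4 + q ^ 4) := by
  have h := ENNReal.rpow_add_le_mul_rpow_add_rpow p q (p := 4) (by norm_num)
  have e : ∀ y : ℝ≥0∞, y ^ (4 : ℝ) = y ^ 4 := fun y => by
    rw [← ENNReal.rpow_natCast y 4]; norm_num
  rw [e, e, e] at h
  refine h.trans (le_of_eq ?_)
  congr 1
  rw [show ((4 : ℝ) - 1) = ((3 : ℕ) : ℝ) by norm_num, ENNReal.rpow_natCast]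
  norm_num

theorem meas_E2 {f : ℝ × ℝ → ℂ} (hm : Measurable f) (x a y : ℝ) :
    Measurable (fun s : ℝ => E2 f ((x, a), (y, s))) := by
  unfold E2
  refine StronglyMeasurable.measurable ?_
  refine StronglyMeasurable.integral_prod_right (f := fun (s : ℝ) (z : ℝ × ℝ) =>
    u ((x * z.1 + a * z.1 ^ 2) + (y * z.2 + s * z.2 ^ 2)) * f z) ?_
  refine Measurable.stronglyMeasurable ?_
  have h1 : Measurable u := cont_u.measurable
  unfold Function.uncurry
  simp only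
  refine Measurable.mul ?_ (hm.comp measurable_snd)
  exact h1.comp (by fun_prop)

end SOB_

open MeasureTheory Set Filter SOB_
open Pool.Agent.Restr (u E QQ norm_u)
open scoped ENNReal NNReal Topology

theorem p_SOB : T_SOB := by
  intro f hm hf h0 x a y b
  set F : ℝ → ℂ := fun s => E2 f ((x, a), (y, s)) with hF
  set G : ℝ → ℂ := fun s => E2 (sqm f) ((x, a), (y, s)) with hG
  set μ : Measure ℝ := volume.restrict (Icc b (b + 1)) with hμ
  have hprob : IsProbabilityMeasure μ := ⟨by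
    rw [hμ, Measure.restrict_apply_univ, Real.volume_Icc]; simp⟩
  have hFm : Measurable F := meas_E2 hm x a y
  have hGm : Measurable G := meas_E2 (meas_sqm hm) x a y
  have key : ∀ s ∈ Icc b (b + 1), ‖F b‖ₑ ≤ ‖F s‖ₑ + ∫⁻ σ, ‖G σ‖ₑ ∂μ := by
    intro s hs
    have h1 := fub hm hf h0 x a y b s hs.1
    have h2 : F b = F s - ∫ σ in Ioc b s, -Complex.I * G σ := by
      rw [hG]
      simp only
      rw [← h1]
      simp only [hF]
      ring
    rw [h2]
    calc ‖F s - ∫ σ in Ioc b s, -Complex.I * G σ‖ₑ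
        ≤ ‖F s‖ₑ + ‖∫ σ in Ioc b s, -Complex.I * G σ‖ₑ := enorm_sub_le
      _ ≤ ‖F s‖ₑ + ∫⁻ σ in Ioc b s, ‖-Complex.I * G σ‖ₑ := by
          gcongr
          exact enorm_integral_le_lintegral_enorm _
      _ = ‖F s‖ₑ + ∫⁻ σ in Ioc b s, ‖G σ‖ₑ := by
          congr 1
          refine lintegral_congr fun σ => ?_
          rw [enorm_mul, enorm_neg]
          have : ‖Complex.I‖ₑ = 1 := by
            rw [← ofReal_norm, Complex.norm_I, ENNReal.ofReal_one]
          rw [this, one_mul]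
      _ ≤ ‖F s‖ₑ + ∫⁻ σ, ‖G σ‖ₑ ∂μ := by
          gcongr
          refine Measure.restrict_mono ?_ le_rfl
          intro z hz
          exact ⟨hz.1.le, hz.2.trans hs.2⟩
  have key2 : ‖F b‖ₑ ≤ (∫⁻ s, ‖F s‖ₑ ∂μ) + ∫⁻ σ, ‖G σ‖ₑ ∂μ := by
    calc ‖F b‖ₑ = ∫⁻ _, ‖F b‖ₑ ∂μ := by
          rw [lintegral_const, measure_univ, mul_one]
      _ ≤ ∫⁻ s, (‖F s‖ₑ + ∫⁻ σ, ‖G σ‖ₑ ∂μ) ∂μ := by
          rw [hμ]
          exact setLIntegral_mono' measurableSet_Icc fun s hs => key s hs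
      _ = _ := by
          rw [lintegral_add_right _ measurable_const, lintegral_const, measure_univ, mul_one]
  calc ‖E2 f ((x, a), (y, b))‖ₑ ^ 4 = ‖F b‖ₑ ^ 4 := rfl
    _ ≤ ((∫⁻ s, ‖F s‖ₑ ∂μ) + ∫⁻ σ, ‖G σ‖ₑ ∂μ) ^ 4 := by gcongr
    _ ≤ 8 * ((∫⁻ s, ‖F s‖ₑ ∂μ) ^ 4 + (∫⁻ σ, ‖G σ‖ₑ ∂μ) ^ 4) := add_pow4 _ _
    _ ≤ 8 * ((∫⁻ s, ‖F s‖ₑ ^ 4 ∂μ) + ∫⁻ σ, ‖G σ‖ₑ ^ 4 ∂μ) := by
        gcongr
        · exact four_le hFm.enorm.aemeasurable
        · exact four_le hGm.enorm.aemeasurable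
    _ = 8 * ∫⁻ s, (‖F s‖ₑ ^ 4 + ‖G s‖ₑ ^ 4) ∂μ := by
        rw [lintegral_add_left (hFm.enorm.pow_const 4)]
    _ = _ := rfl

end Pool.Agent.Dil
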