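import Pool.Agent.Dil.Targets

/-!
# The distribution of the norm over the dilation parameter (TAIL)
-/

namespace Pool.Agent.Dil

open MeasureTheory Set Filter
open Pool.Agent.Restr (u E QQ)
open Pool.Agent.H27.Fib (ind)
open scoped ENNReal NNReal Topology

namespace TAIL_

lemma cancel {q a : ℝ} (hq : 0 < q) (ha : 0 < a) {C : ℝ≥0} {K : ℝ} (hK : 0 < K)
    {N m : ℝ≥0∞} (hN0 : N ≠ 0) (hN1 : N ≠ ⊤) (hm : m ≠ ⊤)
    (h : (ENNReal.ofReal K * N) ^ q * m ≤ C * (1 ^ a * m ^ (1 - a)) * N ^ q) :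
    m ≤ (C : ℝ≥0∞) ^ (1 / a) * ENNReal.ofReal (K ^ (-(q / a))) := by
  rcases eq_or_ne m 0 with h0 | h0
  · rw [h0]
    exact zero_le
  set k : ℝ≥0∞ := ENNReal.ofReal K with hk
  have hk0 : k ≠ 0 := by
    rw [hk]
    simpa using hK
  have hk1 : k ≠ ⊤ := ENNReal.ofReal_ne_top
  have hNq0 : N ^ q ≠ 0 := by
    simp [ENNReal.rpow_eq_zero_iff, hN0, hN1]
  have hNq1 : N ^ q ≠ ⊤ := ENNReal.rpow_ne_top_of_nonneg hq.le hN1
  have hkq0 : k ^ q ≠ 0 := by
    simp [ENNReal.rpow_eq_zero_iff, hk0, hk1]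
  have hkq1 : k ^ q ≠ ⊤ := ENNReal.rpow_ne_top_of_nonneg hq.le hk1
  rw [ENNReal.mul_rpow_of_nonneg _ _ hq.le, ENNReal.one_rpow, one_mul] at h
  have h1 : k ^ q * m ≤ C * m ^ (1 - a) := by
    have e : k ^ q * N ^ q * m = k ^ q * m * N ^ q := by ring
    rw [e] at h
    exact (ENNReal.mul_le_mul_iff_left hNq0 hNq1).1 h
  have hs : m = m ^ a * m ^ (1 - a) := by
    rw [← ENNReal.rpow_add _ _ h0 hm]
    simp
  have hma0 : m ^ (1 - a) ≠ 0 := by
    simp [ENNReal.rpow_eq_zero_iff, h0, hm]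
  have hma1 : m ^ (1 - a) ≠ ⊤ := by
    simp [ENNReal.rpow_eq_top_iff, h0, hm]
  have h2 : k ^ q * m ^ a ≤ C := by
    have h3 : k ^ q * m ^ a * m ^ (1 - a) ≤ C * m ^ (1 - a) := by
      rw [mul_assoc, ← hs]
      exact h1
    exact (ENNReal.mul_le_mul_iff_left hma0 hma1).1 h3
  have h3 : m ^ a ≤ C * (k ^ q)⁻¹ := by
    rw [← div_eq_mul_inv, ENNReal.le_div_iff_mul_le (Or.inl hkq0) (Or.inl hkq1), mul_comm]
    exact h2
  have h4 : (m ^ a) ^ (1 / a) = m := by
    rw [← ENNReal.rpow_mul, mul_one_div_cancel ha.ne', ENNReal.rpow_one]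
  have ha1 : 0 ≤ 1 / a := by positivity
  have h5 := ENNReal.rpow_le_rpow h3 ha1
  rw [h4, ENNReal.mul_rpow_of_nonneg _ _ ha1] at h5
  refine h5.trans (le_of_eq ?_)
  congr 1
  rw [← ENNReal.rpow_neg, ← ENNReal.rpow_mul, ← ENNReal.ofReal_rpow_of_pos hK, ← hk]
  congr 1
  ring

end TAIL_

open TAIL_

theorem p_TAIL (h1 : T_FRO) (h2 : T_NORM) : T_TAIL := by
  intro q p r hq3 hq4 hp hr0 hr
  have hq0 : 0 < q := by linarith
  have hq2 : 0 < q - 2 := by linarith
  have hp0 : 0 < p := lt_trans (by positivity) hp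
  -- the choice of `a`
  have c1 : (4 - q) / 2 < q / r := by
    rw [lt_div_iff₀ (by linarith)] at hr
    rw [lt_div_iff₀ hr0]
    linarith
  have c2 : (4 - q) / 2 < q / 2 - q / p := by
    have h3 : q < p * (q - 2) := by rwa [div_lt_iff₀ hq2] at hp
    have h4 : q / p < q - 2 := by
      rw [div_lt_iff₀ hp0]
      linarith
    linarith
  have c3 : (4 - q) / 2 < (q - 2) / 2 := by linarith
  obtain ⟨a, ha1, ha2⟩ := exists_between (lt_min c1 (lt_min c2 c3))
  have hb1 : a < q / r := ha2.trans_le (min_le_left _ _)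
  have hb2 : a < q / 2 - q / p := ha2.trans_le ((min_le_right _ _).trans (min_le_left _ _))
  have hb3 : a < (q - 2) / 2 := ha2.trans_le ((min_le_right _ _).trans (min_le_right _ _))
  have ha0 : 0 < a := lt_trans (by linarith) ha1
  obtain ⟨C, hC⟩ := h1 q p a 1 hq3 hq4 hp ha0 hb3.le hb2 one_pos le_rfl (by linarith)
  refine ⟨C ^ (1 / a) + 1, ?_⟩
  intro f hf hsupp K hK
  obtain ⟨-, -, hmeas⟩ := h2 q hq0 f hf
  set N : ℝ≥0∞ := eLpNorm f (ENNReal.ofReal p) volume with hN
  set G : ℝ → ℝ≥0∞ := fun θ => eLpNorm (E (dil θ f)) (ENNReal.ofReal q) volume with hG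
  set S : Set ℝ := {θ : ℝ | θ ∈ Icc (1 : ℝ) 2 ∧ ENNReal.ofReal K * N < G θ} with hS
  change volume S ≤ _
  have hSm : MeasurableSet S := measurableSet_Icc.inter (measurableSet_lt measurable_const hmeas)
  have hSsub : S ⊆ Icc 1 2 := fun θ h => h.1
  have hm1 : volume S ≤ 1 := by
    refine (measure_mono hSsub).trans ?_
    rw [Real.volume_Icc]
    norm_num
  have hmtop : volume S ≠ ⊤ := ne_top_of_le_ne_top ENNReal.one_ne_top hm1
  -- infinite norm
  rcases eq_or_ne N ⊤ with hNt | hNt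
  · have : S = ∅ := by
      ext θ
      simp only [hS, mem_ofPred_eq, mem_empty_iff_false, iff_false, not_and, not_lt]
      intro _
      rw [hNt, ENNReal.mul_top (by simpa using hK)]
      exact le_top
    rw [this, measure_empty]
    exact zero_le
  have : IsFiniteMeasure (volume.restrict S) := ⟨by
    rw [Measure.restrict_apply_univ]
    exact lt_top_iff_ne_top.2 hmtop⟩
  have key := hC (volume.restrict S) (by
      rw [Measure.restrict_apply measurableSet_Icc.compl]
      have : (Icc (1 : ℝ) 2)ᶜ ∩ S = ∅ := by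
        ext θ
        simp only [mem_inter_iff, mem_compl_iff, mem_empty_iff_false, iff_false, not_and]
        intro h3 h4
        exact h3 (hSsub h4)
      rw [this, measure_empty]) 1 (by
      intro x ρ _ _
      refine (Measure.restrict_apply_le _ _).trans ?_
      rw [Real.volume_Icc, add_sub_cancel_left, Real.rpow_one]
      simp) f hf hsupp hNt
  rw [Measure.restrict_apply_univ] at key
  have key2 : (ENNReal.ofReal K * N) ^ q * volume S ≤
      C * (1 ^ a * volume S ^ (1 - a)) * N ^ q := by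
    refine le_trans ?_ key
    rw [← setLIntegral_const]
    exact setLIntegral_mono' hSm fun θ hθ => ENNReal.rpow_le_rpow hθ.2.le hq0.le
  -- zero norm
  rcases eq_or_ne N 0 with hN0 | hN0
  · have h3 : ∫⁻ θ, G θ ^ q ∂(volume.restrict S) = 0 := by
      refine le_antisymm (key.trans ?_) zero_le
      rw [← hN, hN0, ENNReal.zero_rpow_of_pos hq0, mul_zero]
    have h4 : volume S = 0 := by
      have h5 : ∀ θ ∈ S, G θ ^ q ≠ 0 := by
        intro θ hθ h6
        have h7 : 0 < G θ := lt_of_le_of_lt zero_le hθ.2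
        rcases (ENNReal.rpow_eq_zero_iff.1 h6) with h8 | h8
        · exact h7.ne' h8.1
        · linarith [h8.2]
      have h6 := (lintegral_eq_zero_iff (hmeas.pow_const q)).1 h3
      have h7 : ∀ᵐ θ ∂(volume.restrict S), θ ∈ S := ae_restrict_mem hSm
      have h8 : ∀ᵐ θ ∂(volume.restrict S), False := by
        filter_upwards [h6, h7] with θ h9 h10
        exact h5 θ h10 h9
      have h9 : volume.restrict S univ = 0 := by
        have := ae_iff.1 h8
        simpa using this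
      rwa [Measure.restrict_apply_univ] at h9
    rw [h4]
    exact zero_le
  have hfin := cancel hq0 ha0 hK hN0 hNt hmtop key2
  have hcoe : ((C ^ (1 / a) + 1 : ℝ≥0) : ℝ≥0∞) = (C : ℝ≥0∞) ^ (1 / a) + 1 := by
    rw [ENNReal.coe_add, ENNReal.coe_rpow_of_nonneg _ (by positivity), ENNReal.coe_one]
  rw [hcoe]
  rcases le_total 1 K with hK1 | hK1
  · refine hfin.trans (mul_le_mul' le_self_add (ENNReal.ofReal_le_ofReal ?_))
    apply Real.rpow_le_rpow_of_exponent_le hK1
    have h3 : r ≤ q / a := by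
      rw [lt_div_iff₀ hr0] at hb1
      rw [le_div_iff₀ ha0]
      linarith
    linarith
  · refine hm1.trans ?_
    have h3 : (1 : ℝ≥0∞) ≤ ENNReal.ofReal (K ^ (-r)) := by
      rw [← ENNReal.ofReal_one]
      apply ENNReal.ofReal_le_ofReal
      exact Real.one_le_rpow_of_pos_of_le_one_of_nonpos hK hK1 (by linarith)
    calc (1 : ℝ≥0∞) = 1 * 1 := (one_mul 1).symm
      _ ≤ _ := mul_le_mul' le_add_self h3

end Pool.Agent.Dil
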