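import Mathlib
import Pool.Agent.Dil.Targets

/-!
# The small times
-/

namespace Pool.Agent.Dil

open MeasureTheory Set Filter
open Pool.Agent.Restr (u E QQ)
open Pool.Agent.H27.Fib (ind)
open scoped ENNReal NNReal Topology

namespace ZERO_

theorem lin1 {g : ℝ → ℝ≥0∞} (hg : Measurable g) {θ : ℝ} (hθ : 1 ≤ θ) :
    ∫⁻ y, g (θ * y) ≤ ∫⁻ y, g y := by
  have h0 : θ ≠ 0 := by linarith
  have h : ∫⁻ y, g (θ * y) = ∫⁻ y, g y ∂(Measure.map (θ * ·) volume) := by
    rw [lintegral_map hg (measurable_const_mul θ)]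
  rw [h, Real.map_volume_mul_left h0, lintegral_smul_measure, smul_eq_mul]
  have h1 : ENNReal.ofReal |θ⁻¹| ≤ 1 := by
    rw [← ENNReal.ofReal_one]
    apply ENNReal.ofReal_le_ofReal
    rw [abs_of_nonneg (by positivity)]
    exact inv_le_one_of_one_le₀ hθ
  calc ENNReal.ofReal |θ⁻¹| * ∫⁻ y, g y ≤ 1 * ∫⁻ y, g y := by gcongr
    _ = _ := one_mul _

theorem lin2 {g : ℝ × ℝ → ℝ≥0∞} (hg : Measurable g) {θ : ℝ} (hθ : 1 ≤ θ) :
    ∫⁻ x : ℝ × ℝ, g (x.1, θ * x.2) ≤ ∫⁻ x, g x := by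
  have h1 : Measurable (fun x : ℝ × ℝ => g (x.1, θ * x.2)) :=
    hg.comp (by fun_prop)
  rw [Measure.volume_eq_prod, lintegral_prod _ h1.aemeasurable, lintegral_prod _ hg.aemeasurable]
  exact lintegral_mono fun a => lin1 (hg.comp (by fun_prop)) hθ

theorem meas_dil {f : ℝ × ℝ → ℂ} (hf : Measurable f) (θ : ℝ) : Measurable (dil θ f) :=
  hf.comp (by fun_prop)

theorem vol_S : volume {t : ℝ | |t| < 1} = 2 := by
  have e : {t : ℝ | |t| < 1} = Ioo (-1) 1 := by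
    ext t
    rw [mem_ofPred_eq, abs_lt, mem_Ioo]
  rw [e, Real.volume_Ioo]
  norm_num

end ZERO_

open ZERO_ in
theorem p_ZERO : T_ZERO := by
  intro q p hq hq4 hp
  refine ⟨(8 * Real.pi ^ 2).toNNReal, fun f hf hs θ hθ => ?_⟩
  set N := eLpNorm f (ENNReal.ofReal p) volume with hN
  have hsup : f.support ⊆ QQ := by
    intro x hx
    by_contra h
    exact hx (hs x h)
  have n1 : ∫⁻ x, ‖f x‖ₑ ≤ N := by
    rw [← eLpNorm_one_eq_lintegral_enorm]
    refine Pool.Agent.Restr.eLpNorm_le_one hsup ?_ hf.aestronglyMeasurable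
      Pool.Agent.Restr.vol_QQ
    rw [← ENNReal.ofReal_one]
    exact ENNReal.ofReal_le_ofReal (by linarith)
  have n2 : ∫⁻ x, ‖f x‖ₑ ^ 2 ≤ N ^ 2 := by
    rw [Pool.Agent.Restr.lin_2]
    gcongr
    refine Pool.Agent.Restr.eLpNorm_le_one hsup ?_ hf.aestronglyMeasurable
      Pool.Agent.Restr.vol_QQ
    rw [show (2 : ℝ≥0∞) = ENNReal.ofReal 2 by norm_num]
    exact ENNReal.ofReal_le_ofReal hp
  have m1 : ∫⁻ x, ‖dil θ f x‖ₑ ≤ N :=
    (lin2 (g := fun x => ‖f x‖ₑ) hf.enorm hθ.1).trans n1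
  have m2 : ∫⁻ x, ‖dil θ f x‖ₑ ^ 2 ≤ N ^ 2 :=
    (lin2 (g := fun x => ‖f x‖ₑ ^ 2) (hf.enorm.pow_const 2) hθ.1).trans n2
  have key : ∀ t : ℝ, sl q (dil θ f) t ≤ ENNReal.ofReal (4 * Real.pi ^ 2) * N ^ q := by
    intro t
    unfold sl
    calc ∫⁻ w : ℝ × ℝ, ‖E (dil θ f) (w.1, w.2, t)‖ₑ ^ q
        ≤ ∫⁻ w : ℝ × ℝ, N ^ (q - 2) * ‖E (dil θ f) (w.1, w.2, t)‖ₑ ^ 2 := by
          refine lintegral_mono fun w => ?_
          have e : ‖E (dil θ f) (w.1, w.2, t)‖ₑ ^ q =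
              ‖E (dil θ f) (w.1, w.2, t)‖ₑ ^ (q - 2) * ‖E (dil θ f) (w.1, w.2, t)‖ₑ ^ 2 := by
            rw [← ENNReal.rpow_natCast, ← ENNReal.rpow_add_of_nonneg _ _ (by linarith)
              (by norm_num)]
            congr 1
            push_cast
            ring
          simp only
          rw [e]
          gcongr
          exact (Pool.Agent.H27.Fib.enorm_E_le _ _).trans m1
      _ = N ^ (q - 2) * ∫⁻ w : ℝ × ℝ, ‖E (dil θ f) (w.1, w.2, t)‖ₑ ^ 2 := by
          rw [lintegral_const_mul]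
          exact (((Pool.Agent.Restr.measurable_E (meas_dil hf θ)).comp
            (by fun_prop : Measurable fun w : ℝ × ℝ => (w.1, w.2, t))).enorm.pow_const 2)
      _ ≤ N ^ (q - 2) * (ENNReal.ofReal (4 * Real.pi ^ 2) * N ^ 2) := by
          gcongr
          exact (Pool.Agent.Restr.L2_slice (meas_dil hf θ) t).trans (by gcongr)
      _ = ENNReal.ofReal (4 * Real.pi ^ 2) * N ^ q := by
          have e : N ^ q = N ^ (q - 2) * N ^ 2 := by
            rw [← ENNReal.rpow_natCast, ← ENNReal.rpow_add_of_nonneg _ _ (by linarith)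
              (by norm_num)]
            congr 1
            push_cast
            ring
          rw [e]
          ring
  calc ∫⁻ t in {t : ℝ | |t| < 1}, sl q (dil θ f) t
      ≤ ∫⁻ _ in {t : ℝ | |t| < 1}, ENNReal.ofReal (4 * Real.pi ^ 2) * N ^ q :=
        lintegral_mono fun t => key t
    _ = ENNReal.ofReal (4 * Real.pi ^ 2) * N ^ q * 2 := by
        rw [setLIntegral_const, vol_S]
    _ = _ := by
        have e : (((8 * Real.pi ^ 2).toNNReal : ℝ≥0) : ℝ≥0∞) =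
            2 * ENNReal.ofReal (4 * Real.pi ^ 2) := by
          change ENNReal.ofReal (8 * Real.pi ^ 2) = _
          rw [show 8 * Real.pi ^ 2 = 2 * (4 * Real.pi ^ 2) by ring,
            ENNReal.ofReal_mul (by norm_num)]
          rw [show ENNReal.ofReal 2 = 2 by norm_num]
        rw [e]
        ring

end Pool.Agent.Dil
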