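import Mathlib
import Pool.Agent.Dil.L4
import Pool.Agent.Dil.SOB
import Pool.Agent.Dil.L4A
import Pool.Agent.Dil.RES
import Pool.Agent.Dil.LAY
import Pool.Agent.Dil.FUN
import Pool.Agent.Dil.ZERO
import Pool.Agent.Dil.NORM
import Pool.Agent.Dil.FRO
import Pool.Agent.Dil.TAIL
import Pool.Agent.Dil.ABS
import Pool.Agent.Dil.DIM1
import Pool.Agent.Dil.ISO
import Pool.Agent.Dil.DIM
import Pool.Agent.Dil.MAT

/-!
# Assembly
-/

namespace Pool.Agent.Dil

open MeasureTheory Set Filter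
open Pool.Agent.Restr (u E QQ)
open scoped ENNReal NNReal Topology

theorem a_L4A : T_L4A := p_L4A p_L4 p_SOB
theorem a_RES : T_RES := p_RES a_L4A
theorem a_FUN : T_FUN := p_FUN a_RES p_LAY
theorem a_FRO : T_FRO := p_FRO a_FUN p_ZERO p_NORM
theorem a_TAIL : T_TAIL := p_TAIL a_FRO p_NORM
theorem a_DIM1 : T_DIM1 := p_DIM1 a_FUN p_ZERO p_NORM p_ABS
theorem a_DIM : T_DIM := p_DIM a_DIM1 p_ISO
theorem a_MAT : T_MAT := p_MAT a_FRO p_NORM p_ISO

/-- The uniform estimate for measures of dimension `α`. -/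
theorem frostman {q p α : ℝ} (hq : 3 < q) (hq4 : q < 4) (hp : q / (q - 2) < p) (hpq : p ≤ q)
    (hα : (4 - q) / (q - 2 * q / p) < α) (hα1 : α ≤ 1) :
    ∃ C : ℝ≥0, ∀ (μ : Measure ℝ), μ (Icc 1 2)ᶜ = 0 →
      (∀ x r : ℝ, 0 < r → μ (Icc x (x + r)) ≤ ENNReal.ofReal (r ^ α)) →
      ∀ f : ℝ × ℝ → ℂ, Measurable f → (∀ x, x ∉ QQ → f x = 0) →
      eLpNorm f (ENNReal.ofReal p) volume ≠ ⊤ →
      ∫⁻ θ, eLpNorm (E (dil θ f)) (ENNReal.ofReal q) volume ^ q ∂μ ≤
        C * eLpNorm f (ENNReal.ofReal p) volume ^ q := by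
  have hq0 : 0 < q := by linarith
  have hq2 : 0 < q - 2 := by linarith
  have hp2 : 2 < p := by
    refine lt_of_le_of_lt ?_ hp
    rw [le_div_iff₀ hq2]
    linarith
  have hp0 : 0 < p := by linarith
  have e1 : 2 * q / p = 2 * (q / p) := by ring
  have h1 : q / p < q - 2 := by
    rw [div_lt_iff₀ hp0]
    rw [div_lt_iff₀ hq2] at hp
    linarith
  have h2 : 1 ≤ q / p := (one_le_div₀ hp0).2 hpq
  have hden : 0 < q - 2 * q / p := by
    rw [e1]
    have : q / p < q / 2 := by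
      rw [div_lt_div_iff₀ hp0 (by norm_num)]
      nlinarith
    linarith
  have hα0 : 0 < α := lt_trans (div_pos (by linarith) hden) hα
  rw [div_lt_iff₀ hden, e1] at hα
  -- choose `a`
  have h3 : (4 - q) / 2 / α < q / 2 - q / p := by
    rw [div_lt_iff₀ hα0]
    nlinarith
  obtain ⟨a, ha1, ha2⟩ := exists_between h3
  have ha0 : 0 < a := lt_trans (div_pos (by linarith) hα0) ha1
  rw [div_lt_iff₀ hα0] at ha1
  obtain ⟨C, hC⟩ := a_FRO q p a α hq hq4 hp ha0 (by linarith) ha2 hα0 hα1 (by linarith)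
  refine ⟨C, fun μ hμ hA f hf hs hN => ?_⟩
  have huniv : μ univ ≤ 1 := by
    have h4 : (univ : Set ℝ) ⊆ Icc 1 (1 + 1) ∪ (Icc 1 2)ᶜ := by
      intro x _
      by_cases hx : x ∈ Icc (1 : ℝ) 2
      · left
        norm_num
        exact hx
      · right
        exact hx
    calc μ univ ≤ μ (Icc 1 (1 + 1)) + μ (Icc 1 2)ᶜ := (measure_mono h4).trans (measure_union_le _ _)
      _ ≤ ENNReal.ofReal (1 ^ α) + 0 := by
          gcongr
          · exact hA 1 1 one_pos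
          · exact hμ.le
      _ = 1 := by simp
  have : IsFiniteMeasure μ := ⟨lt_of_le_of_lt huniv ENNReal.one_lt_top⟩
  have h5 := hC μ hμ 1 (fun x r hr _ => by rw [one_mul]; exact hA x r hr) f hf hs hN
  refine h5.trans ?_
  have h6 : (1 : ℝ≥0∞) ^ a * μ univ ^ (1 - a) ≤ 1 := by
    rw [ENNReal.one_rpow, one_mul]
    refine ENNReal.rpow_le_one huniv ?_
    linarith
  calc _ ≤ C * 1 * eLpNorm f (ENNReal.ofReal p) volume ^ q := by gcongr
    _ = _ := by rw [mul_one]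

end Pool.Agent.Dil
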